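import Mathlib

set_option autoImplicit false

open scoped InnerProductSpace Topology
open Set Filter MeasureTheory

namespace Pool.Agent.Lib.MP_b98ad5_an

variable {H : Type*} [NormedAddCommGroup H] [InnerProductSpace ℂ H]

/-- Strongly convergent contractions converge uniformly along a continuous path on a compact
interval. -/
lemma eventually_uniform {P : ℕ → H →L[ℂ] H} (hP1 : ∀ n x, ‖P n x‖ ≤ ‖x‖)
    (hPt : ∀ x, Tendsto (fun n => P n x) atTop (𝓝 x)) {T : ℝ} {v : ℝ → H}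
    (hv : ContinuousOn v (Icc 0 T)) {ε : ℝ} (hε : 0 < ε) :
    ∀ᶠ n in atTop, ∀ t ∈ Icc 0 T, ‖P n (v t) - v t‖ ≤ ε := by
  have hK : IsCompact (v '' Icc 0 T) := isCompact_Icc.image_of_continuousOn hv
  obtain ⟨s, -, hsf, hcov⟩ := hK.finite_cover_balls (e := ε / 3) (by positivity)
  have h1 : ∀ᶠ n in atTop, ∀ x ∈ s, ‖P n x - x‖ ≤ ε / 3 := by
    rw [Filter.eventually_all_finite hsf]
    intro x _
    have h2 := (hPt x).sub_const x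
    rw [sub_self] at h2
    have h3 := h2.norm
    rw [norm_zero] at h3
    exact h3.eventually (ge_mem_nhds (by positivity))
  filter_upwards [h1] with n hn t ht
  obtain ⟨x, hxs, hx⟩ := mem_iUnion₂.mp (hcov (mem_image_of_mem v ht))
  rw [Metric.mem_ball, dist_eq_norm] at hx
  have h4 : P n (v t) - v t = P n (v t - x) + (P n x - x) + (x - v t) := by
    rw [map_sub]; abel
  rw [h4]
  calc ‖P n (v t - x) + (P n x - x) + (x - v t)‖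
      ≤ ‖P n (v t - x)‖ + ‖P n x - x‖ + ‖x - v t‖ := norm_add₃_le
    _ ≤ ε / 3 + ε / 3 + ε / 3 := by
        gcongr
        · exact (hP1 n _).trans hx.le
        · exact hn x hxs
        · rw [norm_sub_rev]; exact hx.le
    _ = ε := by ring

/-- Chain rule for a functional with a second order Taylor estimate. -/
lemma hasDerivAt_of_taylor {Φ : H → ℝ} {g : H → H} {L : ℝ}
    (hT : ∀ x y, |Φ (x + y) - Φ x - (⟪g x, y⟫_ℂ).re| ≤ L * ‖y‖ ^ 2) {x : ℝ → H} {y : H} {t : ℝ}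
    (hx : HasDerivAt x y t) : HasDerivAt (fun s => Φ (x s)) (⟪g (x t), y⟫_ℂ).re t := by
  let f' : H →L[ℝ] ℝ := Complex.reCLM.comp ((innerSL ℂ (g (x t))).restrictScalars ℝ)
  have hf' : ∀ h, f' h = (⟪g (x t), h⟫_ℂ).re := fun h => rfl
  have hF : HasFDerivAt Φ f' (x t) := by
    rw [hasFDerivAt_iff_isLittleO_nhds_zero]
    have h1 : (fun h => Φ (x t + h) - Φ (x t) - f' h) =O[𝓝 0] fun h => ‖h‖ ^ 2 := by
      refine Asymptotics.IsBigO.of_bound L (Eventually.of_forall fun h => ?_)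
      rw [Real.norm_eq_abs, hf', Real.norm_of_nonneg (by positivity)]
      exact hT (x t) h
    refine h1.trans_isLittleO ?_
    exact Asymptotics.isLittleO_norm_pow_id one_lt_two
  exact hF.comp_hasDerivAt t hx

lemma taylor_normSq (x y : H) : |‖x + y‖ ^ 2 - ‖x‖ ^ 2 - (⟪(2 : ℂ) • x, y⟫_ℂ).re| ≤ 1 * ‖y‖ ^ 2 := by
  have h := norm_add_sq (𝕜 := ℂ) x y
  have h2 : (⟪(2 : ℂ) • x, y⟫_ℂ).re = 2 * (⟪x, y⟫_ℂ).re := by
    rw [inner_smul_left]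
    simp
  rw [h2, h]
  have h3 : ‖x‖ ^ 2 + 2 * RCLike.re ⟪x, y⟫_ℂ + ‖y‖ ^ 2 - ‖x‖ ^ 2 - 2 * (⟪x, y⟫_ℂ).re = ‖y‖ ^ 2 := by
    have : RCLike.re ⟪x, y⟫_ℂ = (⟪x, y⟫_ℂ).re := rfl
    rw [this]; ring
  rw [h3, one_mul, abs_of_nonneg (by positivity)]

lemma taylor_quad {A : H →L[ℂ] H} (hA : ∀ x y, ⟪A x, y⟫_ℂ = ⟪x, A y⟫_ℂ) (x y : H) :
    |(⟪A (x + y), x + y⟫_ℂ).re - (⟪A x, x⟫_ℂ).re - (⟪(2 : ℂ) • A x, y⟫_ℂ).re| ≤
      ‖A‖ * ‖y‖ ^ 2 := by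
  have h2 : (⟪(2 : ℂ) • A x, y⟫_ℂ).re = 2 * (⟪A x, y⟫_ℂ).re := by
    rw [inner_smul_left]
    simp
  have h3 : (⟪A y, x⟫_ℂ).re = (⟪A x, y⟫_ℂ).re := by
    rw [hA y x, ← inner_conj_symm, Complex.conj_re]
  have h4 : (⟪A (x + y), x + y⟫_ℂ).re - (⟪A x, x⟫_ℂ).re - (⟪(2 : ℂ) • A x, y⟫_ℂ).re =
      (⟪A y, y⟫_ℂ).re := by
    rw [h2, map_add, inner_add_left, inner_add_right, inner_add_right]
    simp only [Complex.add_re]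
    rw [h3]; ring
  rw [h4]
  calc |(⟪A y, y⟫_ℂ).re| ≤ ‖⟪A y, y⟫_ℂ‖ := Complex.abs_re_le_norm _
    _ ≤ ‖A y‖ * ‖y‖ := norm_inner_le_norm _ _
    _ ≤ ‖A‖ * ‖y‖ * ‖y‖ := by gcongr; exact A.le_opNorm y
    _ = ‖A‖ * ‖y‖ ^ 2 := by ring

/-- Algebraic properties of the truncation `P` and the truncated operator `A`. -/
structure LevelEq (A P : H →L[ℂ] H) : Prop where
  P_symm : ∀ x y, ⟪P x, y⟫_ℂ = ⟪x, P y⟫_ℂ
  P_idem : ∀ x, P (P x) = P x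
  A_symm : ∀ x y, ⟪A x, y⟫_ℂ = ⟪x, A y⟫_ℂ
  A_nonneg : ∀ x, 0 ≤ (⟪A x, x⟫_ℂ).re
  comm : ∀ x, A (P x) = P (A x)

section pointwise

variable {z : ℂ} {A P : H →L[ℂ] H}

lemma inner_A_real (h : LevelEq A P) (x : H) : ⟪x, A x⟫_ℂ = (((⟪A x, x⟫_ℂ).re : ℝ) : ℂ) := by
  have h1 : (starRingEnd ℂ) ⟪A x, x⟫_ℂ = ⟪A x, x⟫_ℂ := by
    rw [inner_conj_symm, h.A_symm]
  rw [← h.A_symm x x]
  exact (Complex.conj_eq_iff_re.mp h1).symm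

/-- `⟪x, y⟫ = z (-a + k ⟪x, G⟫)` when `y = z (-A x + k P G)`, `P x = x`. -/
lemma inner_x_y (h : LevelEq A P) {x G : H} (hx : P x = x) (k : ℝ) :
    ⟪x, z • (-(A x) + (k : ℂ) • P G)⟫_ℂ =
      z * (-(((⟪A x, x⟫_ℂ).re : ℝ) : ℂ) + k * ⟪x, G⟫_ℂ) := by
  rw [inner_smul_right, inner_add_right, inner_neg_right, inner_smul_right, ← h.P_symm, hx,
    inner_A_real h]

lemma re_inner_A_y (h : LevelEq A P) (hz : ‖z‖ = 1) {x G y : H} (hx : P x = x) (k : ℝ)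
    (hy : y = z • (-(A x) + (k : ℂ) • P G)) :
    (⟪A x, y⟫_ℂ).re = k * (⟪G, y⟫_ℂ).re - z.re * ‖y‖ ^ 2 := by
  have hzz : (starRingEnd ℂ) z * z = 1 := by
    rw [← Complex.normSq_eq_conj_mul_self, Complex.normSq_eq_norm_sq, hz]; simp
  have hAx : A x = (k : ℂ) • P G - (starRingEnd ℂ z) • y := by
    rw [hy, smul_smul, hzz, one_smul]; abel
  have hPy : P y = y := by
    rw [hy, map_smul, map_add, map_neg, map_smul, h.P_idem, ← h.comm, hx]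
  rw [hAx, inner_sub_left, inner_smul_left, inner_smul_left, h.P_symm, hPy,
    inner_self_eq_norm_sq_to_K, Complex.conj_conj, Complex.conj_ofReal, Complex.sub_re,
    Complex.re_ofReal_mul]
  congr 1
  have : (z * ((‖y‖ : ℝ) : ℂ) ^ 2) = z * ((‖y‖ ^ 2 : ℝ) : ℂ) := by push_cast; ring
  have h2 : (z * ((‖y‖ ^ 2 : ℝ) : ℂ)).re = z.re * ‖y‖ ^ 2 := Complex.re_mul_ofReal _ _
  rw [← h2, ← this]
  rfl

end pointwise

/-- The data of a path `v` in `H` to which the energy argument applies. -/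
structure IsBlowupPath (z : ℂ) (α κ T D F₀ p₀ C₁ C₂ φ₀ L : ℝ) (ψ : H) (P A : ℕ → H →L[ℂ] H)
    (Φ : H → ℝ) (g : H → H) (v : ℝ → H) : Prop where
  level : ∀ n, LevelEq (A n) (P n)
  P_norm : ∀ n x, ‖P n x‖ ≤ ‖x‖
  P_tendsto : ∀ x, Tendsto (fun n => P n x) atTop (𝓝 x)
  v_cont : ContinuousOn v (Icc 0 T)
  deriv : ∀ n, ∀ t ∈ Ioo 0 T, HasDerivAt (fun s => P n (v s))
    (z • (-(A n (P n (v t))) + ((Real.exp (κ * t) : ℝ) : ℂ) • P n (g (v t)))) t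
  L_nonneg : 0 ≤ L
  g_lip : ∀ x y, ‖g x - g y‖ ≤ L * ‖x - y‖
  Φ_nonneg : ∀ x, 0 ≤ Φ x
  taylor : ∀ x y, |Φ (x + y) - Φ x - (⟪g x, y⟫_ℂ).re| ≤ L * ‖y‖ ^ 2
  init_D : ∀ n, (⟪A n (P n (v 0)), P n (v 0)⟫_ℂ).re ≤ D
  init_F : ‖v 0‖ ^ 2 ≤ F₀
  init_p : p₀ ≤ ‖⟪ψ, v 0⟫_ℂ‖
  psi_A : ∀ n, ‖A n (P n ψ)‖ ≤ C₁
  euler : ∀ t ∈ Icc 0 T, ⟪v t, g (v t)⟫_ℂ = (((α + 2) * Φ (v t) : ℝ) : ℂ)
  psi_g : ∀ t ∈ Icc 0 T, ‖⟪ψ, g (v t)⟫_ℂ‖ ≤ C₂ * (1 + Φ (v t))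
  low : ∀ t ∈ Icc 0 T, p₀ / 2 ≤ ‖⟪ψ, v t⟫_ℂ‖ → φ₀ ≤ Φ (v t)

namespace IsBlowupPath

variable {z : ℂ} {α κ T D F₀ p₀ C₁ C₂ φ₀ L : ℝ} {ψ : H} {P A : ℕ → H →L[ℂ] H}
    {Φ : H → ℝ} {g : H → H} {v : ℝ → H}

lemma continuous_g (h : IsBlowupPath z α κ T D F₀ p₀ C₁ C₂ φ₀ L ψ P A Φ g v) :
    Continuous g := by
  have : LipschitzWith (Real.toNNReal L) g := by
    refine LipschitzWith.of_dist_le_mul fun x y => ?_
    rw [dist_eq_norm, dist_eq_norm]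
    exact (h.g_lip x y).trans (by gcongr; exact Real.le_coe_toNNReal L)
  exact this.continuous

lemma abs_Φ_sub_le (h : IsBlowupPath z α κ T D F₀ p₀ C₁ C₂ φ₀ L ψ P A Φ g v) (x y : H) :
    |Φ y - Φ x| ≤ ‖g x‖ * ‖y - x‖ + L * ‖y - x‖ ^ 2 := by
  have h1 := h.taylor x (y - x)
  rw [add_sub_cancel] at h1
  have h2 : |(⟪g x, y - x⟫_ℂ).re| ≤ ‖g x‖ * ‖y - x‖ :=
    (Complex.abs_re_le_norm _).trans (norm_inner_le_norm _ _)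
  calc |Φ y - Φ x| = |(Φ y - Φ x - (⟪g x, y - x⟫_ℂ).re) + (⟪g x, y - x⟫_ℂ).re| := by ring_nf
    _ ≤ |Φ y - Φ x - (⟪g x, y - x⟫_ℂ).re| + |(⟪g x, y - x⟫_ℂ).re| := abs_add_le _ _
    _ ≤ L * ‖y - x‖ ^ 2 + ‖g x‖ * ‖y - x‖ := add_le_add h1 h2
    _ = _ := by ring

lemma continuous_Φ (h : IsBlowupPath z α κ T D F₀ p₀ C₁ C₂ φ₀ L ψ P A Φ g v) :
    Continuous Φ := by
  rw [continuous_iff_continuousAt]
  intro x
  rw [ContinuousAt, tendsto_iff_norm_sub_tendsto_zero]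
  have h1 : Tendsto (fun y => ‖g x‖ * ‖y - x‖ + L * ‖y - x‖ ^ 2) (𝓝 x) (𝓝 0) := by
    have h2 : Tendsto (fun y : H => ‖y - x‖) (𝓝 x) (𝓝 0) := by
      have := (continuous_id.sub (continuous_const (y := x))).norm.tendsto x
      simpa using this
    have := (h2.const_mul ‖g x‖).add ((h2.pow 2).const_mul L)
    simpa using this
  exact squeeze_zero (fun y => norm_nonneg _) (fun y => h.abs_Φ_sub_le x y) h1

end IsBlowupPath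

end Pool.Agent.Lib.MP_b98ad5_an
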