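import Pool.Agent.Lib.MP_b98ad5_an.Abstract

set_option autoImplicit false

open scoped InnerProductSpace Topology
open Set Filter MeasureTheory

namespace Pool.Agent.Lib.MP_b98ad5_an

variable {H : Type*} [NormedAddCommGroup H] [InnerProductSpace ℂ H]

/-- A comparison lemma: if `f' ≤ q'` on the open interval then `f - q` decreases. -/
lemma sub_le_of_deriv_le {f q f' q' : ℝ → ℝ} {a b : ℝ} (hf : ContinuousOn f (Icc a b))
    (hq : ContinuousOn q (Icc a b)) (hf' : ∀ t ∈ Ioo a b, HasDerivAt f (f' t) t)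
    (hq' : ∀ t ∈ Ioo a b, HasDerivAt q (q' t) t) (hle : ∀ t ∈ Ioo a b, f' t ≤ q' t)
    {t : ℝ} (ht : t ∈ Icc a b) : f t - f a ≤ q t - q a := by
  have hanti : AntitoneOn (fun s => f s - q s) (Icc a b) := by
    apply antitoneOn_of_deriv_nonpos (convex_Icc a b) (hf.sub hq)
    · intro s hs
      rw [interior_Icc] at hs
      exact ((hf' s hs).sub (hq' s hs)).differentiableAt.differentiableWithinAt
    · intro s hs
      rw [interior_Icc] at hs
      rw [((hf' s hs).sub (hq' s hs)).deriv]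
      linarith [hle s hs]
  have := hanti (left_mem_Icc.mpr (ht.1.trans ht.2)) ht ht.1
  simp only at this
  linarith

namespace IsBlowupPath

variable {z : ℂ} {α κ T D F₀ p₀ C₁ C₂ φ₀ L : ℝ} {ψ : H} {P A : ℕ → H →L[ℂ] H}
    {Φ : H → ℝ} {g : H → H} {v : ℝ → H}

/-- The accumulated potential energy. -/
noncomputable def B (κ : ℝ) (Φ : H → ℝ) (v : ℝ → H) (t : ℝ) : ℝ :=
  ∫ s in (0 : ℝ)..t, Real.exp (κ * s) * Φ (v s)

lemma continuousOn_integrand (h : IsBlowupPath z α κ T D F₀ p₀ C₁ C₂ φ₀ L ψ P A Φ g v) :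
    ContinuousOn (fun s => Real.exp (κ * s) * Φ (v s)) (Icc 0 T) := by
  apply ContinuousOn.mul
  · fun_prop
  · exact h.continuous_Φ.comp_continuousOn h.v_cont

lemma intervalIntegrable_integrand (h : IsBlowupPath z α κ T D F₀ p₀ C₁ C₂ φ₀ L ψ P A Φ g v)
    {a b : ℝ} (ha : a ∈ Icc 0 T) (hb : b ∈ Icc 0 T) :
    IntervalIntegrable (fun s => Real.exp (κ * s) * Φ (v s)) volume a b := by
  apply ContinuousOn.intervalIntegrable
  exact h.continuousOn_integrand.mono (uIcc_subset_Icc ha hb)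

lemma hasDerivAt_B (h : IsBlowupPath z α κ T D F₀ p₀ C₁ C₂ φ₀ L ψ P A Φ g v) {t : ℝ}
    (ht : t ∈ Ioo 0 T) : HasDerivAt (B κ Φ v) (Real.exp (κ * t) * Φ (v t)) t := by
  have hT : 0 ≤ T := ht.1.le.trans ht.2.le
  apply intervalIntegral.integral_hasDerivAt_right
    (h.intervalIntegrable_integrand (left_mem_Icc.mpr hT) (Ioo_subset_Icc_self ht))
  · exact (h.continuousOn_integrand.mono Ioo_subset_Icc_self).stronglyMeasurableAtFilter
      isOpen_Ioo t ht
  · exact h.continuousOn_integrand.continuousAt (Icc_mem_nhds ht.1 ht.2)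

lemma continuousOn_B (h : IsBlowupPath z α κ T D F₀ p₀ C₁ C₂ φ₀ L ψ P A Φ g v) :
    ContinuousOn (B κ Φ v) (Icc 0 T) := by
  rcases lt_or_ge T 0 with hT | hT
  · rw [Icc_eq_empty (not_le.mpr hT)]; exact continuousOn_empty _
  · have := intervalIntegral.continuousOn_primitive_interval (μ := volume)
      (f := fun s => Real.exp (κ * s) * Φ (v s)) (a := 0) (b := T) ?_
    · rwa [uIcc_of_le hT] at this
    · rw [uIcc_of_le hT]
      exact h.continuousOn_integrand.integrableOn_Icc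

omit [NormedAddCommGroup H] [InnerProductSpace ℂ H] in
lemma B_zero : B κ Φ v 0 = 0 := by simp [B]

lemma B_mono (h : IsBlowupPath z α κ T D F₀ p₀ C₁ C₂ φ₀ L ψ P A Φ g v) {s t : ℝ}
    (hs : s ∈ Icc 0 T) (ht : t ∈ Icc 0 T) (hst : s ≤ t) : B κ Φ v s ≤ B κ Φ v t := by
  have h1 : B κ Φ v t - B κ Φ v s = ∫ r in s..t, Real.exp (κ * r) * Φ (v r) := by
    rw [B, B, intervalIntegral.integral_interval_sub_left]
    · exact h.intervalIntegrable_integrand (left_mem_Icc.mpr (hs.1.trans hs.2)) ht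
    · exact h.intervalIntegrable_integrand (left_mem_Icc.mpr (hs.1.trans hs.2)) hs
  have h2 : 0 ≤ ∫ r in s..t, Real.exp (κ * r) * Φ (v r) :=
    intervalIntegral.integral_nonneg hst fun r _ => mul_nonneg (Real.exp_pos _).le (h.Φ_nonneg _)
  linarith

/-- A bound for the nonlinearity along the path. -/
lemma exists_bound_g (h : IsBlowupPath z α κ T D F₀ p₀ C₁ C₂ φ₀ L ψ P A Φ g v) :
    ∃ G : ℝ, 0 ≤ G ∧ ∀ t ∈ Icc 0 T, ‖g (v t)‖ ≤ G := by
  obtain ⟨G, hG⟩ := isCompact_Icc.exists_bound_of_continuousOn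
    (h.continuous_g.comp_continuousOn h.v_cont)
  exact ⟨max G 0, le_max_right _ _, fun t ht => (hG t ht).trans (le_max_left _ _)⟩

lemma exists_bound_v (h : IsBlowupPath z α κ T D F₀ p₀ C₁ C₂ φ₀ L ψ P A Φ g v) :
    ∃ G : ℝ, 0 ≤ G ∧ ∀ t ∈ Icc 0 T, ‖v t‖ ≤ G := by
  obtain ⟨G, hG⟩ := isCompact_Icc.exists_bound_of_continuousOn h.v_cont
  exact ⟨max G 0, le_max_right _ _, fun t ht => (hG t ht).trans (le_max_left _ _)⟩

lemma P_idem' (h : IsBlowupPath z α κ T D F₀ p₀ C₁ C₂ φ₀ L ψ P A Φ g v) (n : ℕ) (x : H) :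
    P n (P n x) = P n x := (h.level n).P_idem x

lemma continuousOn_level (h : IsBlowupPath z α κ T D F₀ p₀ C₁ C₂ φ₀ L ψ P A Φ g v) (n : ℕ) :
    ContinuousOn (fun s => P n (v s)) (Icc 0 T) :=
  (P n).continuous.comp_continuousOn h.v_cont

/-- The derivative of the squared norm at level `n`. -/
lemma hasDerivAt_normSq (h : IsBlowupPath z α κ T D F₀ p₀ C₁ C₂ φ₀ L ψ P A Φ g v) (n : ℕ)
    {t : ℝ} (ht : t ∈ Ioo 0 T) :
    HasDerivAt (fun s => ‖P n (v s)‖ ^ 2)
      (2 * (z * (-(((⟪A n (P n (v t)), P n (v t)⟫_ℂ).re : ℝ) : ℂ) +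
        (Real.exp (κ * t) : ℝ) * ⟪P n (v t), g (v t)⟫_ℂ)).re) t := by
  have h1 := hasDerivAt_of_taylor (Φ := fun x : H => ‖x‖ ^ 2) (g := fun x => (2 : ℂ) • x) (L := 1)
    taylor_normSq (h.deriv n t ht)
  have h2 := inner_x_y (z := z) (h.level n) (x := P n (v t)) (G := g (v t)) (h.P_idem' n (v t))
    (Real.exp (κ * t))
  have h3 : (⟪(2 : ℂ) • P n (v t), z • (-(A n (P n (v t))) +
      ((Real.exp (κ * t) : ℝ) : ℂ) • P n (g (v t)))⟫_ℂ).re =
      (2 * (z * (-(((⟪A n (P n (v t)), P n (v t)⟫_ℂ).re : ℝ) : ℂ) +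
        (Real.exp (κ * t) : ℝ) * ⟪P n (v t), g (v t)⟫_ℂ)).re) := by
    rw [inner_smul_left, h2]
    simp only [map_ofNat]
    rw [show (2 : ℂ) = ((2 : ℝ) : ℂ) by norm_num, Complex.re_ofReal_mul]
  rw [h3] at h1
  exact h1

/-- The velocity at level `n`. -/
noncomputable def vel (z : ℂ) (κ : ℝ) (P A : ℕ → H →L[ℂ] H) (g : H → H) (v : ℝ → H) (n : ℕ)
    (t : ℝ) : H :=
  z • (-(A n (P n (v t))) + ((Real.exp (κ * t) : ℝ) : ℂ) • P n (g (v t)))

/-- The (negative) energy at level `n`. -/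
noncomputable def en (κ : ℝ) (P A : ℕ → H →L[ℂ] H) (Φ : H → ℝ) (v : ℝ → H) (n : ℕ) (t : ℝ) : ℝ :=
  Real.exp (κ * t) * Φ (P n (v t)) - 1 / 2 * (⟪A n (P n (v t)), P n (v t)⟫_ℂ).re

lemma hasDerivAt_en (h : IsBlowupPath z α κ T D F₀ p₀ C₁ C₂ φ₀ L ψ P A Φ g v) (hz : ‖z‖ = 1)
    (n : ℕ) {t : ℝ} (ht : t ∈ Ioo 0 T) :
    HasDerivAt (en κ P A Φ v n)
      (z.re * ‖vel z κ P A g v n t‖ ^ 2 + κ * Real.exp (κ * t) * Φ (P n (v t)) +
        Real.exp (κ * t) * (⟪g (P n (v t)) - g (v t), vel z κ P A g v n t⟫_ℂ).re) t := by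
  have h1 := hasDerivAt_of_taylor h.taylor (h.deriv n t ht)
  have h2 := hasDerivAt_of_taylor (Φ := fun x : H => (⟪A n x, x⟫_ℂ).re)
    (g := fun x => (2 : ℂ) • A n x) (taylor_quad (h.level n).A_symm) (h.deriv n t ht)
  have hexp : HasDerivAt (fun s : ℝ => Real.exp (κ * s)) (Real.exp (κ * t) * κ) t := by
    have := ((hasDerivAt_id t).const_mul κ).exp
    simpa using this
  have h3 := (hexp.mul h1).sub (h2.const_mul (1 / 2))
  have h4 := re_inner_A_y (z := z) (h.level n) hz (x := P n (v t)) (G := g (v t))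
    (y := vel z κ P A g v n t) (h.P_idem' n (v t)) (Real.exp (κ * t)) rfl
  refine h3.congr_deriv ?_
  have h5 : (⟪(2 : ℂ) • A n (P n (v t)), z • (-(A n (P n (v t))) +
      ((Real.exp (κ * t) : ℝ) : ℂ) • P n (g (v t)))⟫_ℂ).re =
      2 * (⟪A n (P n (v t)), vel z κ P A g v n t⟫_ℂ).re := by
    rw [inner_smul_left]
    rw [show (starRingEnd ℂ) (2 : ℂ) = ((2 : ℝ) : ℂ) by rw [map_ofNat]; norm_num]
    exact Complex.re_ofReal_mul _ _
  rw [h5, h4, inner_sub_left, Complex.sub_re]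
  change Real.exp (κ * t) * κ * Φ (P n (v t)) +
    Real.exp (κ * t) * (⟪g (P n (v t)), vel z κ P A g v n t⟫_ℂ).re - _ = _
  ring

lemma continuousOn_en (h : IsBlowupPath z α κ T D F₀ p₀ C₁ C₂ φ₀ L ψ P A Φ g v) (n : ℕ) :
    ContinuousOn (en κ P A Φ v n) (Icc 0 T) := by
  unfold en
  apply ContinuousOn.sub
  · apply ContinuousOn.mul
    · fun_prop
    · exact h.continuous_Φ.comp_continuousOn (h.continuousOn_level n)
  · apply ContinuousOn.mul continuousOn_const
    apply Complex.continuous_re.comp_continuousOn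
    apply ContinuousOn.inner
    · exact (A n).continuous.comp_continuousOn (h.continuousOn_level n)
    · exact h.continuousOn_level n

lemma en_zero (h : IsBlowupPath z α κ T D F₀ p₀ C₁ C₂ φ₀ L ψ P A Φ g v) (n : ℕ) :
    -(D / 2) ≤ en κ P A Φ v n 0 := by
  unfold en
  have h1 := h.init_D n
  have h2 := h.Φ_nonneg (P n (v 0))
  simp only [mul_zero, Real.exp_zero, one_mul]
  linarith

/-- The first integrated inequality: growth of the norm is controlled by the potential energy. -/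
lemma normSq_le (h : IsBlowupPath z α κ T D F₀ p₀ C₁ C₂ φ₀ L ψ P A Φ g v) (hz : 0 < z.re)
    (hz1 : ‖z‖ = 1) (hκ : 0 < κ) {t : ℝ} (ht : t ∈ Icc 0 T) :
    ‖v t‖ ^ 2 ≤ F₀ + 2 * z.re * (α + 2) * B κ Φ v t := by
  obtain ⟨G, hG0, hG⟩ := h.exists_bound_g
  have hT : 0 ≤ T := ht.1.trans ht.2
  -- approximate version
  have key : ∀ ε > 0, ‖v t‖ ^ 2 ≤ F₀ + 2 * z.re * (α + 2) * B κ Φ v t +
      2 * (Real.exp (κ * T) * (ε * G)) * T := by
    intro ε hε
    have hev : ∀ᶠ n in atTop, ‖P n (v t)‖ ^ 2 ≤ F₀ + 2 * z.re * (α + 2) * B κ Φ v t +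
        2 * (Real.exp (κ * T) * (ε * G)) * T := by
      filter_upwards [eventually_uniform h.P_norm h.P_tendsto h.v_cont hε] with n hn
      have hcomp := sub_le_of_deriv_le (f := fun s => ‖P n (v s)‖ ^ 2)
        (q := fun s => 2 * z.re * (α + 2) * B κ Φ v s + 2 * (Real.exp (κ * T) * (ε * G)) * s)
        (a := 0) (b := T)
        (f' := fun t => (2 * (z * (-(((⟪A n (P n (v t)), P n (v t)⟫_ℂ).re : ℝ) : ℂ) +
          (Real.exp (κ * t) : ℝ) * ⟪P n (v t), g (v t)⟫_ℂ)).re))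
        (q' := fun s => 2 * z.re * (α + 2) * (Real.exp (κ * s) * Φ (v s)) +
          2 * (Real.exp (κ * T) * (ε * G)))
        ((h.continuousOn_level n).norm.pow 2)
        ((continuousOn_const.mul h.continuousOn_B).add (by fun_prop))
        (fun s hs => h.hasDerivAt_normSq n hs)
        (fun s hs => by
          have h1 := (h.hasDerivAt_B hs).const_mul (2 * z.re * (α + 2))
          have h2 := (hasDerivAt_id s).const_mul (2 * (Real.exp (κ * T) * (ε * G)))
          exact (h1.add h2).congr_deriv (by simp))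
        ?_ ht
      · have h3 : ‖P n (v 0)‖ ^ 2 ≤ F₀ := by
          refine le_trans ?_ h.init_F
          gcongr
          exact h.P_norm n _
        have h4 : 2 * (Real.exp (κ * T) * (ε * G)) * t ≤ 2 * (Real.exp (κ * T) * (ε * G)) * T := by
          gcongr
          exact ht.2
        simp only [B_zero, mul_zero, add_zero, sub_zero] at hcomp
        linarith
      · intro s hs
        have hs' := Ioo_subset_Icc_self hs
        have h5 : ⟪P n (v s), g (v s)⟫_ℂ = (((α + 2) * Φ (v s) : ℝ) : ℂ) +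
            ⟪P n (v s) - v s, g (v s)⟫_ℂ := by
          rw [← h.euler s hs', ← inner_add_left]
          congr 1; abel
        rw [h5]
        have h6 : ‖⟪P n (v s) - v s, g (v s)⟫_ℂ‖ ≤ ε * G :=
          (norm_inner_le_norm _ _).trans (by gcongr; exacts [hn s hs', hG s hs'])
        have h7 : (z * (-(((⟪A n (P n (v s)), P n (v s)⟫_ℂ).re : ℝ) : ℂ) +
            (Real.exp (κ * s) : ℝ) * ((((α + 2) * Φ (v s) : ℝ) : ℂ) +
              ⟪P n (v s) - v s, g (v s)⟫_ℂ))).re =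
            -(z.re * (⟪A n (P n (v s)), P n (v s)⟫_ℂ).re) +
              z.re * ((α + 2) * (Real.exp (κ * s) * Φ (v s))) +
              Real.exp (κ * s) * (z * ⟪P n (v s) - v s, g (v s)⟫_ℂ).re := by
          have : (z * (-(((⟪A n (P n (v s)), P n (v s)⟫_ℂ).re : ℝ) : ℂ) +
            (Real.exp (κ * s) : ℝ) * ((((α + 2) * Φ (v s) : ℝ) : ℂ) +
              ⟪P n (v s) - v s, g (v s)⟫_ℂ))) =
              ((-(⟪A n (P n (v s)), P n (v s)⟫_ℂ).re : ℝ) : ℂ) * z +
              (((α + 2) * (Real.exp (κ * s) * Φ (v s)) : ℝ) : ℂ) * z +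
              ((Real.exp (κ * s) : ℝ) : ℂ) * (z * ⟪P n (v s) - v s, g (v s)⟫_ℂ) := by
            push_cast; ring
          rw [this, Complex.add_re, Complex.add_re, Complex.re_ofReal_mul, Complex.re_ofReal_mul,
            Complex.re_ofReal_mul]
          ring
        rw [h7]
        have h8 : 0 ≤ z.re * (⟪A n (P n (v s)), P n (v s)⟫_ℂ).re :=
          mul_nonneg hz.le ((h.level n).A_nonneg _)
        have h9 : Real.exp (κ * s) * (z * ⟪P n (v s) - v s, g (v s)⟫_ℂ).re ≤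
            Real.exp (κ * T) * (ε * G) := by
          have h10 : (z * ⟪P n (v s) - v s, g (v s)⟫_ℂ).re ≤ ε * G := by
            refine (Complex.re_le_norm _).trans ?_
            rw [norm_mul, hz1, one_mul]
            exact h6
          calc Real.exp (κ * s) * (z * ⟪P n (v s) - v s, g (v s)⟫_ℂ).re
              ≤ Real.exp (κ * s) * (ε * G) := by gcongr
            _ ≤ Real.exp (κ * T) * (ε * G) := by
                gcongr
                exact hs.2.le
        nlinarith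
    have hlim : Tendsto (fun n => ‖P n (v t)‖ ^ 2) atTop (𝓝 (‖v t‖ ^ 2)) :=
      ((h.P_tendsto (v t)).norm).pow 2
    exact le_of_tendsto hlim hev
  -- let `ε → 0`
  have hlim2 : Tendsto (fun ε : ℝ => F₀ + 2 * z.re * (α + 2) * B κ Φ v t +
      2 * (Real.exp (κ * T) * (ε * G)) * T) (𝓝[>] 0)
      (𝓝 (F₀ + 2 * z.re * (α + 2) * B κ Φ v t + 2 * (Real.exp (κ * T) * (0 * G)) * T)) := by
    apply tendsto_nhdsWithin_of_tendsto_nhds
    apply Continuous.tendsto
    fun_prop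
  simp only [zero_mul, mul_zero, add_zero] at hlim2
  exact ge_of_tendsto hlim2 (eventually_mem_nhdsWithin.mono fun ε hε => key ε hε)

end IsBlowupPath

end Pool.Agent.Lib.MP_b98ad5_an
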