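import Pool.Agent.Lib.MP_b98ad5_an.Abstract2

set_option autoImplicit false

open scoped InnerProductSpace Topology
open Set Filter MeasureTheory

namespace Pool.Agent.Lib.MP_b98ad5_an

variable {H : Type*} [NormedAddCommGroup H] [InnerProductSpace ℂ H]

namespace IsBlowupPath

variable {z : ℂ} {α κ T D F₀ p₀ C₁ C₂ φ₀ L : ℝ} {ψ : H} {P A : ℕ → H →L[ℂ] H}
    {Φ : H → ℝ} {g : H → H} {v : ℝ → H}

lemma C₁_nonneg (h : IsBlowupPath z α κ T D F₀ p₀ C₁ C₂ φ₀ L ψ P A Φ g v) : 0 ≤ C₁ :=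
  (norm_nonneg _).trans (h.psi_A 0)

lemma C₂_nonneg (h : IsBlowupPath z α κ T D F₀ p₀ C₁ C₂ φ₀ L ψ P A Φ g v) (hT : 0 ≤ T) :
    0 ≤ C₂ := by
  have h1 := h.psi_g 0 (left_mem_Icc.mpr hT)
  have h2 := h.Φ_nonneg (v 0)
  have h3 := (norm_nonneg _).trans h1
  by_contra hC
  push Not at hC
  nlinarith

lemma continuousOn_vel (h : IsBlowupPath z α κ T D F₀ p₀ C₁ C₂ φ₀ L ψ P A Φ g v) (n : ℕ) :
    ContinuousOn (vel z κ P A g v n) (Icc 0 T) := by
  unfold vel
  apply ContinuousOn.const_smul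
  apply ContinuousOn.add
  · apply ContinuousOn.neg
    exact (A n).continuous.comp_continuousOn (h.continuousOn_level n)
  · apply ContinuousOn.smul
    · fun_prop
    · exact (P n).continuous.comp_continuousOn (h.continuous_g.comp_continuousOn h.v_cont)

lemma norm_inner_psi_vel (h : IsBlowupPath z α κ T D F₀ p₀ C₁ C₂ φ₀ L ψ P A Φ g v)
    (hz1 : ‖z‖ = 1) (n : ℕ) {t : ℝ} (ht : t ∈ Icc 0 T) :
    ‖⟪ψ, vel z κ P A g v n t⟫_ℂ‖ ≤ C₁ * ‖v t‖ +
      Real.exp (κ * t) * (C₂ * (1 + Φ (v t)) + ‖P n ψ - ψ‖ * ‖g (v t)‖) := by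
  have hl := h.level n
  have h1 : ⟪ψ, vel z κ P A g v n t⟫_ℂ = z * (-⟪A n (P n ψ), v t⟫_ℂ +
      ((Real.exp (κ * t) : ℝ) : ℂ) * (⟪ψ, g (v t)⟫_ℂ + ⟪P n ψ - ψ, g (v t)⟫_ℂ)) := by
    rw [vel, inner_smul_right, inner_add_right, inner_neg_right, inner_smul_right,
      ← inner_add_left]
    congr 2
    · rw [← hl.A_symm, ← hl.P_symm, ← hl.comm]
    · rw [← hl.P_symm]
      congr 2; abel
  rw [h1, norm_mul, hz1, one_mul]
  calc ‖-⟪A n (P n ψ), v t⟫_ℂ +
      ((Real.exp (κ * t) : ℝ) : ℂ) * (⟪ψ, g (v t)⟫_ℂ + ⟪P n ψ - ψ, g (v t)⟫_ℂ)‖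
      ≤ ‖⟪A n (P n ψ), v t⟫_ℂ‖ +
        Real.exp (κ * t) * (‖⟪ψ, g (v t)⟫_ℂ‖ + ‖⟪P n ψ - ψ, g (v t)⟫_ℂ‖) := by
        refine (norm_add_le _ _).trans ?_
        rw [norm_neg, norm_mul, Complex.norm_real, Real.norm_of_nonneg (Real.exp_pos _).le]
        gcongr
        exact norm_add_le _ _
    _ ≤ _ := by
        gcongr
        · refine (norm_inner_le_norm _ _).trans ?_
          gcongr
          exact h.psi_A n
        · exact h.psi_g t ht
        · exact norm_inner_le_norm _ _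

/-- The second integrated inequality: the pairing with the test vector moves slowly. -/
lemma psi_le (h : IsBlowupPath z α κ T D F₀ p₀ C₁ C₂ φ₀ L ψ P A Φ g v)
    (hz1 : ‖z‖ = 1) (hκ : 0 < κ) {t : ℝ} (ht : t ∈ Icc 0 T) {M : ℝ}
    (hM : ∀ s ∈ Icc 0 t, ‖v s‖ ≤ M) :
    ‖⟪ψ, v t⟫_ℂ - ⟪ψ, v 0⟫_ℂ‖ ≤ C₁ * M * t + C₂ * (Real.exp (κ * t) * t + B κ Φ v t) := by
  obtain ⟨G, hG0, hG⟩ := h.exists_bound_g
  have hT : 0 ≤ T := ht.1.trans ht.2
  have hC₂ := h.C₂_nonneg hT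
  have hC₁ := h.C₁_nonneg
  have key : ∀ n, ‖⟪ψ, P n (v t)⟫_ℂ - ⟪ψ, P n (v 0)⟫_ℂ‖ ≤
      C₁ * M * t + C₂ * (Real.exp (κ * t) * t + B κ Φ v t) +
        Real.exp (κ * T) * (‖P n ψ - ψ‖ * G) * t := by
    intro n
    have hsub : Icc 0 t ⊆ Icc 0 T := Icc_subset_Icc_right ht.2
    have hderiv : ∀ s ∈ Ioo 0 t, HasDerivAt (fun s => ⟪ψ, P n (v s)⟫_ℂ)
        (⟪ψ, vel z κ P A g v n s⟫_ℂ) s := by
      intro s hs
      have h1 := h.deriv n s ⟨hs.1, hs.2.trans_le ht.2⟩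
      have h2 := (hasDerivAt_const s ψ).inner ℂ h1
      rw [inner_zero_left, add_zero] at h2
      exact h2
    have hcont : ContinuousOn (fun s => ⟪ψ, vel z κ P A g v n s⟫_ℂ) (Icc 0 t) :=
      continuousOn_const.inner ((h.continuousOn_vel n).mono hsub)
    have hFTC := intervalIntegral.integral_eq_sub_of_hasDerivAt_of_le ht.1
      (f := fun s => ⟪ψ, P n (v s)⟫_ℂ) (f' := fun s => ⟪ψ, vel z κ P A g v n s⟫_ℂ)
      (continuousOn_const.inner ((h.continuousOn_level n).mono hsub)) hderiv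
      (by
        apply ContinuousOn.intervalIntegrable
        rwa [uIcc_of_le ht.1])
    rw [← hFTC]
    have hint : IntervalIntegrable (fun s => (C₁ * M + C₂ * Real.exp (κ * t) +
        Real.exp (κ * T) * (‖P n ψ - ψ‖ * G)) + C₂ * (Real.exp (κ * s) * Φ (v s))) volume 0 t := by
      apply IntervalIntegrable.add (by simp)
      exact (h.intervalIntegrable_integrand (left_mem_Icc.mpr hT) ht).const_mul C₂
    refine (intervalIntegral.norm_integral_le_of_norm_le ht.1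
      (g := fun s => (C₁ * M + C₂ * Real.exp (κ * t) +
        Real.exp (κ * T) * (‖P n ψ - ψ‖ * G)) + C₂ * (Real.exp (κ * s) * Φ (v s)))
      (Eventually.of_forall fun s hs => ?_) hint).trans (le_of_eq ?_)
    · have hs' : s ∈ Icc 0 t := Ioc_subset_Icc_self hs
      refine (h.norm_inner_psi_vel hz1 n (hsub hs')).trans ?_
      have h3 : C₁ * ‖v s‖ ≤ C₁ * M := by gcongr; exact hM s hs'
      have h4 : Real.exp (κ * s) * (C₂ * 1) ≤ Real.exp (κ * t) * (C₂ * 1) := by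
        gcongr; exact hs'.2
      have h5 : Real.exp (κ * s) * (‖P n ψ - ψ‖ * ‖g (v s)‖) ≤
          Real.exp (κ * T) * (‖P n ψ - ψ‖ * G) := by
        gcongr
        · exact (hsub hs').2
        · exact hG s (hsub hs')
      have h6 : Real.exp (κ * s) * (C₂ * (1 + Φ (v s)) + ‖P n ψ - ψ‖ * ‖g (v s)‖) =
          Real.exp (κ * s) * (C₂ * 1) + C₂ * (Real.exp (κ * s) * Φ (v s)) +
            Real.exp (κ * s) * (‖P n ψ - ψ‖ * ‖g (v s)‖) := by ring
      rw [h6]
      linarith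
    · rw [intervalIntegral.integral_add (by simp)
        ((h.intervalIntegrable_integrand (left_mem_Icc.mpr hT) ht).const_mul C₂),
        intervalIntegral.integral_const, intervalIntegral.integral_const_mul]
      rw [B, smul_eq_mul]
      ring
  have hlim1 : Tendsto (fun n => ‖⟪ψ, P n (v t)⟫_ℂ - ⟪ψ, P n (v 0)⟫_ℂ‖) atTop
      (𝓝 ‖⟪ψ, v t⟫_ℂ - ⟪ψ, v 0⟫_ℂ‖) :=
    ((tendsto_const_nhds.inner (h.P_tendsto _)).sub
      (tendsto_const_nhds.inner (h.P_tendsto _))).norm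
  have hlim2 : Tendsto (fun n => C₁ * M * t + C₂ * (Real.exp (κ * t) * t + B κ Φ v t) +
        Real.exp (κ * T) * (‖P n ψ - ψ‖ * G) * t) atTop
      (𝓝 (C₁ * M * t + C₂ * (Real.exp (κ * t) * t + B κ Φ v t) +
        Real.exp (κ * T) * (‖ψ - ψ‖ * G) * t)) := by
    have h7 : Tendsto (fun n => ‖P n ψ - ψ‖) atTop (𝓝 ‖ψ - ψ‖) :=
      ((h.P_tendsto ψ).sub_const ψ).norm
    exact tendsto_const_nhds.add (((h7.mul_const G).const_mul _).mul_const t)
  have := le_of_tendsto_of_tendsto' hlim1 hlim2 key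
  simpa using this

/-- The third integrated inequality: the energy drops at least as much as the accumulated potential
energy. -/
lemma eventually_en_ge (h : IsBlowupPath z α κ T D F₀ p₀ C₁ C₂ φ₀ L ψ P A Φ g v)
    (hz : 0 < z.re) (hz1 : ‖z‖ = 1) (hκ : 0 < κ) {ε : ℝ} (hε : 0 < ε) :
    ∀ᶠ n in atTop, ∀ t ∈ Icc 0 T, -(D / 2) + κ * B κ Φ v t - ε ≤ en κ P A Φ v n t := by
  obtain ⟨G, hG0, hG⟩ := h.exists_bound_g
  have hL := h.L_nonneg
  set K := Real.exp (κ * T) with hK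
  have hKpos : 0 < K := Real.exp_pos _
  -- the error rate
  set Err : ℝ → ℝ := fun δ => κ * K * (G * δ + L * δ ^ 2) + (K * (L * δ)) ^ 2 / (4 * z.re)
    with hErr
  have hErr_cont : Continuous Err := by
    rw [hErr]
    fun_prop
  have hErr0 : Err 0 = 0 := by simp [hErr]
  have hlim : Tendsto (fun δ => Err δ * T) (𝓝[>] 0) (𝓝 (Err 0 * T)) :=
    ((hErr_cont.mul continuous_const).tendsto 0).mono_left nhdsWithin_le_nhds
  rw [hErr0, zero_mul] at hlim
  obtain ⟨δ, hδT, hδ⟩ : ∃ δ, Err δ * T < ε ∧ 0 < δ :=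
    ((hlim.eventually (gt_mem_nhds hε)).and eventually_mem_nhdsWithin).exists
  filter_upwards [eventually_uniform h.P_norm h.P_tendsto h.v_cont hδ] with n hn t ht
  have hErr_nonneg : 0 ≤ Err δ := by
    rw [hErr]; positivity
  have hcomp := sub_le_of_deriv_le (f := fun s => κ * B κ Φ v s - Err δ * s)
    (q := en κ P A Φ v n) (a := 0) (b := T)
    (f' := fun s => κ * (Real.exp (κ * s) * Φ (v s)) - Err δ)
    (q' := fun t => z.re * ‖vel z κ P A g v n t‖ ^ 2 + κ * Real.exp (κ * t) * Φ (P n (v t)) +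
        Real.exp (κ * t) * (⟪g (P n (v t)) - g (v t), vel z κ P A g v n t⟫_ℂ).re)
    ((continuousOn_const.mul h.continuousOn_B).sub (by fun_prop))
    (h.continuousOn_en n)
    (fun s hs => by
      have h1 := (h.hasDerivAt_B hs).const_mul κ
      have h2 := (hasDerivAt_id s).const_mul (Err δ)
      exact (h1.sub h2).congr_deriv (by simp))
    (fun s hs => h.hasDerivAt_en hz1 n hs) ?_ ht
  · have h3 := h.en_zero n
    have h4 : Err δ * t ≤ Err δ * T := by
      gcongr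
      exact ht.2
    simp only [B_zero, mul_zero, sub_zero] at hcomp
    linarith
  · intro s hs
    have hs' := Ioo_subset_Icc_self hs
    set Y := ‖vel z κ P A g v n s‖ with hY
    have hk : Real.exp (κ * s) ≤ K := by
      rw [hK]; gcongr; exact hs.2.le
    have h5 : Φ (v s) - (G * δ + L * δ ^ 2) ≤ Φ (P n (v s)) := by
      have h6 := h.abs_Φ_sub_le (v s) (P n (v s))
      have h7 : ‖g (v s)‖ * ‖P n (v s) - v s‖ + L * ‖P n (v s) - v s‖ ^ 2 ≤
          G * δ + L * δ ^ 2 := by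
        gcongr
        · exact hG s hs'
        · exact hn s hs'
        · exact hn s hs'
      have h8 := (abs_le.mp (h6.trans h7)).1
      linarith
    have h9 : -(K * (L * δ) * Y) ≤
        Real.exp (κ * s) * (⟪g (P n (v s)) - g (v s), vel z κ P A g v n s⟫_ℂ).re := by
      have h10 : |(⟪g (P n (v s)) - g (v s), vel z κ P A g v n s⟫_ℂ).re| ≤ L * δ * Y := by
        refine (Complex.abs_re_le_norm _).trans ((norm_inner_le_norm _ _).trans ?_)
        gcongr
        exact (h.g_lip _ _).trans (by gcongr; exact hn s hs')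
      have h11 := (abs_le.mp h10).1
      have h12 : Real.exp (κ * s) * (-(L * δ * Y)) ≤ Real.exp (κ * s) *
          (⟪g (P n (v s)) - g (v s), vel z κ P A g v n s⟫_ℂ).re := by gcongr
      have h13 : Real.exp (κ * s) * (L * δ * Y) ≤ K * (L * δ * Y) := by
        gcongr
      linarith
    have h14 : κ * Real.exp (κ * s) * (Φ (v s) - (G * δ + L * δ ^ 2)) ≤
        κ * Real.exp (κ * s) * Φ (P n (v s)) := by
      gcongr
    have h15 : κ * Real.exp (κ * s) * (G * δ + L * δ ^ 2) ≤ κ * K * (G * δ + L * δ ^ 2) := by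
      gcongr
    have h16 : 0 ≤ z.re * Y ^ 2 - K * (L * δ) * Y + (K * (L * δ)) ^ 2 / (4 * z.re) := by
      have : z.re * Y ^ 2 - K * (L * δ) * Y + (K * (L * δ)) ^ 2 / (4 * z.re) =
          z.re * (Y - K * (L * δ) / (2 * z.re)) ^ 2 := by
        field_simp
        ring
      rw [this]
      positivity
    simp only [hErr]
    linarith

end IsBlowupPath

end Pool.Agent.Lib.MP_b98ad5_an
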