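import Pool.Agent.Lib.MP_b98ad5_an.Abstract3

set_option autoImplicit false

open scoped InnerProductSpace Topology
open Set Filter MeasureTheory

namespace Pool.Agent.Lib.MP_b98ad5_an

variable {H : Type*} [NormedAddCommGroup H] [InnerProductSpace ℂ H]

/-- The pointwise inequality behind the concavity argument. -/
lemma phase2_algebra {c α η e f F I Y f' e' es : ℝ} (hc : 0 < c) (hα : 0 < α) (hη : 0 ≤ η)
    (hηc : η ≤ c) (hes : 0 < es) (he : es ≤ e) (hf0 : 0 ≤ f) (hF : f ≤ F)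
    (hI : (α + 2) * e ≤ I) (hYI : (I - η) ^ 2 ≤ f * Y ^ 2)
    (hf' : f' ≤ 2 * c * I + 2 * η) (he' : c * Y ^ 2 - η * Y ≤ e')
    (hη2 : η * (1 / 2 + (2 * c + 1) / ((α + 2) * es) + F / (2 * ((α + 2) * es) ^ 2)) ≤
      c * α / (2 * (α + 2))) :
    f' * e - f * e' ≤ -(c * α * (α + 2) / 2) * e ^ 2 := by
  have hα2 : 0 < α + 2 := by linarith
  set Is := (α + 2) * es with hIs
  have hIspos : 0 < Is := by positivity
  have hepos : 0 < e := hes.trans_le he
  have hII : Is ≤ I := le_trans (by rw [hIs]; gcongr) hI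
  have hIpos : 0 < I := hIspos.trans_le hII
  have hFpos : 0 ≤ F := hf0.trans hF
  -- lower bound for `f e'`
  have h1 : f * Y ≤ (F + f * Y ^ 2) / 2 := by
    nlinarith [sq_nonneg (Y - 1), mul_nonneg hf0 (sq_nonneg (Y - 1))]
  have h2 : f * (c * Y ^ 2 - η * Y) ≤ f * e' := by gcongr
  have h3 : (c - η / 2) * (I - η) ^ 2 - η * F / 2 ≤ f * e' := by
    have h4 : (c - η / 2) * (I - η) ^ 2 ≤ (c - η / 2) * (f * Y ^ 2) := by
      apply mul_le_mul_of_nonneg_left hYI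
      linarith
    have h5 : η * (f * Y) ≤ η * ((F + f * Y ^ 2) / 2) := by gcongr
    nlinarith
  -- upper bound for `f' e`
  have he_le : e ≤ I / (α + 2) := by
    rw [le_div_iff₀ hα2]; linarith
  have h6 : f' * e ≤ (2 * c * I + 2 * η) * (I / (α + 2)) := by
    calc f' * e ≤ (2 * c * I + 2 * η) * e := by gcongr
      _ ≤ (2 * c * I + 2 * η) * (I / (α + 2)) := by gcongr
  have h7 : (c - η / 2) * (I - η) ^ 2 ≥ c * I ^ 2 - η / 2 * I ^ 2 - 2 * c * η * I := by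
    have : (c - η / 2) * (I - η) ^ 2 - (c * I ^ 2 - η / 2 * I ^ 2 - 2 * c * η * I) =
        η ^ 2 * I + (c - η / 2) * η ^ 2 := by ring
    have h8 : 0 ≤ η ^ 2 * I + (c - η / 2) * η ^ 2 := by
      have : 0 ≤ c - η / 2 := by linarith
      positivity
    linarith
  have h9 : 2 * η * (I / (α + 2)) ≤ η * I := by
    have : I / (α + 2) ≤ I / 2 := by
      apply div_le_div_of_nonneg_left hIpos.le (by norm_num) (by linarith)
    nlinarith
  have h10 : f' * e - f * e' ≤ -(c * α / (α + 2)) * I ^ 2 +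
      η * (1 / 2 * I ^ 2 + (2 * c + 1) * I + F / 2) := by
    have h11 : (2 * c * I + 2 * η) * (I / (α + 2)) =
        2 * c / (α + 2) * I ^ 2 + 2 * η * (I / (α + 2)) := by
      field_simp
    have h12 : c * α / (α + 2) = c - 2 * c / (α + 2) := by
      field_simp; ring
    rw [h12]
    rw [h11] at h6
    linarith
  have h13 : 1 / 2 * I ^ 2 + (2 * c + 1) * I + F / 2 ≤
      (1 / 2 + (2 * c + 1) / Is + F / (2 * Is ^ 2)) * I ^ 2 := by
    have h14 : I ≤ I ^ 2 / Is := by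
      rw [le_div_iff₀ hIspos]; nlinarith
    have h15 : 1 ≤ I ^ 2 / Is ^ 2 := by
      rw [le_div_iff₀ (by positivity)]
      nlinarith
    have h16 : (2 * c + 1) * I ≤ (2 * c + 1) * (I ^ 2 / Is) := by gcongr
    have h17 : F / 2 * 1 ≤ F / 2 * (I ^ 2 / Is ^ 2) := by gcongr
    calc 1 / 2 * I ^ 2 + (2 * c + 1) * I + F / 2
        ≤ 1 / 2 * I ^ 2 + (2 * c + 1) * (I ^ 2 / Is) + F / 2 * (I ^ 2 / Is ^ 2) := by linarith
      _ = _ := by field_simp
  have h18 : η * (1 / 2 * I ^ 2 + (2 * c + 1) * I + F / 2) ≤ c * α / (2 * (α + 2)) * I ^ 2 := by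
    calc η * (1 / 2 * I ^ 2 + (2 * c + 1) * I + F / 2)
        ≤ η * ((1 / 2 + (2 * c + 1) / Is + F / (2 * Is ^ 2)) * I ^ 2) := by gcongr
      _ = (η * (1 / 2 + (2 * c + 1) / Is + F / (2 * Is ^ 2))) * I ^ 2 := by ring
      _ ≤ c * α / (2 * (α + 2)) * I ^ 2 := by gcongr
  have h19 : f' * e - f * e' ≤ -(c * α / (2 * (α + 2))) * I ^ 2 := by
    have : c * α / (α + 2) = 2 * (c * α / (2 * (α + 2))) := by
      field_simp
    rw [this] at h10
    linarith
  have h20 : ((α + 2) * e) ^ 2 ≤ I ^ 2 := by gcongr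
  have h21 : c * α / (2 * (α + 2)) * ((α + 2) * e) ^ 2 ≤ c * α / (2 * (α + 2)) * I ^ 2 := by
    gcongr
  have h22 : c * α / (2 * (α + 2)) * ((α + 2) * e) ^ 2 = (c * α * (α + 2) / 2) * e ^ 2 := by
    field_simp
  linarith

namespace IsBlowupPath

variable {z : ℂ} {α κ T D F₀ p₀ C₁ C₂ φ₀ L : ℝ} {ψ : H} {P A : ℕ → H →L[ℂ] H}
    {Φ : H → ℝ} {g : H → H} {v : ℝ → H}

/-- Phase 1: the accumulated potential energy becomes large in a short time. -/
lemma phase1 (h : IsBlowupPath z α κ T D F₀ p₀ C₁ C₂ φ₀ L ψ P A Φ g v)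
    (hz : 0 < z.re) (hz1 : ‖z‖ = 1) (hα : 0 < α) (hκ : 0 < κ) (hφ₀ : 0 < φ₀) {b Λ : ℝ}
    (hF₀ : 0 ≤ F₀) (hΛ : 0 < Λ) (hΛb : b ≤ φ₀ * (Real.exp Λ - 1))
    (hκ1 : 2 * z.re * (α + 2) * b ≤ κ)
    (hκ2 : C₁ * (F₀ + 1) * Λ + C₂ * (Real.exp Λ * Λ + b) ≤ κ * (p₀ / 2))
    (hT : Λ / κ ≤ T) : b ≤ κ * B κ Φ v (Λ / κ) := by
  by_contra hcon
  push Not at hcon
  set t₁ := Λ / κ with ht₁
  have ht₁pos : 0 < t₁ := by positivity
  have hκt₁ : κ * t₁ = Λ := by rw [ht₁]; field_simp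
  have hT0 : 0 ≤ T := ht₁pos.le.trans hT
  have ht₁mem : t₁ ∈ Icc 0 T := ⟨ht₁pos.le, hT⟩
  have hsub : Icc 0 t₁ ⊆ Icc 0 T := Icc_subset_Icc_right hT
  have hC₁ := h.C₁_nonneg
  have hC₂ := h.C₂_nonneg hT0
  have hBt₁ : B κ Φ v t₁ ≤ b / κ := by
    rw [le_div_iff₀ hκ, mul_comm]; exact hcon.le
  have hBs : ∀ s ∈ Icc 0 t₁, B κ Φ v s ≤ b / κ := fun s hs =>
    (h.B_mono (hsub hs) ht₁mem hs.2).trans hBt₁
  have hv : ∀ s ∈ Icc 0 t₁, ‖v s‖ ≤ F₀ + 1 := by
    intro s hs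
    have h1 := h.normSq_le hz hz1 hκ (hsub hs)
    have h2 : 2 * z.re * (α + 2) * B κ Φ v s ≤ 1 := by
      calc 2 * z.re * (α + 2) * B κ Φ v s ≤ 2 * z.re * (α + 2) * (b / κ) := by
            gcongr; exact hBs s hs
        _ = (2 * z.re * (α + 2) * b) / κ := by ring
        _ ≤ 1 := by rw [div_le_one hκ]; exact hκ1
    nlinarith [norm_nonneg (v s)]
  have hlow : ∀ s ∈ Icc 0 t₁, φ₀ ≤ Φ (v s) := by
    intro s hs
    apply h.low s (hsub hs)
    have h3 := h.psi_le hz1 hκ (hsub hs) (M := F₀ + 1)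
      (fun r hr => hv r ⟨hr.1, hr.2.trans hs.2⟩)
    have h4 : C₁ * (F₀ + 1) * s + C₂ * (Real.exp (κ * s) * s + B κ Φ v s) ≤ p₀ / 2 := by
      have h5 : κ * s ≤ Λ := by
        calc κ * s ≤ κ * t₁ := by gcongr; exact hs.2
          _ = Λ := hκt₁
      calc C₁ * (F₀ + 1) * s + C₂ * (Real.exp (κ * s) * s + B κ Φ v s)
          ≤ C₁ * (F₀ + 1) * t₁ + C₂ * (Real.exp Λ * t₁ + b / κ) := by
            gcongr
            · exact hs.2
            · exact hs.1
            · exact hs.2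
            · exact hBs s hs
        _ = (C₁ * (F₀ + 1) * Λ + C₂ * (Real.exp Λ * Λ + b)) / κ := by
            rw [ht₁]; field_simp
        _ ≤ p₀ / 2 := by
            rw [div_le_iff₀ hκ]; linarith
    have h6 := h.init_p
    have h7 : ‖⟪ψ, v 0⟫_ℂ‖ ≤ ‖⟪ψ, v s⟫_ℂ‖ + ‖⟪ψ, v s⟫_ℂ - ⟪ψ, v 0⟫_ℂ‖ := by
      have := norm_sub_norm_le ⟪ψ, v 0⟫_ℂ ⟪ψ, v s⟫_ℂ
      rw [norm_sub_rev] at this
      linarith
    linarith
  have hint : φ₀ * ((Real.exp (κ * t₁) - 1) / κ) ≤ B κ Φ v t₁ := by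
    have h8 : ∫ s in (0 : ℝ)..t₁, Real.exp (κ * s) * φ₀ ≤ B κ Φ v t₁ := by
      apply intervalIntegral.integral_mono_on ht₁pos.le
      · apply Continuous.intervalIntegrable
        fun_prop
      · exact h.intervalIntegrable_integrand (left_mem_Icc.mpr hT0) ht₁mem
      · intro s hs
        gcongr
        exact hlow s hs
    have h9 : ∫ s in (0 : ℝ)..t₁, Real.exp (κ * s) * φ₀ = φ₀ * ((Real.exp (κ * t₁) - 1) / κ) := by
      rw [intervalIntegral.integral_mul_const]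
      have h10 : ∫ s in (0 : ℝ)..t₁, Real.exp (κ * s) = (Real.exp (κ * t₁) - 1) / κ := by
        have h11 : ∀ s ∈ uIcc 0 t₁, HasDerivAt (fun s : ℝ => Real.exp (κ * s) / κ)
            (Real.exp (κ * s)) s := by
          intro s _
          have := (((hasDerivAt_id s).const_mul κ).exp).div_const κ
          refine this.congr_deriv ?_
          simp
          field_simp
        rw [intervalIntegral.integral_eq_sub_of_hasDerivAt h11]
        · simp; ring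
        · apply Continuous.intervalIntegrable
          fun_prop
      rw [h10]; ring
    rw [← h9]; exact h8
  rw [hκt₁] at hint
  have : b ≤ κ * B κ Φ v t₁ := by
    calc b ≤ φ₀ * (Real.exp Λ - 1) := hΛb
      _ = κ * (φ₀ * ((Real.exp Λ - 1) / κ)) := by field_simp
      _ ≤ κ * B κ Φ v t₁ := by gcongr
  linarith

/-- Phase 2: once the energy is negative the quotient norm/energy decreases linearly. -/
lemma phase2 (h : IsBlowupPath z α κ T D F₀ p₀ C₁ C₂ φ₀ L ψ P A Φ g v)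
    (hz : 0 < z.re) (hz1 : ‖z‖ = 1) (hα : 0 < α) (hκ : 0 < κ) (hD : 0 ≤ D) (hF₀ : 0 ≤ F₀)
    {t₁ : ℝ} (ht₁ : t₁ ∈ Icc 0 T) (hB : D / 2 + 1 ≤ κ * B κ Φ v t₁) :
    T - t₁ ≤ (4 / 3 * F₀ + 8 / 3 * z.re * (α + 2) * (D / 2 + 1) / κ) /
      (z.re * α * (α + 2) / 2) := by
  obtain ⟨G, hG0, hG⟩ := h.exists_bound_g
  obtain ⟨V, hV0, hV⟩ := h.exists_bound_v
  have hL := h.L_nonneg
  have hT : 0 ≤ T := ht₁.1.trans ht₁.2
  set c := z.re with hc
  set K := Real.exp (κ * T) with hK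
  have hKpos : 0 < K := Real.exp_pos _
  set F := V ^ 2 with hF
  set m := c * α * (α + 2) / 2 with hm
  have hmpos : 0 < m := by positivity
  -- the admissible error size
  set Q := 1 / 2 + (2 * c + 1) / ((α + 2) * (1 / 2)) + F / (2 * ((α + 2) * (1 / 2)) ^ 2) with hQ
  have hQpos : 0 < Q := by positivity
  set ηs := min (min c ((α + 2) * (1 / 2))) (c * α / (2 * (α + 2)) / Q) with hηs
  have hηspos : 0 < ηs := by
    rw [hηs]; positivity
  set Err : ℝ → ℝ := fun δ => K * (δ * G + (α + 2) * (G * δ + L * δ ^ 2)) + K * (L * δ) with hErr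
  have hErr_cont : Continuous Err := by rw [hErr]; fun_prop
  have hErr0 : Err 0 = 0 := by simp [hErr]
  have hlim : Tendsto Err (𝓝[>] 0) (𝓝 (Err 0)) :=
    (hErr_cont.tendsto 0).mono_left nhdsWithin_le_nhds
  rw [hErr0] at hlim
  obtain ⟨δ, hδη, hδ⟩ : ∃ δ, Err δ < ηs ∧ 0 < δ :=
    ((hlim.eventually (gt_mem_nhds hηspos)).and eventually_mem_nhdsWithin).exists
  set η := Err δ with hη
  have hη0 : 0 ≤ η := by rw [hη, hErr]; positivity
  obtain ⟨n, hn, hen⟩ := ((eventually_uniform h.P_norm h.P_tendsto h.v_cont hδ).and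
    (h.eventually_en_ge hz hz1 hκ (ε := 1 / 4) (by norm_num))).exists
  have hαpos : 0 < α + 2 := by linarith
  -- lower bound for the energy after `t₁`
  have he_low : ∀ s ∈ Icc t₁ T, 1 / 2 ≤ en κ P A Φ v n s := by
    intro s hs
    have hs' : s ∈ Icc 0 T := ⟨ht₁.1.trans hs.1, hs.2⟩
    have h1 := hen s hs'
    have h2 := h.B_mono ht₁ hs' hs.1
    have h3 : κ * B κ Φ v t₁ ≤ κ * B κ Φ v s := by gcongr
    linarith
  have he_pos : ∀ s ∈ Icc t₁ T, 0 < en κ P A Φ v n s := fun s hs =>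
    lt_of_lt_of_le (by norm_num) (he_low s hs)
  have hsub : Icc t₁ T ⊆ Icc 0 T := Icc_subset_Icc_left ht₁.1
  -- the quotient decreases
  have hcomp := sub_le_of_deriv_le
    (f := fun s => ‖P n (v s)‖ ^ 2 / en κ P A Φ v n s) (q := fun s => -m * s) (a := t₁) (b := T)
    (f' := fun s => ((2 * (z * (-(((⟪A n (P n (v s)), P n (v s)⟫_ℂ).re : ℝ) : ℂ) +
        (Real.exp (κ * s) : ℝ) * ⟪P n (v s), g (v s)⟫_ℂ)).re) * en κ P A Φ v n s -
        ‖P n (v s)‖ ^ 2 * (z.re * ‖vel z κ P A g v n s‖ ^ 2 +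
          κ * Real.exp (κ * s) * Φ (P n (v s)) +
        Real.exp (κ * s) * (⟪g (P n (v s)) - g (v s), vel z κ P A g v n s⟫_ℂ).re)) /
        en κ P A Φ v n s ^ 2) (q' := fun _ => -m)
    ((((h.continuousOn_level n).mono hsub).norm.pow 2).div ((h.continuousOn_en n).mono hsub)
      (fun s hs => (he_pos s hs).ne'))
    (by fun_prop)
    (fun s hs => (h.hasDerivAt_normSq n ⟨ht₁.1.trans_lt hs.1, hs.2⟩).div
      (h.hasDerivAt_en hz1 n ⟨ht₁.1.trans_lt hs.1, hs.2⟩)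
      (he_pos s (Ioo_subset_Icc_self hs)).ne')
    (fun s hs => by
      exact ((hasDerivAt_id s).const_mul (-m)).congr_deriv (by simp))
    ?_ (right_mem_Icc.mpr ht₁.2)
  · -- conclusion from monotonicity
    have h4 : 0 ≤ ‖P n (v T)‖ ^ 2 / en κ P A Φ v n T :=
      div_nonneg (by positivity) (he_pos T (right_mem_Icc.mpr ht₁.2)).le
    have h5 : ‖P n (v t₁)‖ ^ 2 / en κ P A Φ v n t₁ ≤
        4 / 3 * F₀ + 8 / 3 * c * (α + 2) * (D / 2 + 1) / κ := by
      set b := κ * B κ Φ v t₁ with hb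
      set b₀ := D / 2 + 1 with hb₀
      have hb₀pos : 1 ≤ b₀ := by rw [hb₀]; linarith
      have hbpos : 0 < b := by linarith
      have h6 : ‖P n (v t₁)‖ ^ 2 ≤ F₀ + 2 * c * (α + 2) * b / κ := by
        have h7 := h.normSq_le hz hz1 hκ ht₁
        have h8 : ‖P n (v t₁)‖ ^ 2 ≤ ‖v t₁‖ ^ 2 := by
          gcongr; exact h.P_norm n _
        have h9 : 2 * c * (α + 2) * b / κ = 2 * c * (α + 2) * B κ Φ v t₁ := by
          rw [hb]; field_simp
        rw [h9]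
        exact h8.trans h7
      have h10 : 3 / 4 * (b / b₀) ≤ en κ P A Φ v n t₁ := by
        have h11 := hen t₁ ht₁
        have h12 : 3 / 4 * (b / b₀) ≤ b - b₀ + 3 / 4 := by
          have h13 : b / b₀ = 1 + (b - b₀) / b₀ := by field_simp; ring
          have h14 : (b - b₀) / b₀ ≤ b - b₀ := by
            apply div_le_self (by linarith) hb₀pos
          rw [h13]
          nlinarith
        have h15 : b - b₀ + 3 / 4 = -(D / 2) + b - 1 / 4 := by rw [hb₀]; ring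
        linarith
      have h16 : 3 / 4 ≤ en κ P A Φ v n t₁ := by
        have : 1 ≤ b / b₀ := by rw [le_div_iff₀ (by linarith)]; linarith
        linarith
      rw [div_le_iff₀ (he_pos t₁ (left_mem_Icc.mpr ht₁.2))]
      calc ‖P n (v t₁)‖ ^ 2 ≤ F₀ + 2 * c * (α + 2) * b / κ := h6
        _ = 4 / 3 * F₀ * (3 / 4) + 8 / 3 * c * (α + 2) * b₀ / κ * (3 / 4 * (b / b₀)) := by
            field_simp; ring
        _ ≤ 4 / 3 * F₀ * en κ P A Φ v n t₁ +
            8 / 3 * c * (α + 2) * b₀ / κ * en κ P A Φ v n t₁ := by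
            gcongr
        _ = _ := by ring
    rw [le_div_iff₀ hmpos]
    have h17 : -m * T - -m * t₁ = -(m * (T - t₁)) := by ring
    simp only [h17] at hcomp
    linarith
  · -- the pointwise inequality
    intro s hs
    have hs1 : s ∈ Icc t₁ T := Ioo_subset_Icc_self hs
    have hs' : s ∈ Icc 0 T := hsub hs1
    set x := P n (v s) with hx
    set y := vel z κ P A g v n s with hy
    set k := Real.exp (κ * s) with hk
    set a := (⟪A n x, x⟫_ℂ).re with ha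
    have hkpos : 0 < k := Real.exp_pos _
    have hkK : k ≤ K := by rw [hk, hK]; gcongr; exact hs'.2
    have hxP : P n x = x := h.P_idem' n (v s)
    have hxy : ⟪x, y⟫_ℂ = z * (-((a : ℝ) : ℂ) + k * ⟪x, g (v s)⟫_ℂ) :=
      inner_x_y (h.level n) hxP k
    set r : ℂ := k * ⟪x, g (v s)⟫_ℂ - (((α + 2) * k * Φ x : ℝ) : ℂ) with hr
    set I := (α + 2) * k * Φ x - a with hI
    have hxy2 : ⟪x, y⟫_ℂ = z * ((I : ℝ) + r) := by
      rw [hxy, hr, hI]; push_cast; ring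
    -- size of the error `r`
    have hrη : ‖r‖ ≤ K * (δ * G + (α + 2) * (G * δ + L * δ ^ 2)) := by
      have h1 : r = k * (⟪x - v s, g (v s)⟫_ℂ + (((α + 2) * (Φ (v s) - Φ x) : ℝ) : ℂ)) := by
        rw [hr, inner_sub_left, h.euler s hs']
        push_cast; ring
      rw [h1, norm_mul, Complex.norm_real, Real.norm_of_nonneg hkpos.le]
      have h2 : ‖⟪x - v s, g (v s)⟫_ℂ‖ ≤ δ * G :=
        (norm_inner_le_norm _ _).trans (by gcongr; exacts [hn s hs', hG s hs'])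
      have h3 : ‖(((α + 2) * (Φ (v s) - Φ x) : ℝ) : ℂ)‖ ≤ (α + 2) * (G * δ + L * δ ^ 2) := by
        rw [Complex.norm_real, norm_mul, Real.norm_of_nonneg hαpos.le]
        gcongr
        rw [Real.norm_eq_abs, abs_sub_comm]
        refine (h.abs_Φ_sub_le (v s) x).trans ?_
        gcongr
        · exact hG s hs'
        · exact hn s hs'
        · exact hn s hs'
      have h4 : ‖⟪x - v s, g (v s)⟫_ℂ + (((α + 2) * (Φ (v s) - Φ x) : ℝ) : ℂ)‖ ≤
          δ * G + (α + 2) * (G * δ + L * δ ^ 2) := (norm_add_le _ _).trans (add_le_add h2 h3)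
      gcongr
    have hrη' : ‖r‖ ≤ η := by
      refine hrη.trans ?_
      rw [hη, hErr]
      have : 0 ≤ K * (L * δ) := by positivity
      linarith
    have hLη : K * (L * δ) ≤ η := by
      rw [hη, hErr]
      have : 0 ≤ K * (δ * G + (α + 2) * (G * δ + L * δ ^ 2)) := by positivity
      linarith
    have ha0 : 0 ≤ a := (h.level n).A_nonneg x
    have hen_eq : en κ P A Φ v n s = k * Φ x - 1 / 2 * a := rfl
    have hIe : (α + 2) * en κ P A Φ v n s ≤ I := by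
      rw [hen_eq, hI]
      have h1 : 0 ≤ α * a := mul_nonneg hα.le ha0
      have h2 : (α + 2) * (k * Φ x - 1 / 2 * a) = (α + 2) * k * Φ x - a - α * a / 2 := by ring
      rw [h2]
      linarith only [h1]
    have hηη : η ≤ ηs := hδη.le
    have hIη : η ≤ I := by
      have h1 : (α + 2) * (1 / 2) ≤ (α + 2) * en κ P A Φ v n s := by
        gcongr; exact he_low s hs1
      have h2 : ηs ≤ (α + 2) * (1 / 2) := (min_le_left _ _).trans (min_le_right _ _)
      linarith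
    have hYI : (I - η) ^ 2 ≤ ‖x‖ ^ 2 * ‖y‖ ^ 2 := by
      have h1 : I - η ≤ ‖⟪x, y⟫_ℂ‖ := by
        rw [hxy2, norm_mul, hz1, one_mul]
        have h2 : I - ‖r‖ ≤ ‖((I : ℝ) : ℂ) + r‖ := by
          have h3 := norm_sub_le (((I : ℝ) : ℂ) + r) r
          rw [add_sub_cancel_right, Complex.norm_real, Real.norm_eq_abs] at h3
          have h4 := le_abs_self I
          linarith
        linarith
      have h5 : ‖⟪x, y⟫_ℂ‖ ≤ ‖x‖ * ‖y‖ := norm_inner_le_norm _ _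
      have h6 : (I - η) ^ 2 ≤ (‖x‖ * ‖y‖) ^ 2 := by
        apply pow_le_pow_left₀ (by linarith) (h1.trans h5)
      linarith [mul_pow ‖x‖ ‖y‖ 2]
    have hf' : 2 * (z * (-((a : ℝ) : ℂ) + k * ⟪x, g (v s)⟫_ℂ)).re ≤ 2 * c * I + 2 * η := by
      rw [← hxy, hxy2]
      have h1 : (z * (((I : ℝ) : ℂ) + r)).re = c * I + (z * r).re := by
        rw [mul_add, Complex.add_re, Complex.re_mul_ofReal]
      have h2 : (z * r).re ≤ η := by
        refine (Complex.re_le_norm _).trans ?_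
        rw [norm_mul, hz1, one_mul]; exact hrη'
      rw [h1]; linarith
    have he' : c * ‖y‖ ^ 2 - η * ‖y‖ ≤ z.re * ‖y‖ ^ 2 + κ * k * Φ x +
        k * (⟪g x - g (v s), y⟫_ℂ).re := by
      have h1 : |(⟪g x - g (v s), y⟫_ℂ).re| ≤ L * δ * ‖y‖ := by
        refine (Complex.abs_re_le_norm _).trans ((norm_inner_le_norm _ _).trans ?_)
        gcongr
        exact (h.g_lip _ _).trans (by gcongr; exact hn s hs')
      have h2 := (abs_le.mp h1).1
      have h3 : k * (-(L * δ * ‖y‖)) ≤ k * (⟪g x - g (v s), y⟫_ℂ).re := by gcongr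
      have h4 : k * (L * δ * ‖y‖) ≤ K * (L * δ * ‖y‖) := by gcongr
      have h5 : K * (L * δ) * ‖y‖ ≤ η * ‖y‖ := by gcongr
      have h6 : 0 ≤ κ * k * Φ x := by
        have := h.Φ_nonneg x
        positivity
      linarith
    have halg := phase2_algebra (c := c) (α := α) (η := η) (e := en κ P A Φ v n s)
      (f := ‖x‖ ^ 2) (F := F) (I := I) (Y := ‖y‖)
      (f' := 2 * (z * (-((a : ℝ) : ℂ) + k * ⟪x, g (v s)⟫_ℂ)).re)
      (e' := z.re * ‖y‖ ^ 2 + κ * k * Φ x + k * (⟪g x - g (v s), y⟫_ℂ).re) (es := 1 / 2)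
      hz hα hη0 (hηη.trans ((min_le_left _ _).trans (min_le_left _ _))) (by norm_num)
      (he_low s hs1) (by positivity)
      (by
        rw [hF]
        gcongr
        exact (h.P_norm n _).trans (hV s hs'))
      hIe hYI hf' he'
      (by
        have h1 : η ≤ c * α / (2 * (α + 2)) / Q := hηη.trans (min_le_right _ _)
        rwa [le_div_iff₀ hQpos] at h1)
    have hepos := he_pos s hs1
    rw [div_le_iff₀ (by positivity)]
    calc _ ≤ -(c * α * (α + 2) / 2) * en κ P A Φ v n s ^ 2 := halg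
      _ = _ := by rw [hm]

end IsBlowupPath

/-- **Abstract blow-up theorem.** For `κ` large the existence time of any admissible path is bounded
by a number that depends only on the data. -/
theorem blowup_bound {z : ℂ} (hz : 0 < z.re) (hz1 : ‖z‖ = 1) {α : ℝ} (hα : 0 < α)
    {D F₀ p₀ C₁ C₂ φ₀ : ℝ} (hD : 0 ≤ D) (hF₀ : 0 ≤ F₀) (hp₀ : 0 < p₀) (hφ₀ : 0 < φ₀) :
    ∃ κ₀ > 0, ∀ κ ≥ κ₀, ∃ Tm : ℝ, ∀ (T L : ℝ) (ψ : H) (P A : ℕ → H →L[ℂ] H) (Φ : H → ℝ)
      (g : H → H) (v : ℝ → H),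
      IsBlowupPath z α κ T D F₀ p₀ C₁ C₂ φ₀ L ψ P A Φ g v → T ≤ Tm := by
  set b := D / 2 + 1 with hb
  have hbpos : 0 < b := by positivity
  set Λ := Real.log (1 + b / φ₀) with hΛ
  have hΛpos : 0 < Λ := Real.log_pos (by
    have : 0 < b / φ₀ := by positivity
    linarith)
  have hexpΛ : Real.exp Λ = 1 + b / φ₀ := Real.exp_log (by positivity)
  have hΛb : b ≤ φ₀ * (Real.exp Λ - 1) := by
    rw [hexpΛ]; field_simp; linarith
  set κ₀ := 1 + 2 * z.re * (α + 2) * b +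
    2 / p₀ * (|C₁| * (F₀ + 1) * Λ + |C₂| * (Real.exp Λ * Λ + b)) with hκ₀
  have hκ₀pos : 0 < κ₀ := by rw [hκ₀]; positivity
  refine ⟨κ₀, hκ₀pos, fun κ hκ => ⟨Λ / κ + (4 / 3 * F₀ +
    8 / 3 * z.re * (α + 2) * (D / 2 + 1) / κ) / (z.re * α * (α + 2) / 2), ?_⟩⟩
  have hκpos : 0 < κ := hκ₀pos.trans_le hκ
  intro T L ψ P A Φ g v h
  have hm : 0 ≤ (4 / 3 * F₀ + 8 / 3 * z.re * (α + 2) * (D / 2 + 1) / κ) /
      (z.re * α * (α + 2) / 2) := by positivity
  rcases lt_or_ge T (Λ / κ) with hT | hT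
  · linarith
  · have hΛκ : 0 < Λ / κ := by positivity
    have hT0 : 0 ≤ T := hΛκ.le.trans hT
    have hκ1 : 2 * z.re * (α + 2) * b ≤ κ := by
      refine le_trans ?_ hκ
      rw [hκ₀]
      have : 0 ≤ 2 / p₀ * (|C₁| * (F₀ + 1) * Λ + |C₂| * (Real.exp Λ * Λ + b)) := by positivity
      linarith
    have hκ2 : C₁ * (F₀ + 1) * Λ + C₂ * (Real.exp Λ * Λ + b) ≤ κ * (p₀ / 2) := by
      have h1 : 2 / p₀ * (|C₁| * (F₀ + 1) * Λ + |C₂| * (Real.exp Λ * Λ + b)) ≤ κ := by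
        refine le_trans ?_ hκ
        rw [hκ₀]
        have : 0 ≤ 2 * z.re * (α + 2) * b := by positivity
        linarith
      have h2 : C₁ * (F₀ + 1) * Λ + C₂ * (Real.exp Λ * Λ + b) ≤
          |C₁| * (F₀ + 1) * Λ + |C₂| * (Real.exp Λ * Λ + b) := by
        gcongr
        · exact le_abs_self _
        · exact le_abs_self _
      have h3 : |C₁| * (F₀ + 1) * Λ + |C₂| * (Real.exp Λ * Λ + b) =
          2 / p₀ * (|C₁| * (F₀ + 1) * Λ + |C₂| * (Real.exp Λ * Λ + b)) * (p₀ / 2) := by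
        field_simp
      calc _ ≤ |C₁| * (F₀ + 1) * Λ + |C₂| * (Real.exp Λ * Λ + b) := h2
        _ = 2 / p₀ * (|C₁| * (F₀ + 1) * Λ + |C₂| * (Real.exp Λ * Λ + b)) * (p₀ / 2) := h3
        _ ≤ κ * (p₀ / 2) := by gcongr
    have hB := h.phase1 hz hz1 hα hκpos hφ₀ hF₀ hΛpos hΛb hκ1 hκ2 hT
    have h2 := h.phase2 hz hz1 hα hκpos hD hF₀ ⟨hΛκ.le, hT⟩ hB
    linarith

end Pool.Agent.Lib.MP_b98ad5_an
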