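import Pool.Agent.Lib.MP_b98ad5_an.TempGrowth

set_option autoImplicit false
set_option linter.unusedSectionVars false

open scoped InnerProductSpace Topology ContDiff ZeroAtInfty
open Set Filter MeasureTheory

namespace Pool.Agent.Lib.MP_b98ad5_an

variable {E : Type*} [NormedAddCommGroup E] [InnerProductSpace ℝ E] [FiniteDimensional ℝ E]
  [MeasurableSpace E] [BorelSpace E]

lemma c0_norm_le {f : C₀(E, ℂ)} {C : ℝ} (hC : 0 ≤ C) : ‖f‖ ≤ C ↔ ∀ x, ‖f x‖ ≤ C := by
  rw [← ZeroAtInftyContinuousMap.norm_toBCF_eq_norm, BoundedContinuousFunction.norm_le hC]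
  rfl

lemma c0_apply_le (f : C₀(E, ℂ)) (x : E) : ‖f x‖ ≤ ‖f‖ :=
  (c0_norm_le (norm_nonneg f)).mp le_rfl x

/-- Evaluation at a point. -/
noncomputable def ev (x : E) : C₀(E, ℂ) →L[ℂ] ℂ :=
  LinearMap.mkContinuous
    { toFun := fun f => f x
      map_add' := fun f g => rfl
      map_smul' := fun c f => rfl } 1 (fun f => by
        rw [one_mul]; exact c0_apply_le f x)

lemma ev_apply (x : E) (f : C₀(E, ℂ)) : ev x f = f x := rfl

/-- Translation. -/
noncomputable def tr (h : E) (f : C₀(E, ℂ)) : C₀(E, ℂ) where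
  toFun x := f (x - h)
  continuous_toFun := (map_continuous f).comp (continuous_id.sub continuous_const)
  zero_at_infty' := by
    exact (f.zero_at_infty').comp (Homeomorph.subRight h).isClosedEmbedding.tendsto_cocompact

lemma tr_apply (h : E) (f : C₀(E, ℂ)) (x : E) : tr h f x = f (x - h) := rfl

lemma tr_norm_le (h : E) (f : C₀(E, ℂ)) : ‖tr h f‖ ≤ ‖f‖ :=
  (c0_norm_le (norm_nonneg _)).mpr fun x => by rw [tr_apply]; exact c0_apply_le f _

lemma tr_add (h : E) (f g : C₀(E, ℂ)) : tr h (f + g) = tr h f + tr h g := rfl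

lemma tr_smul (h : E) (c : ℂ) (f : C₀(E, ℂ)) : tr h (c • f) = c • tr h f := rfl

lemma tr_zero (f : C₀(E, ℂ)) : tr 0 f = f := by
  ext x; rw [tr_apply, sub_zero]

lemma continuous_tr (f : C₀(E, ℂ)) : Continuous fun h => tr h f := by
  rw [Metric.continuous_iff]
  intro h ε hε
  have huc := ZeroAtInftyContinuousMap.uniformContinuous f
  rw [Metric.uniformContinuous_iff] at huc
  obtain ⟨δ, hδ, hd⟩ := huc (ε / 2) (by positivity)
  refine ⟨δ, hδ, fun h' hh => ?_⟩
  rw [dist_eq_norm]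
  refine lt_of_le_of_lt ((c0_norm_le (by positivity : (0 : ℝ) ≤ ε / 2)).mpr fun x => ?_)
    (by linarith)
  have h1 : dist (x - h') (x - h) < δ := by
    rw [dist_eq_norm] at hh ⊢
    have : x - h' - (x - h) = -(h' - h) := by abel
    rw [this, norm_neg]; exact hh
  have h2 := hd h1
  rw [dist_eq_norm] at h2
  exact h2.le

/-- The heat-type kernel at time one. -/
noncomputable def ker1 (z : ℂ) (y : E) : ℂ :=
  (4 * Real.pi * z) ^ (-((Module.finrank ℝ E : ℂ) / 2)) * Complex.exp (-(1 / (4 * z)) * ‖y‖ ^ 2)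

lemma re_b_pos {z : ℂ} (hz : 0 < z.re) : 0 < (1 / (4 * z)).re := by
  rw [one_div, Complex.inv_re]
  have h1 : (4 * z).re = 4 * z.re := by simp
  have h2 : 0 < Complex.normSq (4 * z) := by
    rw [Complex.normSq_pos]
    intro h
    rw [h] at h1
    simp only [Complex.zero_re] at h1
    linarith
  rw [h1]
  positivity

lemma continuous_ker1 (z : ℂ) : Continuous (ker1 z : E → ℂ) := by
  unfold ker1; fun_prop

lemma integrable_ker1 {z : ℂ} (hz : 0 < z.re) : Integrable (ker1 z : E → ℂ) := by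
  have h1 := GaussianFourier.integrable_cexp_neg_mul_sq_norm_add (V := E) (re_b_pos hz) 0 0
  simp only [zero_mul, add_zero] at h1
  exact h1.const_mul _

lemma z_ne {z : ℂ} (hz : 0 < z.re) : z ≠ 0 := by
  rintro rfl
  simp at hz

lemma four_pi_z_ne {z : ℂ} (hz : 0 < z.re) : (4 * Real.pi * z : ℂ) ≠ 0 := by
  have hpi : (Real.pi : ℂ) ≠ 0 := by exact_mod_cast Real.pi_ne_zero
  exact mul_ne_zero (mul_ne_zero (by norm_num) hpi) (z_ne hz)

lemma pref_mul {z : ℂ} (hz : 0 < z.re) :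
    (4 * Real.pi * z) ^ (-((Module.finrank ℝ E : ℂ) / 2)) *
      (Real.pi / (1 / (4 * z))) ^ ((Module.finrank ℝ E : ℂ) / 2) = 1 := by
  have h1 : (Real.pi : ℂ) / (1 / (4 * z)) = 4 * Real.pi * z := by
    have := z_ne hz
    field_simp
  have h2 : (4 * Real.pi * z : ℂ) ≠ 0 := four_pi_z_ne hz
  rw [h1, ← Complex.cpow_add _ _ h2, neg_add_cancel, Complex.cpow_zero]

lemma integral_ker1 {z : ℂ} (hz : 0 < z.re) : ∫ y : E, ker1 z y = 1 := by
  unfold ker1
  rw [integral_const_mul, GaussianFourier.integral_cexp_neg_mul_sq_norm (re_b_pos hz), pref_mul hz]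

/-- The Fourier transform of the kernel. -/
lemma integral_ker1_exp {z : ℂ} (hz : 0 < z.re) {t : ℝ} (ht : 0 ≤ t) (ξ : E) :
    ∫ y : E, ker1 z y * Complex.exp (-(2 * Real.pi * Complex.I * Real.sqrt t) * ⟪ξ, y⟫_ℝ) =
      hs z t ξ := by
  have h1 := GaussianFourier.integral_cexp_neg_mul_sq_norm_add (V := E) (re_b_pos hz)
    (-(2 * Real.pi * Complex.I * Real.sqrt t)) ξ
  have h2 : ∀ y : E, ker1 z y * Complex.exp (-(2 * Real.pi * Complex.I * Real.sqrt t) * ⟪ξ, y⟫_ℝ) =
      (4 * Real.pi * z) ^ (-((Module.finrank ℝ E : ℂ) / 2)) *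
        Complex.exp (-(1 / (4 * z)) * ‖y‖ ^ 2 +
          -(2 * Real.pi * Complex.I * Real.sqrt t) * ⟪ξ, y⟫_ℝ) := by
    intro y
    unfold ker1
    rw [mul_assoc, ← Complex.exp_add]
  simp_rw [h2]
  rw [integral_const_mul, h1, ← mul_assoc, pref_mul hz, one_mul]
  unfold hs sig
  congr 1
  have hz' := z_ne hz
  have hsq : ((Real.sqrt t : ℝ) : ℂ) ^ 2 = t := by
    rw [← Complex.ofReal_pow, Real.sq_sqrt ht]
  field_simp
  push_cast
  linear_combination (4 * (Real.pi : ℂ) ^ 2 * ((Real.sqrt t : ℝ) : ℂ) ^ 2 * (‖ξ‖ : ℂ) ^ 2) *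
    Complex.I_sq - (4 * (Real.pi : ℂ) ^ 2 * (‖ξ‖ : ℂ) ^ 2) * hsq

/-- The `L¹` norm of the kernel. -/
noncomputable def CK (E : Type*) [NormedAddCommGroup E] [InnerProductSpace ℝ E]
    [FiniteDimensional ℝ E] [MeasurableSpace E] [BorelSpace E] (z : ℂ) : ℝ :=
  ∫ y : E, ‖ker1 z y‖

lemma CK_nonneg (z : ℂ) : 0 ≤ CK E z := integral_nonneg fun _ => norm_nonneg _

lemma continuous_integrand (z : ℂ) (a : ℝ) (f : C₀(E, ℂ)) :
    Continuous fun y : E => ker1 z y • tr (a • y) f :=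
  (continuous_ker1 z).smul ((continuous_tr f).comp (continuous_const.smul continuous_id))

lemma integrable_integrand {z : ℂ} (hz : 0 < z.re) (a : ℝ) (f : C₀(E, ℂ)) :
    Integrable fun y : E => ker1 z y • tr (a • y) f := by
  refine ((integrable_ker1 hz).norm.mul_const ‖f‖).mono'
    (continuous_integrand z a f).aestronglyMeasurable (Eventually.of_forall fun y => ?_)
  rw [norm_smul]
  gcongr
  exact tr_norm_le _ _

/-- The semigroup on `C₀` as a function. -/
noncomputable def TCf (z : ℂ) (t : ℝ) (f : C₀(E, ℂ)) : C₀(E, ℂ) :=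
  ∫ y : E, ker1 z y • tr (Real.sqrt t • y) f

lemma TCf_norm_le {z : ℂ} (hz : 0 < z.re) (t : ℝ) (f : C₀(E, ℂ)) :
    ‖TCf z t f‖ ≤ CK E z * ‖f‖ := by
  unfold TCf CK
  rw [← integral_mul_const]
  refine norm_integral_le_of_norm_le ((integrable_ker1 hz).norm.mul_const _)
    (Eventually.of_forall fun y => ?_)
  rw [norm_smul]
  gcongr
  exact tr_norm_le _ _

open Classical in
/-- The semigroup on `C₀`. -/
noncomputable def TC (z : ℂ) (t : ℝ) : C₀(E, ℂ) →L[ℂ] C₀(E, ℂ) :=
  if hz : 0 < z.re then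
    LinearMap.mkContinuous
      { toFun := TCf z t
        map_add' := fun f g => by
          unfold TCf
          rw [← integral_add (integrable_integrand hz _ f) (integrable_integrand hz _ g)]
          congr 1
          ext1 y
          rw [tr_add]
          exact smul_add (ker1 z y) (tr (Real.sqrt t • y) f) (tr (Real.sqrt t • y) g)
        map_smul' := fun c f => by
          unfold TCf
          rw [RingHom.id_apply, ← integral_smul]
          congr 1
          ext1 y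
          rw [tr_smul, smul_comm] } (CK E z) (TCf_norm_le hz t)
  else 0

lemma TC_apply {z : ℂ} (hz : 0 < z.re) (t : ℝ) (f : C₀(E, ℂ)) : TC z t f = TCf z t f := by
  unfold TC
  rw [dif_pos hz]
  rfl

lemma TC_norm_le {z : ℂ} (hz : 0 < z.re) (t : ℝ) (f : C₀(E, ℂ)) :
    ‖TC z t f‖ ≤ CK E z * ‖f‖ := by
  rw [TC_apply hz]; exact TCf_norm_le hz t f

lemma TC_eval {z : ℂ} (hz : 0 < z.re) (t : ℝ) (f : C₀(E, ℂ)) (x : E) :
    TC z t f x = ∫ y : E, ker1 z y * f (x - Real.sqrt t • y) := by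
  rw [TC_apply hz, ← ev_apply, TCf, ← ContinuousLinearMap.integral_comp_comm _
    (integrable_integrand hz _ f)]
  rfl

lemma TC_zero {z : ℂ} (hz : 0 < z.re) (f : C₀(E, ℂ)) : TC z 0 f = f := by
  rw [TC_apply hz, TCf]
  simp only [Real.sqrt_zero, zero_smul, tr_zero]
  rw [integral_smul_const, integral_ker1 hz, one_smul]

lemma TC_continuous {z : ℂ} (hz : 0 < z.re) (f : C₀(E, ℂ)) : Continuous fun t => TC z t f := by
  simp_rw [TC_apply hz]
  unfold TCf
  refine continuous_of_dominated (bound := fun y : E => ‖ker1 z y‖ * ‖f‖)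
    (fun t => (continuous_integrand z _ f).aestronglyMeasurable)
    (fun t => Eventually.of_forall fun y => ?_) ((integrable_ker1 hz).norm.mul_const _)
    (Eventually.of_forall fun y => ?_)
  · rw [norm_smul]
    gcongr
    exact tr_norm_le _ _
  · exact ((continuous_tr f).comp
      (by fun_prop : Continuous fun t : ℝ => Real.sqrt t • y)).const_smul (ker1 z y)

/-- The kernel of the problem. -/
noncomputable def kerT (z : ℂ) (t : ℝ) (x : E) : ℂ :=
  (4 * Real.pi * t * z) ^ (-((Module.finrank ℝ E : ℂ) / 2)) *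
    Complex.exp (-(‖x‖ : ℂ) ^ 2 / (4 * t * z))

lemma kerT_smul {z : ℂ} (hz : 0 < z.re) {t : ℝ} (ht : 0 < t) (y : E) :
    kerT z t (Real.sqrt t • y) = ((Real.sqrt t ^ Module.finrank ℝ E)⁻¹ : ℝ) * ker1 z y := by
  unfold kerT ker1
  have hz' := z_ne hz
  have hst : 0 < Real.sqrt t := Real.sqrt_pos.mpr ht
  have h1 : (4 * Real.pi * t * z : ℂ) = (t : ℝ) * (4 * Real.pi * z) := by ring
  have h2 : (4 * Real.pi * z : ℂ) ≠ 0 := four_pi_z_ne hz
  have h3 : ((t : ℝ) * (4 * Real.pi * z) : ℂ) ^ (-((Module.finrank ℝ E : ℂ) / 2)) =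
      ((Real.sqrt t ^ Module.finrank ℝ E)⁻¹ : ℝ) *
        (4 * Real.pi * z) ^ (-((Module.finrank ℝ E : ℂ) / 2)) := by
    have ht' : ((t : ℝ) : ℂ) ≠ 0 := by exact_mod_cast ht.ne'
    rw [Complex.cpow_def_of_ne_zero (mul_ne_zero ht' h2), Complex.log_ofReal_mul ht h2, add_mul,
      Complex.exp_add, ← Complex.cpow_def_of_ne_zero h2]
    congr 1
    have h4 : ((Real.log t : ℝ) : ℂ) * (-((Module.finrank ℝ E : ℂ) / 2)) =
        ((-(Module.finrank ℝ E * Real.log (Real.sqrt t)) : ℝ) : ℂ) := by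
      rw [Real.log_sqrt ht.le]
      push_cast; ring
    rw [h4, ← Complex.ofReal_exp]
    congr 1
    rw [Real.exp_neg, ← Real.log_pow, Real.exp_log (by positivity)]
  rw [h1, h3, mul_assoc]
  congr 3
  rw [norm_smul, Real.norm_of_nonneg hst.le]
  have hsq : ((Real.sqrt t : ℝ) : ℂ) ^ 2 = t := by
    rw [← Complex.ofReal_pow, Real.sq_sqrt ht.le]
  have ht' : ((t : ℝ) : ℂ) ≠ 0 := by exact_mod_cast ht.ne'
  push_cast
  rw [mul_pow, hsq]
  field_simp

/-- The semigroup is the convolution with the kernel. -/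
lemma TC_eq_conv {z : ℂ} (hz : 0 < z.re) {t : ℝ} (ht : 0 < t) (f : C₀(E, ℂ)) (x : E) :
    TC z t f x = ∫ y : E, kerT z t (x - y) * f y := by
  have hst : 0 < Real.sqrt t := Real.sqrt_pos.mpr ht
  rw [TC_eval hz]
  have h1 : ∫ y : E, kerT z t (x - y) * f y = ∫ y : E, kerT z t y * f (x - y) := by
    rw [← integral_sub_left_eq_self (fun y => kerT z t (x - y) * f y) volume x]
    simp only [sub_sub_cancel]
  have h2 := Measure.integral_comp_smul_of_nonneg (volume : Measure E)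
    (fun y => kerT z t y * f (x - y)) (Real.sqrt t) (hR := hst.le)
  have h3 : ∀ y : E, kerT z t (Real.sqrt t • y) * f (x - Real.sqrt t • y) =
      ((Real.sqrt t ^ Module.finrank ℝ E)⁻¹ : ℝ) • (ker1 z y * f (x - Real.sqrt t • y)) := by
    intro y
    rw [kerT_smul hz ht, Complex.real_smul, mul_assoc]
  simp_rw [h3] at h2
  rw [integral_smul] at h2
  rw [h1]
  have h4 : (Real.sqrt t ^ Module.finrank ℝ E)⁻¹ ≠ 0 := by positivity
  exact smul_right_injective _ h4 h2

end Pool.Agent.Lib.MP_b98ad5_an
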