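import Pool.Agent.Lib.MP_b98ad5_an.C0

set_option autoImplicit false
set_option linter.unusedSectionVars false

open scoped InnerProductSpace Topology ContDiff ZeroAtInfty SchwartzMap FourierTransform
open Set Filter MeasureTheory

namespace Pool.Agent.Lib.MP_b98ad5_an

variable {E : Type*} [NormedAddCommGroup E] [InnerProductSpace ℝ E] [FiniteDimensional ℝ E]
  [MeasurableSpace E] [BorelSpace E]

/-- Duality between `L²` and Schwartz functions under the Fourier transform. -/
lemma pairing_FT (g : L2 E) (χ : 𝓢(E, ℂ)) :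
    ∫ x, χ x • (FT E g) x = ∫ x, (𝓕 χ) x • g x := by
  have h1 := Lp.fourier_toTemperedDistribution_eq g
  have h2 := congrArg (fun T : 𝓢'(E, ℂ) => T χ) h1
  simp only [TemperedDistribution.fourier_apply, Lp.toTemperedDistribution_apply] at h2
  exact h2.symm

/-- The Schwartz function `hs z t * χ`. -/
noncomputable def mulS (z : ℂ) (t : ℝ) (χ : 𝓢(E, ℂ)) : 𝓢(E, ℂ) :=
  SchwartzMap.smulLeftCLM ℂ (hs z t : E → ℂ) χ

lemma mulS_apply {z : ℂ} (hz : 0 ≤ z.re) {t : ℝ} (ht : 0 ≤ t) (χ : 𝓢(E, ℂ)) (ξ : E) :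
    mulS z t χ ξ = hs z t ξ * χ ξ := by
  unfold mulS
  rw [SchwartzMap.smulLeftCLM_apply_apply (hasTemperateGrowth_hs hz ht), smul_eq_mul]

lemma pairing_SL {z : ℂ} (hz : 0 ≤ z.re) {t : ℝ} (ht : 0 ≤ t) (g : L2 E) (χ : 𝓢(E, ℂ)) :
    ∫ x, (𝓕 χ) x • (SL z t g) x = ∫ x, (𝓕 (mulS z t χ)) x • g x := by
  rw [← pairing_FT, ← pairing_FT]
  unfold SL
  rw [FT_fm]
  apply integral_congr_ae
  filter_upwards [coeFn_mop (isSymb_hs hz (le_max_right t 0)) (FT E g)] with ξ hξ
  rw [hξ, max_eq_left ht, mulS_apply hz ht, smul_eq_mul, smul_eq_mul]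
  ring

lemma schwartz_bound (ψ : 𝓢(E, ℂ)) : ∃ C : ℝ, ∀ x, ‖ψ x‖ ≤ C := by
  obtain ⟨C, hC⟩ := ψ.decay 0 0
  refine ⟨C, fun x => ?_⟩
  simpa using hC.2 x

/-- The kernel applied to a Fourier transform. -/
lemma kernel_fourier {z : ℂ} (hz : 0 < z.re) {t : ℝ} (ht : 0 ≤ t) (χ : 𝓢(E, ℂ)) (x : E) :
    ∫ y : E, ker1 z y * (𝓕 χ) (x + Real.sqrt t • y) = (𝓕 (mulS z t χ)) x := by
  have hF : ∀ (φ : 𝓢(E, ℂ)) (w : E), (𝓕 φ) w =
      ∫ v, Complex.exp ((↑(-2 * Real.pi * ⟪v, w⟫_ℝ) * Complex.I)) * φ v := by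
    intro φ w
    rw [SchwartzMap.fourier_coe, Real.fourier_eq']
    rfl
  set G : E → E → ℂ := fun y ξ => ker1 z y * χ ξ *
    Complex.exp ((↑(-2 * Real.pi * ⟪ξ, x + Real.sqrt t • y⟫_ℝ) * Complex.I)) with hG
  have hGint : Integrable (Function.uncurry G) ((volume : Measure E).prod (volume : Measure E)) := by
    have h1 := (integrable_ker1 (E := E) hz).mul_prod (χ.integrable (μ := volume))
    refine h1.mono ?_ (Eventually.of_forall fun p => ?_)
    · apply Continuous.aestronglyMeasurable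
      have hc1 := continuous_ker1 (E := E) z
      have hc2 := χ.continuous
      simp only [hG, Function.uncurry_def]
      fun_prop
    · simp only [hG, Function.uncurry_def]
      rw [norm_mul, Complex.norm_exp_ofReal_mul_I, mul_one]
  have h1 : ∀ y, ker1 z y * (𝓕 χ) (x + Real.sqrt t • y) = ∫ ξ, G y ξ := by
    intro y
    rw [hF, ← integral_const_mul]
    congr 1
    ext ξ
    simp only [hG]
    ring
  simp_rw [h1]
  rw [integral_integral_swap hGint, hF]
  congr 1
  ext ξ
  rw [mulS_apply hz.le ht, ← integral_ker1_exp hz ht ξ, mul_comm _ (χ ξ), ← mul_assoc,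
    ← integral_const_mul]
  congr 1
  ext y
  simp only [hG]
  rw [inner_add_right, real_inner_smul_right]
  have h2 : ((↑(-2 * Real.pi * (⟪ξ, x⟫_ℝ + Real.sqrt t * ⟪ξ, y⟫_ℝ)) : ℂ) * Complex.I) =
      (↑(-2 * Real.pi * ⟪ξ, x⟫_ℝ) * Complex.I) +
        (-(2 * ↑Real.pi * Complex.I * ↑(Real.sqrt t)) * ↑⟪ξ, y⟫_ℝ) := by
    push_cast; ring
  rw [h2, Complex.exp_add]
  ring

/-- The `C₀` semigroup against a Fourier transform. -/
lemma pairing_TC {z : ℂ} (hz : 0 < z.re) {t : ℝ} (ht : 0 ≤ t) (f : C₀(E, ℂ)) (χ : 𝓢(E, ℂ)) :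
    ∫ x, (𝓕 χ) x • TC z t f x = ∫ x, (𝓕 (mulS z t χ)) x • f x := by
  set ψ : 𝓢(E, ℂ) := 𝓕 χ with hψ
  set s := Real.sqrt t with hs'
  -- first swap
  set G : E → E → ℂ := fun x y => ψ x * (ker1 z y * f (x - s • y)) with hG
  have hcf := map_continuous f
  have hc1 := continuous_ker1 (E := E) z
  have hc2 := ψ.continuous
  have hGint : Integrable (Function.uncurry G) ((volume : Measure E).prod (volume : Measure E)) := by
    have h1 := ((ψ.integrable (μ := volume)).mul_prod (integrable_ker1 (E := E) hz)).mul_const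
      ((‖f‖ : ℝ) : ℂ)
    refine h1.mono ?_ (Eventually.of_forall fun p => ?_)
    · apply Continuous.aestronglyMeasurable
      simp only [hG, Function.uncurry_def]
      fun_prop
    · simp only [hG, Function.uncurry_def]
      rw [norm_mul, norm_mul, norm_mul, norm_mul, Complex.norm_real, norm_norm, mul_assoc]
      gcongr
      exact c0_apply_le f _
  have h1 : ∀ x, ψ x • TC z t f x = ∫ y, G x y := by
    intro x
    rw [TC_eval hz, smul_eq_mul, ← integral_const_mul]
  simp_rw [h1]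
  rw [integral_integral_swap hGint]
  -- translate
  set J : E → E → ℂ := fun x y => ker1 z y * ψ (x + s • y) * f x with hJ
  have h2 : ∀ y, ∫ x, G x y = ∫ x, J x y := by
    intro y
    rw [← integral_add_right_eq_self (fun x => G x y) (s • y)]
    congr 1
    ext x
    simp only [hG, hJ]
    rw [add_sub_cancel_right]; ring
  simp_rw [h2]
  -- second swap
  have hJm : Continuous (Function.uncurry J) := by
    simp only [hJ, Function.uncurry_def]
    fun_prop
  have hJint : Integrable (Function.uncurry J)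
      ((volume : Measure E).prod (volume : Measure E)) := by
    rw [integrable_prod_iff' hJm.aestronglyMeasurable]
    have h3 : ∀ y, Integrable (fun x => ψ (x + s • y)) volume := fun y =>
      (ψ.integrable (μ := volume)).comp_add_right (s • y)
    have h4 : ∀ y, Integrable (fun x => J x y) volume := by
      intro y
      refine (((h3 y).const_mul (ker1 z y)).mul_const ((‖f‖ : ℝ) : ℂ)).mono
        (by
          apply Continuous.aestronglyMeasurable
          simp only [hJ]
          fun_prop) (Eventually.of_forall fun x => ?_)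
      simp only [hJ]
      rw [norm_mul, norm_mul _ ((‖f‖ : ℝ) : ℂ), Complex.norm_real, norm_norm]
      gcongr
      exact c0_apply_le f _
    refine ⟨Eventually.of_forall h4, ?_⟩
    refine ((integrable_ker1 (E := E) hz).norm.mul_const (‖f‖ * ∫ x, ‖ψ x‖)).mono'
      (hJm.norm.aestronglyMeasurable.prod_swap.integral_prod_right') (Eventually.of_forall fun y => ?_)
    rw [Real.norm_of_nonneg (integral_nonneg fun _ => norm_nonneg _)]
    have h5 : ∫ x, ‖ψ x‖ = ∫ x, ‖ψ (x + s • y)‖ :=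
      (integral_add_right_eq_self (fun x => ‖ψ x‖) (s • y)).symm
    rw [h5, ← mul_assoc, ← integral_const_mul]
    refine integral_mono_of_nonneg (Eventually.of_forall fun _ => norm_nonneg _)
      ((h3 y).norm.const_mul _) (Eventually.of_forall fun x => ?_)
    simp only [hJ, Function.uncurry_apply_pair]
    rw [norm_mul, norm_mul]
    have := c0_apply_le f x
    calc ‖ker1 z y‖ * ‖ψ (x + s • y)‖ * ‖f x‖ ≤ ‖ker1 z y‖ * ‖ψ (x + s • y)‖ * ‖f‖ := by gcongr
      _ = _ := by ring
  rw [← integral_integral_swap hJint]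
  congr 1
  ext x
  simp only [hJ]
  rw [integral_mul_const, smul_eq_mul, kernel_fourier hz ht]

/-- The two semigroups agree. -/
theorem compat {z : ℂ} (hz : 0 < z.re) {t : ℝ} (ht : 0 ≤ t) {f : C₀(E, ℂ)} {g : L2 E}
    (hfg : (f : E → ℂ) =ᵐ[volume] g) : (TC z t f : E → ℂ) =ᵐ[volume] SL z t g := by
  apply ae_eq_of_integral_contDiff_smul_eq
  · exact (map_continuous (TC z t f)).locallyIntegrable
  · exact (Lp.memLp (SL z t g)).locallyIntegrable (by norm_num)
  · intro φ hφ hφc
    have hg₁ : HasCompactSupport (Complex.ofRealCLM ∘ φ) := hφc.comp_left rfl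
    have hg₂ : ContDiff ℝ ∞ (Complex.ofRealCLM ∘ φ) := by fun_prop
    set ψ : 𝓢(E, ℂ) := hg₁.toSchwartzMap hg₂ with hψ
    have hψx : ∀ x, ψ x = (φ x : ℂ) := fun x => by simp [hψ]
    have hψF : 𝓕 (𝓕⁻ ψ) = ψ := FourierTransform.fourier_fourierInv_eq ψ
    have h1 := pairing_TC hz ht f (𝓕⁻ ψ)
    have h2 := pairing_SL hz.le ht g (𝓕⁻ ψ)
    rw [hψF] at h1 h2
    clear_value ψ
    have h3 : ∫ x, φ x • TC z t f x = ∫ x, ψ x • TC z t f x :=
      integral_congr_ae (Eventually.of_forall fun x => by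
        simp only [hψx, Complex.real_smul, smul_eq_mul])
    have h4 : ∫ x, φ x • (SL z t g) x = ∫ x, ψ x • (SL z t g) x :=
      integral_congr_ae (Eventually.of_forall fun x => by
        simp only [hψx, Complex.real_smul, smul_eq_mul])
    rw [h3, h4, h1, h2]
    apply integral_congr_ae
    filter_upwards [hfg] with x hx
    rw [hx]

end Pool.Agent.Lib.MP_b98ad5_an
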