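import Pool.Agent.Lib.MP_b98ad5_an.Pair
import Pool.Agent.Lib.MP_b98ad5_an.Abstract4

set_option autoImplicit false
set_option linter.unusedSectionVars false

open scoped InnerProductSpace Topology ContDiff ZeroAtInfty SchwartzMap FourierTransform
open Set Filter MeasureTheory

namespace Pool.Agent.Lib.MP_b98ad5_an

variable {E : Type*} [NormedAddCommGroup E] [InnerProductSpace ℝ E] [FiniteDimensional ℝ E]
  [MeasurableSpace E] [BorelSpace E]

/-- Bound of the truncated Dirichlet energies of an `H¹` function. -/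
lemma exists_D {U : L2 E} (hU : TemperedDistribution.MemSobolev 1 2 (U : 𝓢'(E, ℂ))) :
    ∃ D : ℝ, 0 ≤ D ∧ ∀ n, (⟪AA E n (PP E n U), PP E n U⟫_ℂ).re ≤ D := by
  obtain ⟨f', hf'⟩ := TemperedDistribution.memSobolev_iff_exists_smulLeftCLM_fourier.mp hU
  rw [Lp.fourier_toTemperedDistribution_eq U] at hf'
  set V : L2 E := FT E U with hV
  have hV' : (𝓕 U : L2 E) = V := rfl
  rw [hV'] at hf'
  have hg : (fun x : E => (((1 + ‖x‖ ^ 2) ^ ((1 : ℝ) / 2) : ℝ) : ℂ)).HasTemperateGrowth := by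
    fun_prop
  have hgc : Continuous fun x : E => (((1 + ‖x‖ ^ 2) ^ ((1 : ℝ) / 2) : ℝ) : ℂ) :=
    hg.1.continuous
  have hae : ∀ᵐ x ∂(volume : Measure E),
      (((1 + ‖x‖ ^ 2) ^ ((1 : ℝ) / 2) : ℝ) : ℂ) * V x = f' x := by
    apply ae_eq_of_integral_contDiff_smul_eq
    · have h1 : LocallyIntegrable V volume := (Lp.memLp V).locallyIntegrable (by norm_num)
      have h2 := h1.continuous_smul hgc
      exact h2
    · exact (Lp.memLp f').locallyIntegrable (by norm_num)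
    · intro φ hφ hφc
      have hg₁ : HasCompactSupport (Complex.ofRealCLM ∘ φ) := hφc.comp_left rfl
      have hg₂ : ContDiff ℝ ∞ (Complex.ofRealCLM ∘ φ) := by fun_prop
      set ψ : 𝓢(E, ℂ) := hg₁.toSchwartzMap hg₂ with hψ
      have hψx : ∀ x, ψ x = (φ x : ℂ) := fun x => by simp [hψ]
      clear_value ψ
      have h3 := congrArg (fun T : 𝓢'(E, ℂ) => T ψ) hf'
      simp only [TemperedDistribution.smulLeftCLM_apply_apply,
        Lp.toTemperedDistribution_apply] at h3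
      have h4 : ∫ x, φ x • f' x = ∫ x, ψ x • f' x :=
        integral_congr_ae (Eventually.of_forall fun x => by
          simp only [hψx, Complex.real_smul, smul_eq_mul])
      rw [h4, ← h3]
      refine integral_congr_ae (Eventually.of_forall fun x => ?_)
      simp only []
      rw [SchwartzMap.smulLeftCLM_apply_apply hg, hψx, Complex.real_smul, smul_eq_mul, smul_eq_mul]
      ring
  refine ⟨(2 * Real.pi) ^ 2 * ‖f'‖ ^ 2, by positivity, fun n => ?_⟩
  rw [AA_inner_self, norm_sq_L2, ← integral_const_mul]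
  refine integral_mono_of_nonneg (Eventually.of_forall fun ξ => ?_)
    ((integrable_norm_sq_L2 f').const_mul _) ?_
  · have := cut_sig_nonneg n ξ
    simp only [Pi.zero_apply]
    positivity
  · have h5 : FT E (PP E n U) = mop volume (fun x => (cut n x : ℂ)) V := by
      unfold PP; rw [FT_fm]
    filter_upwards [hae, coeFn_mop (isSymb_cut n) V] with ξ h1 h2
    rw [h5, h2, ← h1, norm_mul, norm_mul, Complex.norm_real, Complex.norm_real,
      Real.norm_of_nonneg (cut_nonneg n ξ), Real.norm_of_nonneg (by positivity),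
      mul_pow (cut n ξ), mul_pow ((1 + ‖ξ‖ ^ 2) ^ ((1 : ℝ) / 2))]
    have h6 : ((1 + ‖ξ‖ ^ 2) ^ ((1 : ℝ) / 2)) ^ 2 = 1 + ‖ξ‖ ^ 2 := by
      rw [← Real.rpow_natCast, ← Real.rpow_mul (by positivity)]
      norm_num
    rw [h6]
    have h7 : cut n ξ ^ 2 = cut n ξ := by rw [sq, cut_mul_self]
    rw [h7]
    unfold sig
    have h8 := cut_nonneg n ξ
    have h9 := cut_le_one n ξ
    have h10 : cut n ξ * cut n ξ ≤ 1 := by rw [cut_mul_self]; exact h9
    calc (2 * Real.pi) ^ 2 * ‖ξ‖ ^ 2 * cut n ξ * (cut n ξ * ‖V ξ‖ ^ 2)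
        = (2 * Real.pi) ^ 2 * (‖ξ‖ ^ 2 * ‖V ξ‖ ^ 2) * (cut n ξ * cut n ξ) := by ring
      _ ≤ (2 * Real.pi) ^ 2 * (‖ξ‖ ^ 2 * ‖V ξ‖ ^ 2) * 1 := by gcongr
      _ ≤ (2 * Real.pi) ^ 2 * ((1 + ‖ξ‖ ^ 2) * ‖V ξ‖ ^ 2) := by
          rw [mul_one]
          gcongr
          linarith

/-- A good test function. -/
lemma exists_psi {U : L2 E} (hU : U ≠ 0) :
    ∃ ψ : L2 E, ∃ K₁ K₂ C₁ : ℝ, 0 < K₁ ∧ 0 < K₂ ∧ 0 < ‖⟪ψ, U⟫_ℂ‖ ∧
      Integrable (fun x => ‖ψ x‖) volume ∧ ∫ x, ‖ψ x‖ ≤ K₁ ∧ (∀ᵐ x, ‖ψ x‖ ≤ K₂) ∧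
      ∀ n, ‖AA E n (PP E n ψ)‖ ≤ C₁ := by
  have hdense := SchwartzMap.denseRange_toLpCLM (E := E) (F := ℂ) (μ := (volume : Measure E))
    (p := 2) ENNReal.ofNat_ne_top
  obtain ⟨φ, hφ⟩ : ∃ φ : 𝓢(E, ℂ), ⟪(φ.toLp 2 : L2 E), U⟫_ℂ ≠ 0 := by
    by_contra hcon
    push Not at hcon
    apply hU
    have h1 : ∀ y : L2 E, ⟪y, U⟫_ℂ = 0 := by
      intro y
      refine DenseRange.induction_on (p := fun y : L2 E => ⟪y, U⟫_ℂ = 0) hdense y ?_ ?_
      · exact isClosed_eq (by fun_prop) continuous_const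
      · intro φ
        exact hcon φ
    exact inner_self_eq_zero.mp (h1 U)
  obtain ⟨C, hC⟩ := schwartz_bound φ
  have hcoe := φ.coeFn_toLp 2 (volume : Measure E)
  have hint : Integrable (fun x => ‖(φ.toLp 2 : L2 E) x‖) volume := by
    refine (φ.integrable (μ := volume)).norm.congr ?_
    filter_upwards [hcoe] with x hx
    rw [hx]
  have hI0 : 0 ≤ ∫ x, ‖(φ.toLp 2 : L2 E) x‖ := integral_nonneg fun _ => norm_nonneg _
  refine ⟨φ.toLp 2, (∫ x, ‖(φ.toLp 2 : L2 E) x‖) + 1, max C 1,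
    ‖((SchwartzMap.smulLeftCLM ℂ (fun x : E => (sig x : ℂ)) (𝓕 φ)).toLp 2 : L2 E)‖,
    by linarith, by positivity, norm_pos_iff.mpr hφ, hint, by linarith, ?_, ?_⟩
  · filter_upwards [hcoe] with x hx
    rw [hx]
    exact (hC x).trans (le_max_left _ _)
  · intro n
    rw [AA_PP]
    unfold AA
    rw [fm_apply, LinearIsometryEquiv.norm_map]
    have h1 : FT E (φ.toLp 2 : L2 E) = ((𝓕 φ).toLp 2 : L2 E) := SchwartzMap.toLp_fourier_eq φ
    rw [h1]
    apply Lp.norm_le_norm_of_ae_le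
    have hsg : (fun x : E => (sig x : ℂ)).HasTemperateGrowth := by
      have := hasTemperateGrowth_sig (E := E)
      fun_prop
    filter_upwards [coeFn_mop (isSymb_sigcut n) ((𝓕 φ).toLp 2 : L2 E),
      (𝓕 φ).coeFn_toLp 2 (volume : Measure E),
      (SchwartzMap.smulLeftCLM ℂ (fun x : E => (sig x : ℂ)) (𝓕 φ)).coeFn_toLp 2
        (volume : Measure E)] with x e1 e2 e3
    rw [e1, e2, e3, SchwartzMap.smulLeftCLM_apply_apply hsg, norm_mul, norm_smul,
      Complex.norm_real, Complex.norm_real, Real.norm_of_nonneg (cut_sig_nonneg n x),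
      Real.norm_of_nonneg (sig_nonneg x)]
    have := sig_nonneg x
    gcongr
    exact mul_le_of_le_one_right this (cut_le_one n x)

end Pool.Agent.Lib.MP_b98ad5_an
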