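import Mathlib

set_option autoImplicit false
set_option linter.unusedSectionVars false

open scoped Topology NNReal
open Set Filter MeasureTheory

namespace Pool.Agent.Lib.MP_b98ad5_an

variable {Z : Type*} [NormedAddCommGroup Z] [NormedSpace ℂ Z]

/-- A bounded strongly continuous family. -/
structure IsSG (S : ℝ → Z →L[ℂ] Z) (C : ℝ) : Prop where
  bd : ∀ t x, ‖S t x‖ ≤ C * ‖x‖
  cont : ∀ x, Continuous fun t => S t x

lemma IsSG.continuous_apply {S : ℝ → Z →L[ℂ] Z} {C : ℝ} (hS : IsSG S C) {X : Type*}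
    [TopologicalSpace X] {a : X → ℝ} {f : X → Z} (ha : Continuous a) (hf : Continuous f) :
    Continuous fun x => S (a x) (f x) := by
  rw [continuous_iff_continuousAt]
  intro x₀
  have h1 : Tendsto (fun r => S (a r) (f x₀)) (𝓝 x₀) (𝓝 (S (a x₀) (f x₀))) :=
    ((hS.cont (f x₀)).tendsto _).comp (ha.tendsto x₀)
  have h2 : Tendsto (fun r => S (a r) (f r - f x₀)) (𝓝 x₀) (𝓝 0) := by
    have h3 : Tendsto (fun r => C * ‖f r - f x₀‖) (𝓝 x₀) (𝓝 0) := by
      have h4 : Tendsto (fun r => f r - f x₀) (𝓝 x₀) (𝓝 (f x₀ - f x₀)) :=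
        (hf.tendsto x₀).sub_const _
      rw [sub_self] at h4
      have := (h4.norm).const_mul C
      simpa using this
    exact squeeze_zero_norm (fun r => hS.bd _ _) h3
  have h5 := h1.add h2
  rw [add_zero] at h5
  refine h5.congr fun r => ?_
  rw [map_sub]; abel

section picard

variable {S : ℝ → Z →L[ℂ] Z} {C L T : ℝ} {N : Z → Z}

lemma continuous_of_lip (hN : ∀ x y, ‖N x - N y‖ ≤ L * ‖x - y‖) : Continuous N := by
  have : LipschitzWith (Real.toNNReal L) N := by
    refine LipschitzWith.of_dist_le_mul fun x y => ?_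
    rw [dist_eq_norm, dist_eq_norm]
    exact (hN x y).trans (by gcongr; exact Real.le_coe_toNNReal L)
  exact this.continuous

lemma continuous_duhamel (hS : IsSG S C) (z₀ : Z) {F : ℝ → Z} (hF : Continuous F) :
    Continuous fun t : ℝ => S t z₀ + ∫ s in (0 : ℝ)..t, S (t - s) (F s) := by
  refine (hS.cont z₀).add ?_
  have h1 : Continuous (Function.uncurry fun t s : ℝ => S (t - s) (F s)) :=
    hS.continuous_apply (by fun_prop) (by fun_prop)
  exact intervalIntegral.continuous_parametric_intervalIntegral_of_continuous h1 continuous_id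

/-- The Picard map. -/
noncomputable def picard (hS : IsSG S C) (hN : ∀ x y, ‖N x - N y‖ ≤ L * ‖x - y‖) (z₀ : Z)
    (hT : 0 ≤ T) (w : C(Icc (0 : ℝ) T, Z)) : C(Icc (0 : ℝ) T, Z) where
  toFun t := S t z₀ + ∫ s in (0 : ℝ)..t, S (t - s) (N (IccExtend hT w s))
  continuous_toFun := (continuous_duhamel hS z₀
    ((continuous_of_lip hN).comp (w.continuous.Icc_extend'))).comp continuous_subtype_val

lemma picard_iterate_bound (hS : IsSG S C) (hN : ∀ x y, ‖N x - N y‖ ≤ L * ‖x - y‖) (z₀ : Z)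
    (hT : 0 ≤ T) (hC : 0 ≤ C) (hL : 0 ≤ L) (n : ℕ) (w w' : C(Icc (0 : ℝ) T, Z))
    (t : Icc (0 : ℝ) T) :
    ‖(picard hS hN z₀ hT)^[n] w t - (picard hS hN z₀ hT)^[n] w' t‖ ≤
      (C * L * t) ^ n / n.factorial * ‖w - w'‖ := by
  induction n generalizing t with
  | zero =>
    simp only [Function.iterate_zero, id, pow_zero, Nat.factorial_zero, Nat.cast_one, div_one,
      one_mul]
    exact (w - w').norm_coe_le_norm t
  | succ n ih =>
    rw [Function.iterate_succ_apply', Function.iterate_succ_apply']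
    set a := (picard hS hN z₀ hT)^[n] w with ha
    set b := (picard hS hN z₀ hT)^[n] w' with hb
    have hcont : ∀ c : C(Icc (0 : ℝ) T, Z),
        Continuous fun s : ℝ => S (t - s) (N (IccExtend hT c s)) := fun c =>
      hS.continuous_apply (by fun_prop) ((continuous_of_lip hN).comp (c.continuous.Icc_extend'))
    have h1 : picard hS hN z₀ hT a t - picard hS hN z₀ hT b t =
        ∫ s in (0 : ℝ)..t, (S (t - s) (N (IccExtend hT a s)) -
          S (t - s) (N (IccExtend hT b s))) := by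
      rw [intervalIntegral.integral_sub ((hcont a).intervalIntegrable _ _)
        ((hcont b).intervalIntegrable _ _)]
      simp only [picard, ContinuousMap.coe_mk]
      abel
    rw [h1]
    have ht0 : (0 : ℝ) ≤ t := t.2.1
    have h2 : ‖∫ s in (0 : ℝ)..t, (S (t - s) (N (IccExtend hT a s)) -
          S (t - s) (N (IccExtend hT b s)))‖ ≤
        ∫ s in (0 : ℝ)..t, C * L * ((C * L * s) ^ n / n.factorial * ‖w - w'‖) := by
      refine intervalIntegral.norm_integral_le_of_norm_le ht0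
        (Eventually.of_forall fun s hs => ?_) (Continuous.intervalIntegrable (by fun_prop) _ _)
      have hs' : s ∈ Icc (0 : ℝ) T := ⟨hs.1.le, hs.2.trans t.2.2⟩
      rw [IccExtend_of_mem _ _ hs', IccExtend_of_mem _ _ hs', ← map_sub]
      calc _ ≤ C * ‖N (a ⟨s, hs'⟩) - N (b ⟨s, hs'⟩)‖ := hS.bd _ _
        _ ≤ C * (L * ‖a ⟨s, hs'⟩ - b ⟨s, hs'⟩‖) := by gcongr; exact hN _ _
        _ ≤ C * (L * ((C * L * s) ^ n / n.factorial * ‖w - w'‖)) := by
            gcongr; exact ih ⟨s, hs'⟩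
        _ = _ := by ring
    refine h2.trans (le_of_eq ?_)
    have h3 : ∀ s : ℝ, C * L * ((C * L * s) ^ n / n.factorial * ‖w - w'‖) =
        (C * L) ^ (n + 1) / n.factorial * ‖w - w'‖ * s ^ n := by
      intro s; rw [mul_pow]; ring
    simp_rw [h3]
    rw [intervalIntegral.integral_const_mul, integral_pow, Nat.factorial_succ, mul_pow]
    have hn : ((n : ℝ) + 1) ≠ 0 := by positivity
    have hf : (n.factorial : ℝ) ≠ 0 := by positivity
    push_cast
    rw [zero_pow (by omega)]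
    field_simp
    ring

lemma picard_contracting (hS : IsSG S C) (hN : ∀ x y, ‖N x - N y‖ ≤ L * ‖x - y‖) (z₀ : Z)
    (hT : 0 ≤ T) (hC : 0 ≤ C) (hL : 0 ≤ L) :
    ∃ (n : ℕ) (K : ℝ≥0), ContractingWith K (picard hS hN z₀ hT)^[n] := by
  have h1 := FloorSemiring.tendsto_pow_div_factorial_atTop (C * L * T)
  obtain ⟨n, hn⟩ := (h1.eventually (gt_mem_nhds zero_lt_one)).exists
  have h0 : 0 ≤ (C * L * T) ^ n / n.factorial := by positivity
  refine ⟨n, ⟨(C * L * T) ^ n / n.factorial, h0⟩, ?_, ?_⟩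
  · exact_mod_cast hn
  · refine LipschitzWith.of_dist_le_mul fun w w' => ?_
    rw [ContinuousMap.dist_le (by positivity)]
    intro t
    rw [dist_eq_norm, dist_eq_norm]
    refine (picard_iterate_bound hS hN z₀ hT hC hL n w w' t).trans ?_
    change _ ≤ (C * L * T) ^ n / n.factorial * _
    have := t.2.1
    have := t.2.2
    gcongr

variable [CompleteSpace Z]

/-- Existence of mild solutions for Lipschitz nonlinearities. -/
theorem mild_exists (hS : IsSG S C) (hN : ∀ x y, ‖N x - N y‖ ≤ L * ‖x - y‖) (z₀ : Z)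
    (hT : 0 ≤ T) (hC : 0 ≤ C) (hL : 0 ≤ L) :
    ∃ w : ℝ → Z, Continuous w ∧
      ∀ t ∈ Icc 0 T, w t = S t z₀ + ∫ s in (0 : ℝ)..t, S (t - s) (N (w s)) := by
  obtain ⟨n, K, hK⟩ := picard_contracting hS hN z₀ hT hC hL
  have hfix := hK.isFixedPt_fixedPoint_iterate
  set x := hK.fixedPoint (picard hS hN z₀ hT)^[n] with hx
  refine ⟨IccExtend hT x, x.continuous.Icc_extend', fun t ht => ?_⟩
  have h1 : picard hS hN z₀ hT x = x := hfix
  rw [IccExtend_of_mem _ _ ht]
  have h2 := congrArg (fun c : C(Icc (0 : ℝ) T, Z) => c ⟨t, ht⟩) h1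
  simp only [picard, ContinuousMap.coe_mk] at h2
  exact h2.symm

omit [CompleteSpace Z] in
/-- Uniqueness of mild solutions for Lipschitz nonlinearities. -/
theorem mild_unique (hS : IsSG S C) (hN : ∀ x y, ‖N x - N y‖ ≤ L * ‖x - y‖) (z₀ : Z)
    (hC : 0 ≤ C) (hL : 0 ≤ L) {w₁ w₂ : ℝ → Z}
    (hc₁ : ContinuousOn w₁ (Icc 0 T)) (hc₂ : ContinuousOn w₂ (Icc 0 T))
    (h₁ : ∀ t ∈ Icc 0 T, w₁ t = S t z₀ + ∫ s in (0 : ℝ)..t, S (t - s) (N (w₁ s)))
    (h₂ : ∀ t ∈ Icc 0 T, w₂ t = S t z₀ + ∫ s in (0 : ℝ)..t, S (t - s) (N (w₂ s))) :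
    ∀ t ∈ Icc 0 T, w₁ t = w₂ t := by
  intro t ht
  have hT : 0 ≤ T := ht.1.trans ht.2
  obtain ⟨n, K, hK⟩ := picard_contracting hS hN z₀ hT hC hL
  have key : ∀ (w : ℝ → Z) (hc : ContinuousOn w (Icc 0 T))
      (_ : ∀ t ∈ Icc 0 T, w t = S t z₀ + ∫ s in (0 : ℝ)..t, S (t - s) (N (w s))),
      Function.IsFixedPt (picard hS hN z₀ hT) ⟨(Icc 0 T).domRestrict w, hc.domRestrict⟩ := by
    intro w hc hw
    ext r
    change S r z₀ + ∫ s in (0 : ℝ)..r, S (r - s) (N (IccExtend hT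
      ((Icc 0 T).domRestrict w) s)) = w r
    rw [hw r r.2]
    congr 1
    apply intervalIntegral.integral_congr
    intro s hs
    rw [uIcc_of_le r.2.1] at hs
    have hs' : s ∈ Icc (0 : ℝ) T := ⟨hs.1, hs.2.trans r.2.2⟩
    simp only []
    rw [IccExtend_of_mem _ _ hs']
    rfl
  have k1 := (key w₁ hc₁ h₁).iterate n
  have k2 := (key w₂ hc₂ h₂).iterate n
  have h3 := hK.fixedPoint_unique' k1 k2
  have h4 := congrArg (fun c : C(Icc (0 : ℝ) T, Z) => c ⟨t, ht⟩) h3
  exact h4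

end picard

end Pool.Agent.Lib.MP_b98ad5_an
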