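import Pool.Agent.Lib.MP_b98ad5_an.Nemytskii

set_option autoImplicit false

open scoped InnerProductSpace Topology
open Set Filter MeasureTheory

namespace Pool.Agent.Lib.MP_b98ad5_an

section mul

variable {X : Type*} [MeasurableSpace X] {μ : Measure X}

/-- Bounded Borel functions. -/
def IsSymb (m : X → ℂ) : Prop := Measurable m ∧ ∃ C : ℝ, ∀ x, ‖m x‖ ≤ C

lemma IsSymb.memLp {m : X → ℂ} (hm : IsSymb m) (v : Lp ℂ 2 μ) :
    MemLp (fun x => m x * v x) 2 μ := by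
  obtain ⟨hmeas, C, hC⟩ := hm
  refine (Lp.memLp v).of_le_mul (hmeas.aestronglyMeasurable.mul (Lp.memLp v).1)
    (Eventually.of_forall fun x => ?_) (c := C)
  rw [norm_mul]
  gcongr
  exact hC x

open Classical in
/-- Multiplication by a bounded Borel function on `L²`. -/
noncomputable def mop (μ : Measure X) (m : X → ℂ) : Lp ℂ 2 μ →L[ℂ] Lp ℂ 2 μ :=
  if hm : IsSymb m then
    LinearMap.mkContinuousOfExistsBound
      { toFun := fun v => (hm.memLp v).toLp _
        map_add' := fun v w => by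
          rw [← MemLp.toLp_add]
          apply MemLp.toLp_congr
          filter_upwards [Lp.coeFn_add v w] with x hx
          rw [hx]
          simp only [Pi.add_apply]
          ring
        map_smul' := fun c v => by
          rw [RingHom.id_apply, ← MemLp.toLp_const_smul]
          apply MemLp.toLp_congr
          filter_upwards [Lp.coeFn_smul c v] with x hx
          rw [hx]
          simp only [Pi.smul_apply, smul_eq_mul]
          ring }
      (by
        obtain ⟨hmeas, C, hC⟩ := id hm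
        refine ⟨C, fun v => ?_⟩
        apply Lp.norm_le_mul_norm_of_ae_le_mul
        filter_upwards [(hm.memLp v).coeFn_toLp] with x hx
        simp only [LinearMap.coe_mk, AddHom.coe_mk]
        rw [hx, norm_mul]
        gcongr
        exact hC x)
  else 0

lemma coeFn_mop {m : X → ℂ} (hm : IsSymb m) (v : Lp ℂ 2 μ) :
    mop μ m v =ᵐ[μ] fun x => m x * v x := by
  unfold mop
  rw [dif_pos hm]
  exact (hm.memLp v).coeFn_toLp

lemma mop_norm_le {m : X → ℂ} (hm : IsSymb m) {C : ℝ} (hC : ∀ x, ‖m x‖ ≤ C) (v : Lp ℂ 2 μ) :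
    ‖mop μ m v‖ ≤ C * ‖v‖ := by
  apply Lp.norm_le_mul_norm_of_ae_le_mul
  filter_upwards [coeFn_mop hm v] with x hx
  rw [hx, norm_mul]
  gcongr
  exact hC x

lemma IsSymb.mul {m m' : X → ℂ} (hm : IsSymb m) (hm' : IsSymb m') :
    IsSymb (fun x => m x * m' x) := by
  obtain ⟨h1, C, hC⟩ := hm
  obtain ⟨h1', C', hC'⟩ := hm'
  refine ⟨h1.mul h1', C * C', fun x => ?_⟩
  rw [norm_mul]
  have := (norm_nonneg _).trans (hC x)
  gcongr
  · exact hC x
  · exact hC' x

lemma mop_mop {m m' : X → ℂ} (hm : IsSymb m) (hm' : IsSymb m') (v : Lp ℂ 2 μ) :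
    mop μ m (mop μ m' v) = mop μ (fun x => m x * m' x) v := by
  apply Lp.ext
  filter_upwards [coeFn_mop hm (mop μ m' v), coeFn_mop hm' v, coeFn_mop (hm.mul hm') v]
    with x h1 h2 h3
  rw [h1, h2, h3]; ring

lemma mop_symm {m : X → ℂ} (hm : IsSymb m) (hreal : ∀ x, starRingEnd ℂ (m x) = m x)
    (v w : Lp ℂ 2 μ) : ⟪mop μ m v, w⟫_ℂ = ⟪v, mop μ m w⟫_ℂ := by
  have h1 : ⟪mop μ m v, w⟫_ℂ = ∫ x, ⟪(mop μ m v) x, w x⟫_ℂ ∂μ := L2.inner_def _ _
  have h2 : ⟪v, mop μ m w⟫_ℂ = ∫ x, ⟪v x, (mop μ m w) x⟫_ℂ ∂μ := L2.inner_def _ _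
  rw [h1, h2]
  apply integral_congr_ae
  filter_upwards [coeFn_mop hm v, coeFn_mop hm w] with x h3 h4
  rw [h3, h4, RCLike.inner_apply, RCLike.inner_apply, map_mul, hreal]
  ring

lemma mop_inner_self {m : X → ℝ} (hm : IsSymb (fun x => (m x : ℂ))) (v : Lp ℂ 2 μ) :
    (⟪mop μ (fun x => (m x : ℂ)) v, v⟫_ℂ).re = ∫ x, m x * ‖v x‖ ^ 2 ∂μ := by
  have h1 : ⟪mop μ (fun x => (m x : ℂ)) v, v⟫_ℂ =
      ∫ x, ⟪(mop μ (fun x => (m x : ℂ)) v) x, v x⟫_ℂ ∂μ := L2.inner_def _ _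
  have h2 : ∀ᵐ x ∂μ, ⟪(mop μ (fun x => (m x : ℂ)) v) x, v x⟫_ℂ =
      ((m x * ‖v x‖ ^ 2 : ℝ) : ℂ) := by
    filter_upwards [coeFn_mop hm v] with x hx
    rw [hx, RCLike.inner_apply, map_mul]
    have h3 : v x * (starRingEnd ℂ) (v x) = ((‖v x‖ ^ 2 : ℝ) : ℂ) := by
      rw [Complex.mul_conj, Complex.normSq_eq_norm_sq]
    have h4 : (starRingEnd ℂ) ((m x : ℝ) : ℂ) = ((m x : ℝ) : ℂ) := Complex.conj_ofReal _
    rw [mul_left_comm, h3, h4, ← Complex.ofReal_mul]
  rw [h1, integral_congr_ae h2, integral_complex_ofReal, Complex.ofReal_re]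

lemma mop_tendsto {ι : Type*} {l : Filter ι} [l.IsCountablyGenerated] {m : ι → X → ℂ}
    {m₀ : X → ℂ} {C : ℝ} (hm : ∀ i, Measurable (m i)) (hC : ∀ i x, ‖m i x‖ ≤ C)
    (hm₀ : Measurable m₀) (hC₀ : ∀ x, ‖m₀ x‖ ≤ C)
    (hlim : ∀ x, Tendsto (fun i => m i x) l (𝓝 (m₀ x))) (v : Lp ℂ 2 μ) :
    Tendsto (fun i => mop μ (m i) v) l (𝓝 (mop μ m₀ v)) := by
  rw [tendsto_iff_norm_sub_tendsto_zero]
  have hS : ∀ i, IsSymb (m i) := fun i => ⟨hm i, C, hC i⟩
  have hS₀ : IsSymb m₀ := ⟨hm₀, C, hC₀⟩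
  have h1 : ∀ i, ‖mop μ (m i) v - mop μ m₀ v‖ ^ 2 = ∫ x, ‖(m i x - m₀ x) * v x‖ ^ 2 ∂μ := by
    intro i
    rw [norm_sq_L2]
    apply integral_congr_ae
    filter_upwards [Lp.coeFn_sub (mop μ (m i) v) (mop μ m₀ v), coeFn_mop (hS i) v,
      coeFn_mop hS₀ v] with x h2 h3 h4
    rw [h2, Pi.sub_apply, h3, h4, sub_mul]
  have h5 : Tendsto (fun i => ‖mop μ (m i) v - mop μ m₀ v‖ ^ 2) l (𝓝 0) := by
    simp_rw [h1]
    have h6 : (0 : ℝ) = ∫ _x : X, (0 : ℝ) ∂μ := by simp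
    rw [h6]
    refine tendsto_integral_filter_of_dominated_convergence
      (fun x => (C + C) ^ 2 * ‖v x‖ ^ 2) ?_ ?_ ?_ ?_
    · exact Eventually.of_forall fun i =>
        ((((hm i).sub hm₀).aestronglyMeasurable.mul (Lp.memLp v).1).norm.pow 2)
    · refine Eventually.of_forall fun i => Eventually.of_forall fun x => ?_
      rw [Real.norm_of_nonneg (by positivity), norm_mul, mul_pow]
      gcongr
      exact (norm_sub_le _ _).trans (add_le_add (hC i x) (hC₀ x))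
    · exact (integrable_norm_sq_L2 v).const_mul _
    · refine Eventually.of_forall fun x => ?_
      have h7 : Tendsto (fun i => (m i x - m₀ x) * v x) l (𝓝 ((m₀ x - m₀ x) * v x)) :=
        ((hlim x).sub_const _).mul_const _
      have h8 := (h7.norm).pow 2
      simpa using h8
  have h9 := (Real.continuous_sqrt.tendsto 0).comp h5
  rw [Real.sqrt_zero] at h9
  refine h9.congr fun i => ?_
  simp only [Function.comp]
  rw [Real.sqrt_sq (norm_nonneg _)]

end mul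

section fourier

variable {E : Type*} [NormedAddCommGroup E] [InnerProductSpace ℝ E] [FiniteDimensional ℝ E]
  [MeasurableSpace E] [BorelSpace E]

/-- `L²` over a Euclidean space. -/
noncomputable abbrev L2 (E : Type*) [NormedAddCommGroup E] [InnerProductSpace ℝ E] [FiniteDimensional ℝ E]
    [MeasurableSpace E] [BorelSpace E] := Lp ℂ 2 (volume : Measure E)

/-- The Fourier transform on `L²`. -/
noncomputable abbrev FT (E : Type*) [NormedAddCommGroup E] [InnerProductSpace ℝ E]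
    [FiniteDimensional ℝ E] [MeasurableSpace E] [BorelSpace E] : L2 E ≃ₗᵢ[ℂ] L2 E :=
  Lp.fourierTransformₗᵢ E ℂ

/-- The Fourier multiplier with a bounded Borel symbol. -/
noncomputable def fm (m : E → ℂ) : L2 E →L[ℂ] L2 E :=
  ((FT E).symm.toContinuousLinearEquiv : L2 E →L[ℂ] L2 E) ∘L
    (mop volume m) ∘L ((FT E).toContinuousLinearEquiv : L2 E →L[ℂ] L2 E)

lemma fm_apply (m : E → ℂ) (v : L2 E) : fm m v = (FT E).symm (mop volume m (FT E v)) := rfl

lemma FT_fm (m : E → ℂ) (v : L2 E) : FT E (fm m v) = mop volume m (FT E v) := by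
  rw [fm_apply, LinearIsometryEquiv.apply_symm_apply]

lemma fm_norm_le {m : E → ℂ} (hm : IsSymb m) {C : ℝ} (hC : ∀ x, ‖m x‖ ≤ C) (v : L2 E) :
    ‖fm m v‖ ≤ C * ‖v‖ := by
  rw [fm_apply, LinearIsometryEquiv.norm_map]
  refine (mop_norm_le hm hC _).trans ?_
  rw [LinearIsometryEquiv.norm_map]

lemma fm_fm {m m' : E → ℂ} (hm : IsSymb m) (hm' : IsSymb m') (v : L2 E) :
    fm m (fm m' v) = fm (fun x => m x * m' x) v := by
  rw [fm_apply, FT_fm, mop_mop hm hm', fm_apply]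

lemma inner_FT (v w : L2 E) : ⟪FT E v, FT E w⟫_ℂ = ⟪v, w⟫_ℂ :=
  (FT E).inner_map_map v w

lemma fm_symm {m : E → ℂ} (hm : IsSymb m) (hreal : ∀ x, starRingEnd ℂ (m x) = m x)
    (v w : L2 E) : ⟪fm m v, w⟫_ℂ = ⟪v, fm m w⟫_ℂ := by
  rw [← inner_FT, FT_fm, mop_symm hm hreal, ← FT_fm, inner_FT]

lemma fm_inner_self {m : E → ℝ} (hm : IsSymb (fun x => (m x : ℂ))) (v : L2 E) :
    (⟪fm (fun x => (m x : ℂ)) v, v⟫_ℂ).re = ∫ x, m x * ‖(FT E v) x‖ ^ 2 := by
  rw [← inner_FT, FT_fm, mop_inner_self hm]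

lemma fm_tendsto {ι : Type*} {l : Filter ι} [l.IsCountablyGenerated] {m : ι → E → ℂ}
    {m₀ : E → ℂ} {C : ℝ} (hm : ∀ i, Measurable (m i)) (hC : ∀ i x, ‖m i x‖ ≤ C)
    (hm₀ : Measurable m₀) (hC₀ : ∀ x, ‖m₀ x‖ ≤ C)
    (hlim : ∀ x, Tendsto (fun i => m i x) l (𝓝 (m₀ x))) (v : L2 E) :
    Tendsto (fun i => fm (m i) v) l (𝓝 (fm m₀ v)) := by
  have h1 := mop_tendsto (μ := volume) hm hC hm₀ hC₀ hlim (FT E v)
  exact (((FT E).symm.continuous.tendsto _).comp h1)

lemma isSymb_one {X : Type*} [MeasurableSpace X] : IsSymb (fun _ : X => (1 : ℂ)) :=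
  ⟨measurable_const, 1, fun _ => by simp⟩

lemma fm_one (v : L2 E) : fm (fun _ => (1 : ℂ)) v = v := by
  rw [fm_apply, LinearIsometryEquiv.symm_apply_eq]
  apply Lp.ext
  filter_upwards [coeFn_mop isSymb_one (FT E v)] with x hx
  rw [hx, one_mul]

/-- The symbol of minus the Laplacian. -/
noncomputable def sig (ξ : E) : ℝ := (2 * Real.pi) ^ 2 * ‖ξ‖ ^ 2

lemma sig_nonneg (ξ : E) : 0 ≤ sig ξ := by unfold sig; positivity

lemma continuous_sig : Continuous (sig : E → ℝ) := by unfold sig; fun_prop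

/-- Frequency cut-off. -/
noncomputable def cut (n : ℕ) (ξ : E) : ℝ := if sig ξ ≤ n then 1 else 0

lemma cut_nonneg (n : ℕ) (ξ : E) : 0 ≤ cut n ξ := by unfold cut; split_ifs <;> norm_num

lemma cut_le_one (n : ℕ) (ξ : E) : cut n ξ ≤ 1 := by unfold cut; split_ifs <;> norm_num

lemma cut_mul_self (n : ℕ) (ξ : E) : cut n ξ * cut n ξ = cut n ξ := by
  unfold cut; split_ifs <;> norm_num

lemma measurable_cut (n : ℕ) : Measurable (cut n : E → ℝ) := by
  unfold cut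
  exact Measurable.ite (measurableSet_le continuous_sig.measurable measurable_const)
    measurable_const measurable_const

lemma cut_sig_le (n : ℕ) (ξ : E) : sig ξ * cut n ξ ≤ n := by
  unfold cut; split_ifs with h
  · simpa using h
  · simp

lemma cut_sig_nonneg (n : ℕ) (ξ : E) : 0 ≤ sig ξ * cut n ξ :=
  mul_nonneg (sig_nonneg _) (cut_nonneg _ _)

lemma isSymb_ofReal {m : E → ℝ} (hm : Measurable m) {C : ℝ} (hC : ∀ x, |m x| ≤ C) :
    IsSymb (fun x => (m x : ℂ)) :=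
  ⟨Complex.measurable_ofReal.comp hm, C, fun x => by
    rw [Complex.norm_real]; exact hC x⟩

lemma isSymb_cut (n : ℕ) : IsSymb (fun x : E => (cut n x : ℂ)) :=
  isSymb_ofReal (measurable_cut n) (C := 1) fun x => by
    rw [abs_of_nonneg (cut_nonneg _ _)]; exact cut_le_one _ _

lemma isSymb_sigcut (n : ℕ) : IsSymb (fun x : E => ((sig x * cut n x : ℝ) : ℂ)) :=
  isSymb_ofReal (continuous_sig.measurable.mul (measurable_cut n)) (C := n) fun x => by
    rw [abs_of_nonneg (cut_sig_nonneg _ _)]; exact cut_sig_le _ _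

/-- The truncation `P n`. -/
noncomputable def PP (E : Type*) [NormedAddCommGroup E] [InnerProductSpace ℝ E]
    [FiniteDimensional ℝ E] [MeasurableSpace E] [BorelSpace E] (n : ℕ) : L2 E →L[ℂ] L2 E :=
  fm (fun x => (cut n x : ℂ))

/-- The truncated minus Laplacian. -/
noncomputable def AA (E : Type*) [NormedAddCommGroup E] [InnerProductSpace ℝ E]
    [FiniteDimensional ℝ E] [MeasurableSpace E] [BorelSpace E] (n : ℕ) : L2 E →L[ℂ] L2 E :=
  fm (fun x => ((sig x * cut n x : ℝ) : ℂ))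

lemma PP_idem (n : ℕ) (x : L2 E) : PP E n (PP E n x) = PP E n x := by
  unfold PP
  rw [fm_fm (isSymb_cut n) (isSymb_cut n)]
  congr 2
  ext ξ
  rw [← Complex.ofReal_mul, cut_mul_self]

lemma AA_PP (n : ℕ) (x : L2 E) : AA E n (PP E n x) = AA E n x := by
  unfold PP AA
  rw [fm_fm (isSymb_sigcut n) (isSymb_cut n)]
  congr 2
  ext ξ
  rw [← Complex.ofReal_mul, mul_assoc, cut_mul_self]

lemma PP_AA (n : ℕ) (x : L2 E) : PP E n (AA E n x) = AA E n x := by
  unfold PP AA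
  rw [fm_fm (isSymb_cut n) (isSymb_sigcut n)]
  congr 2
  ext ξ
  rw [← Complex.ofReal_mul, mul_left_comm, cut_mul_self]

lemma AA_inner_self (n : ℕ) (x : L2 E) :
    (⟪AA E n x, x⟫_ℂ).re = ∫ ξ, sig ξ * cut n ξ * ‖(FT E x) ξ‖ ^ 2 :=
  fm_inner_self (isSymb_sigcut n) x

lemma PP_norm (n : ℕ) (x : L2 E) : ‖PP E n x‖ ≤ ‖x‖ := by
  have := fm_norm_le (isSymb_cut n) (C := 1) (fun ξ => by
    rw [Complex.norm_real, Real.norm_of_nonneg (cut_nonneg _ _)]; exact cut_le_one _ _) x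
  rwa [one_mul] at this

lemma PP_tendsto (x : L2 E) : Tendsto (fun n => PP E n x) atTop (𝓝 x) := by
  have h := fm_tendsto (E := E) (l := atTop) (m := fun n ξ => (cut n ξ : ℂ))
    (m₀ := fun _ => (1 : ℂ)) (C := 1) (fun n => Complex.measurable_ofReal.comp (measurable_cut n))
    (fun n ξ => by
      rw [Complex.norm_real, Real.norm_of_nonneg (cut_nonneg _ _)]; exact cut_le_one _ _)
    measurable_const (fun _ => by simp) (fun ξ => by
      refine tendsto_const_nhds.congr' ?_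
      obtain ⟨N, hN⟩ := exists_nat_ge (sig ξ)
      filter_upwards [eventually_ge_atTop N] with n hn
      unfold cut
      rw [if_pos (hN.trans (by exact_mod_cast hn))]
      simp) x
  rwa [fm_one] at h

end fourier

end Pool.Agent.Lib.MP_b98ad5_an
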