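import Pool.Agent.Lib.MP_b98ad5_an.Scalar

set_option autoImplicit false

open scoped InnerProductSpace Topology
open Set Filter MeasureTheory

namespace Pool.Agent.Lib.MP_b98ad5_an

variable {α R : ℝ} {X : Type*} [MeasurableSpace X] {μ : Measure X}

/-- The Nemytskii operator of the truncated nonlinearity on `L²`. -/
noncomputable def gL (hα : 0 < α) (hR : 0 < R) (v : Lp ℂ 2 μ) : Lp ℂ 2 μ :=
  (gs_lipschitzWith hα hR).compLp gs_zero v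

/-- The potential on `L²`. -/
noncomputable def PhiL (α R : ℝ) (v : Lp ℂ 2 μ) : ℝ := ∫ x, phis α R (v x) ∂μ

lemma coeFn_gL (hα : 0 < α) (hR : 0 < R) (v : Lp ℂ 2 μ) :
    gL hα hR v =ᵐ[μ] fun x => gs α R (v x) :=
  (gs_lipschitzWith hα hR).coeFn_compLp gs_zero v

lemma gL_lip (hα : 0 < α) (hR : 0 < R) (x y : Lp ℂ 2 μ) :
    ‖gL hα hR x - gL hα hR y‖ ≤ Lg α R * ‖x - y‖ := by
  have h := (gs_lipschitzWith hα hR).norm_compLp_sub_le gs_zero x y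
  rwa [Real.coe_toNNReal _ (Lg_nonneg hα hR)] at h

lemma norm_sq_L2 (f : Lp ℂ 2 μ) : ‖f‖ ^ 2 = ∫ x, ‖f x‖ ^ 2 ∂μ := by
  have h1 : ⟪f, f⟫_ℂ = ∫ x, ⟪f x, f x⟫_ℂ ∂μ := L2.inner_def f f
  rw [inner_self_eq_norm_sq_to_K] at h1
  have h2 : ∀ x, ⟪f x, f x⟫_ℂ = ((‖f x‖ ^ 2 : ℝ) : ℂ) := by
    intro x
    rw [inner_self_eq_norm_sq_to_K]
    push_cast; rfl
  simp_rw [h2] at h1
  rw [integral_complex_ofReal] at h1
  have h3 : ((‖f‖ ^ 2 : ℝ) : ℂ) = ((∫ x, ‖f x‖ ^ 2 ∂μ : ℝ) : ℂ) := by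
    rw [← h1]; push_cast; rfl
  exact_mod_cast h3

lemma integrable_norm_sq_L2 (f : Lp ℂ 2 μ) : Integrable (fun x => ‖f x‖ ^ 2) μ :=
  (memLp_two_iff_integrable_sq_norm (Lp.memLp f).1).mp (Lp.memLp f)

lemma integrable_phis (hα : 0 < α) (hR : 0 < R) (v : Lp ℂ 2 μ) :
    Integrable (fun x => phis α R (v x)) μ := by
  refine ((integrable_norm_sq_L2 v).const_mul (Lg α R)).mono'
    ((continuous_phis hα).comp_aestronglyMeasurable (Lp.memLp v).1) ?_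
  refine Eventually.of_forall fun x => ?_
  rw [Real.norm_of_nonneg (phis_nonneg _)]
  exact phis_le hα hR _

lemma PhiL_nonneg (v : Lp ℂ 2 μ) : 0 ≤ PhiL α R v :=
  integral_nonneg fun _ => phis_nonneg _

lemma PhiL_taylor (hα : 0 < α) (hR : 0 < R) (x y : Lp ℂ 2 μ) :
    |PhiL α R (x + y) - PhiL α R x - (⟪gL hα hR x, y⟫_ℂ).re| ≤ Lg α R * ‖y‖ ^ 2 := by
  have h0 : ∀ a b : ℂ, ⟪a, b⟫_ℂ = starRingEnd ℂ a * b := fun a b => by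
    rw [RCLike.inner_apply, mul_comm]
  have hI : Integrable (fun t => (starRingEnd ℂ (gs α R (x t)) * y t).re) μ := by
    have h1 : Integrable (fun t => (⟪(gL hα hR x) t, y t⟫_ℂ).re) μ :=
      (L2.integrable_inner (𝕜 := ℂ) (gL hα hR x) y).re
    refine h1.congr ?_
    filter_upwards [coeFn_gL hα hR x] with t ht
    rw [ht, h0]
  have h2 : (⟪gL hα hR x, y⟫_ℂ).re = ∫ t, (starRingEnd ℂ (gs α R (x t)) * y t).re ∂μ := by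
    have h3 : ⟪gL hα hR x, y⟫_ℂ = ∫ t, ⟪(gL hα hR x) t, y t⟫_ℂ ∂μ := L2.inner_def _ _
    rw [h3]
    have h4 := integral_re (L2.integrable_inner (𝕜 := ℂ) (gL hα hR x) y)
    have h5 : ∫ t, (starRingEnd ℂ (gs α R (x t)) * y t).re ∂μ =
        ∫ t, RCLike.re ⟪(gL hα hR x) t, y t⟫_ℂ ∂μ := by
      apply integral_congr_ae
      filter_upwards [coeFn_gL hα hR x] with t ht
      rw [ht, h0]; rfl
    rw [h5, h4]; rfl
  have h6 : PhiL α R (x + y) = ∫ t, phis α R (x t + y t) ∂μ := by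
    apply integral_congr_ae
    filter_upwards [Lp.coeFn_add x y] with t ht
    rw [ht]; rfl
  have h7 : Integrable (fun t => phis α R (x t + y t)) μ := by
    refine (integrable_phis hα hR (x + y)).congr ?_
    filter_upwards [Lp.coeFn_add x y] with t ht
    rw [ht]; rfl
  rw [h6, h2]
  unfold PhiL
  have h8 := integral_sub (h7.sub (integrable_phis hα hR x)) hI
  simp only [Pi.sub_apply] at h8
  rw [← integral_sub h7 (integrable_phis hα hR x), ← h8, norm_sq_L2, ← integral_const_mul]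
  refine (abs_integral_le_integral_abs).trans ?_
  refine integral_mono_of_nonneg (Eventually.of_forall fun t => abs_nonneg _)
    ((integrable_norm_sq_L2 y).const_mul _) (Eventually.of_forall fun t => ?_)
  exact phis_taylor hα hR (x t) (y t)

lemma euler_L2 (hα : 0 < α) (hR : 0 < R) {v : Lp ℂ 2 μ} (hv : ∀ᵐ x ∂μ, ‖v x‖ ≤ R) :
    ⟪v, gL hα hR v⟫_ℂ = (((α + 2) * PhiL α R v : ℝ) : ℂ) := by
  have h3 : ⟪v, gL hα hR v⟫_ℂ = ∫ t, ⟪v t, (gL hα hR v) t⟫_ℂ ∂μ := L2.inner_def _ _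
  rw [h3]
  have h4 : ∀ᵐ t ∂μ, ⟪v t, (gL hα hR v) t⟫_ℂ = (((α + 2) * phis α R (v t) : ℝ) : ℂ) := by
    filter_upwards [coeFn_gL hα hR v, hv] with t ht hvt
    rw [ht, phis_eq hα hvt, gs_eq hvt, RCLike.inner_apply, mul_assoc]
    have h5 : v t * (starRingEnd ℂ) (v t) = ((‖v t‖ ^ 2 : ℝ) : ℂ) := by
      rw [Complex.mul_conj, Complex.normSq_eq_norm_sq]
    rw [h5, ← Complex.ofReal_mul]
    congr 1
    rw [Real.rpow_add_of_nonneg (norm_nonneg _) hα.le (by norm_num)]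
    norm_num
  rw [integral_congr_ae h4, integral_complex_ofReal, integral_const_mul]
  rfl

/-- `∫ |v| ^ (α + 2)` in terms of the potential. -/
lemma integral_pow_eq (hα : 0 < α) {v : Lp ℂ 2 μ} (hv : ∀ᵐ x ∂μ, ‖v x‖ ≤ R) :
    ∫ x, ‖v x‖ ^ (α + 2) ∂μ = (α + 2) * PhiL α R v := by
  unfold PhiL
  rw [← integral_const_mul]
  apply integral_congr_ae
  filter_upwards [hv] with x hx
  exact (phis_eq hα hx).symm

lemma integrable_pow (hα : 0 < α) (hR : 0 < R) {v : Lp ℂ 2 μ} (hv : ∀ᵐ x ∂μ, ‖v x‖ ≤ R) :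
    Integrable (fun x => ‖v x‖ ^ (α + 2)) μ := by
  refine ((integrable_phis hα hR v).const_mul (α + 2)).congr ?_
  filter_upwards [hv] with x hx
  exact phis_eq hα hx

/-- `|⟪ψ, w⟫| ≤ δ ‖ψ‖₁ + C ‖ψ‖_∞ (α + 2) Φ(v)` when `|w| ≤ δ + C |v| ^ (α + 2)`. -/
lemma inner_le_aux (hα : 0 < α) (hR : 0 < R) {ψ v w : Lp ℂ 2 μ} {K₁ K₂ δ C : ℝ}
    (hv : ∀ᵐ x ∂μ, ‖v x‖ ≤ R) (hψ : Integrable (fun x => ‖ψ x‖) μ) (hψ1 : ∫ x, ‖ψ x‖ ∂μ ≤ K₁)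
    (hψ2 : ∀ᵐ x ∂μ, ‖ψ x‖ ≤ K₂) (hδ : 0 ≤ δ) (hC : 0 ≤ C)
    (hw : ∀ᵐ x ∂μ, ‖w x‖ ≤ δ + C * ‖v x‖ ^ (α + 2)) :
    ‖⟪ψ, w⟫_ℂ‖ ≤ δ * K₁ + C * K₂ * ((α + 2) * PhiL α R v) := by
  have h3 : ⟪ψ, w⟫_ℂ = ∫ t, ⟪ψ t, w t⟫_ℂ ∂μ := L2.inner_def _ _
  rw [h3, ← integral_pow_eq hα hv]
  have hI := integrable_pow hα hR hv
  calc ‖∫ t, ⟪ψ t, w t⟫_ℂ ∂μ‖ ≤ ∫ t, ‖⟪ψ t, w t⟫_ℂ‖ ∂μ := norm_integral_le_integral_norm _
    _ ≤ ∫ t, (δ * ‖ψ t‖ + C * K₂ * ‖v t‖ ^ (α + 2)) ∂μ := by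
        refine integral_mono_of_nonneg (Eventually.of_forall fun t => norm_nonneg _)
          ((hψ.const_mul δ).add (hI.const_mul _)) ?_
        filter_upwards [hw, hψ2] with t ht hψt
        have h4 : 0 ≤ ‖v t‖ ^ (α + 2) := by positivity
        calc ‖⟪ψ t, w t⟫_ℂ‖ ≤ ‖ψ t‖ * ‖w t‖ := norm_inner_le_norm _ _
          _ ≤ ‖ψ t‖ * (δ + C * ‖v t‖ ^ (α + 2)) := by gcongr
          _ = δ * ‖ψ t‖ + C * ‖ψ t‖ * ‖v t‖ ^ (α + 2) := by ring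
          _ ≤ δ * ‖ψ t‖ + C * K₂ * ‖v t‖ ^ (α + 2) := by gcongr
    _ = δ * ∫ t, ‖ψ t‖ ∂μ + C * K₂ * ∫ t, ‖v t‖ ^ (α + 2) ∂μ := by
        rw [integral_add (hψ.const_mul δ) (hI.const_mul _), integral_const_mul,
          integral_const_mul]
    _ ≤ _ := by gcongr

lemma psi_g_L2 (hα : 0 < α) (hR : 0 < R) {ψ v : Lp ℂ 2 μ} {K₁ K₂ : ℝ}
    (hv : ∀ᵐ x ∂μ, ‖v x‖ ≤ R) (hψ : Integrable (fun x => ‖ψ x‖) μ) (hψ1 : ∫ x, ‖ψ x‖ ∂μ ≤ K₁)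
    (hψ2 : ∀ᵐ x ∂μ, ‖ψ x‖ ≤ K₂) (hK₁ : 0 ≤ K₁) (hK₂ : 0 ≤ K₂) :
    ‖⟪ψ, gL hα hR v⟫_ℂ‖ ≤ (K₁ + K₂ * (α + 2)) * (1 + PhiL α R v) := by
  have h1 := inner_le_aux (w := gL hα hR v) (δ := 1) (C := 1) hα hR hv hψ hψ1 hψ2 zero_le_one
    zero_le_one (by
      filter_upwards [coeFn_gL hα hR v, hv] with x hx hvx
      rw [hx, gs_eq hvx, norm_mul, Complex.norm_real, Real.norm_of_nonneg (by positivity)]
      have h2 : ‖v x‖ ^ α * ‖v x‖ = ‖v x‖ ^ (α + 1) := by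
        rw [Real.rpow_add_of_nonneg (norm_nonneg _) hα.le zero_le_one, Real.rpow_one]
      rw [h2, one_mul]
      rcases le_total ‖v x‖ 1 with h | h
      · have h3 : ‖v x‖ ^ (α + 1) ≤ 1 := Real.rpow_le_one (norm_nonneg _) h (by linarith)
        have h4 : 0 ≤ ‖v x‖ ^ (α + 2) := by positivity
        linarith
      · have h3 : ‖v x‖ ^ (α + 1) ≤ ‖v x‖ ^ (α + 2) :=
          Real.rpow_le_rpow_of_exponent_le h (by linarith)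
        linarith)
  have h5 : 0 ≤ PhiL α R v := PhiL_nonneg v
  have h6 : 0 ≤ K₁ * PhiL α R v := by positivity
  have h7 : 0 ≤ K₂ * (α + 2) := by positivity
  refine h1.trans ?_
  linarith

lemma low_L2 (hα : 0 < α) (hR : 0 < R) {ψ v : Lp ℂ 2 μ} {K₁ K₂ p₀ : ℝ}
    (hv : ∀ᵐ x ∂μ, ‖v x‖ ≤ R) (hψ : Integrable (fun x => ‖ψ x‖) μ) (hψ1 : ∫ x, ‖ψ x‖ ∂μ ≤ K₁)
    (hψ2 : ∀ᵐ x ∂μ, ‖ψ x‖ ≤ K₂) (hK₁ : 0 < K₁) (hK₂ : 0 < K₂) (hp₀ : 0 < p₀)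
    (hp : p₀ / 2 ≤ ‖⟪ψ, v⟫_ℂ‖) :
    p₀ * (p₀ / (4 * K₁)) ^ (α + 1) / (4 * K₂ * (α + 2)) ≤ PhiL α R v := by
  set δ := p₀ / (4 * K₁) with hδ
  have hδpos : 0 < δ := by positivity
  have hD : 0 < δ ^ (α + 1) := by positivity
  have h1 := inner_le_aux (w := v) (δ := δ) (C := 1 / δ ^ (α + 1)) hα hR hv hψ hψ1 hψ2 hδpos.le
    (by positivity) (by
      filter_upwards [] with x
      rcases le_total ‖v x‖ δ with h | h
      · have : 0 ≤ 1 / δ ^ (α + 1) * ‖v x‖ ^ (α + 2) := by positivity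
        linarith
      · have h2 : ‖v x‖ ^ (α + 2) = ‖v x‖ ^ (α + 1) * ‖v x‖ := by
          rw [show α + 2 = (α + 1) + 1 by ring,
            Real.rpow_add_of_nonneg (norm_nonneg _) (by linarith) zero_le_one, Real.rpow_one]
        have h3 : δ ^ (α + 1) ≤ ‖v x‖ ^ (α + 1) :=
          Real.rpow_le_rpow hδpos.le h (by linarith)
        have h4 : ‖v x‖ ≤ 1 / δ ^ (α + 1) * ‖v x‖ ^ (α + 2) := by
          rw [h2, one_div, inv_mul_eq_div, le_div_iff₀ hD, mul_comm]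
          gcongr
        linarith)
  have h5 : δ * K₁ = p₀ / 4 := by rw [hδ]; field_simp
  rw [h5] at h1
  have h6 : p₀ / 4 ≤ 1 / δ ^ (α + 1) * K₂ * ((α + 2) * PhiL α R v) := by linarith
  rw [div_le_iff₀ (by positivity)]
  have h7 : 1 / δ ^ (α + 1) * K₂ * ((α + 2) * PhiL α R v) =
      K₂ * ((α + 2) * PhiL α R v) / δ ^ (α + 1) := by ring
  rw [h7, le_div_iff₀ hD] at h6
  linarith

end Pool.Agent.Lib.MP_b98ad5_an
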