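import Pool.Agent.Lib.MP_b98ad5_an.Mild
import Pool.Agent.Lib.MP_b98ad5_an.Compat

set_option autoImplicit false
set_option linter.unusedSectionVars false

open scoped InnerProductSpace Topology ContDiff ZeroAtInfty
open Set Filter MeasureTheory

namespace Pool.Agent.Lib.MP_b98ad5_an

variable {E : Type*} [NormedAddCommGroup E] [InnerProductSpace ℝ E] [FiniteDimensional ℝ E]
  [MeasurableSpace E] [BorelSpace E]

/-- Pairs of a `C₀` function and an `L²` class which agree. -/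
noncomputable def ZZ (E : Type*) [NormedAddCommGroup E] [InnerProductSpace ℝ E]
    [FiniteDimensional ℝ E] [MeasurableSpace E] [BorelSpace E] :
    Submodule ℂ (C₀(E, ℂ) × L2 E) where
  carrier := {p | (p.1 : E → ℂ) =ᵐ[volume] p.2}
  add_mem' := by
    intro p q hp hq
    change ((p.1 + q.1 : C₀(E, ℂ)) : E → ℂ) =ᵐ[volume] (p.2 + q.2 : L2 E)
    filter_upwards [hp, hq, Lp.coeFn_add p.2 q.2] with x h1 h2 h3
    rw [h3, Pi.add_apply, ← h1, ← h2]
    rfl
  zero_mem' := by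
    change ((0 : C₀(E, ℂ)) : E → ℂ) =ᵐ[volume] (0 : L2 E)
    filter_upwards [Lp.coeFn_zero ℂ 2 (volume : Measure E)] with x h1
    rw [h1]
    rfl
  smul_mem' := by
    intro c p hp
    change ((c • p.1 : C₀(E, ℂ)) : E → ℂ) =ᵐ[volume] (c • p.2 : L2 E)
    filter_upwards [hp, Lp.coeFn_smul c p.2] with x h1 h3
    rw [h3, Pi.smul_apply, ← h1]
    rfl

lemma mem_ZZ {p : C₀(E, ℂ) × L2 E} : p ∈ ZZ E ↔ (p.1 : E → ℂ) =ᵐ[volume] p.2 := Iff.rfl

lemma isClosed_ZZ : IsClosed (ZZ E : Set (C₀(E, ℂ) × L2 E)) := by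
  apply IsSeqClosed.isClosed
  intro a p ha hap
  have h1 : Tendsto (fun n => (a n).1) atTop (𝓝 p.1) := (continuous_fst.tendsto p).comp hap
  have h2 : Tendsto (fun n => (a n).2) atTop (𝓝 p.2) := (continuous_snd.tendsto p).comp hap
  have h3 := tendstoInMeasure_of_tendsto_Lp h2
  obtain ⟨φ, hφ, hφ2⟩ := h3.exists_seq_tendsto_ae
  have h4 : ∀ᵐ x ∂(volume : Measure E), ∀ n, (a n).1 x = (a n).2 x := by
    rw [ae_all_iff]
    exact fun n => ha n
  change (p.1 : E → ℂ) =ᵐ[volume] p.2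
  filter_upwards [hφ2, h4] with x hx h5
  have h6 : Tendsto (fun n => (a (φ n)).1 x) atTop (𝓝 (p.1 x)) :=
    ((ev x).continuous.tendsto _).comp (h1.comp hφ.tendsto_atTop)
  have h7 : Tendsto (fun n => (a (φ n)).1 x) atTop (𝓝 (p.2 x)) := by
    simp_rw [h5]
    exact hx
  exact tendsto_nhds_unique h6 h7

/-- The Banach space of pairs. -/
def ZT (E : Type*) [NormedAddCommGroup E] [InnerProductSpace ℝ E]
    [FiniteDimensional ℝ E] [MeasurableSpace E] [BorelSpace E] : Type _ := ZZ E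

noncomputable instance instNormedZT : NormedAddCommGroup (ZT E) :=
  inferInstanceAs (NormedAddCommGroup (ZZ E))

noncomputable instance instSpaceZT : NormedSpace ℂ (ZT E) :=
  inferInstanceAs (NormedSpace ℂ (ZZ E))

instance instCompleteZT : CompleteSpace (ZT E) := isClosed_ZZ.completeSpace_coe

/-- The underlying pair. -/
def ZT.pr (p : ZT E) : C₀(E, ℂ) × L2 E := Subtype.val p

lemma ZT.norm_eq (p : ZT E) : ‖p‖ = max ‖p.pr.1‖ ‖p.pr.2‖ := rfl

lemma ZT.ae (p : ZT E) : (p.pr.1 : E → ℂ) =ᵐ[volume] p.pr.2 := Subtype.prop p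

/-- Constructor. -/
def ZT.mk (f : C₀(E, ℂ)) (g : L2 E) (h : (f : E → ℂ) =ᵐ[volume] g) : ZT E :=
  (⟨(f, g), h⟩ : ZZ E)

lemma ZT.pr_mk {f : C₀(E, ℂ)} {g : L2 E} (h : (f : E → ℂ) =ᵐ[volume] g) :
    (ZT.mk f g h).pr = (f, g) := rfl

lemma ZT.ext {p q : ZT E} (h : p.pr = q.pr) : p = q := Subtype.ext h

lemma ZT.pr_add (p q : ZT E) : (p + q).pr = p.pr + q.pr := rfl

lemma ZT.pr_sub (p q : ZT E) : (p - q).pr = p.pr - q.pr := rfl

lemma ZT.pr_smul (c : ℂ) (p : ZT E) : (c • p).pr = c • p.pr := rfl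

lemma ZT.norm_fst_le (p : ZT E) : ‖p.pr.1‖ ≤ ‖p‖ := by
  rw [ZT.norm_eq]; exact le_max_left _ _

lemma ZT.norm_snd_le (p : ZT E) : ‖p.pr.2‖ ≤ ‖p‖ := by
  rw [ZT.norm_eq]; exact le_max_right _ _

/-- First projection. -/
noncomputable def ZT.p1 (E : Type*) [NormedAddCommGroup E] [InnerProductSpace ℝ E]
    [FiniteDimensional ℝ E] [MeasurableSpace E] [BorelSpace E] : ZT E →L[ℂ] C₀(E, ℂ) :=
  LinearMap.mkContinuous
    { toFun := fun p => p.pr.1
      map_add' := fun _ _ => rfl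
      map_smul' := fun _ _ => rfl } 1 (fun p => by rw [one_mul]; exact p.norm_fst_le)

/-- Second projection. -/
noncomputable def ZT.p2 (E : Type*) [NormedAddCommGroup E] [InnerProductSpace ℝ E]
    [FiniteDimensional ℝ E] [MeasurableSpace E] [BorelSpace E] : ZT E →L[ℂ] L2 E :=
  LinearMap.mkContinuous
    { toFun := fun p => p.pr.2
      map_add' := fun _ _ => rfl
      map_smul' := fun _ _ => rfl } 1 (fun p => by rw [one_mul]; exact p.norm_snd_le)

lemma compat_all {z : ℂ} (hz : 0 < z.re) (t : ℝ) {f : C₀(E, ℂ)} {g : L2 E}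
    (hfg : (f : E → ℂ) =ᵐ[volume] g) : (TC z t f : E → ℂ) =ᵐ[volume] SL z t g := by
  rcases le_total 0 t with ht | ht
  · exact compat hz ht hfg
  · have h1 : TC z t f = TC z 0 f := by
      rw [TC_apply hz, TC_apply hz]
      unfold TCf
      rw [Real.sqrt_eq_zero_of_nonpos ht, Real.sqrt_zero]
    have h2 : SL z t g = SL z 0 g := by
      unfold SL
      rw [max_eq_right ht, max_self]
    rw [h1, h2]
    exact compat hz le_rfl hfg

/-- The semigroup on pairs. -/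
noncomputable def SZ {z : ℂ} (hz : 0 < z.re) (t : ℝ) : ZT E →L[ℂ] ZT E :=
  LinearMap.mkContinuous
    { toFun := fun p => ZT.mk (TC z t p.pr.1) (SL z t p.pr.2) (compat_all hz t p.ae)
      map_add' := fun p q => by
        apply ZT.ext
        exact Prod.ext (map_add (TC z t) p.pr.1 q.pr.1) (map_add (SL z t) p.pr.2 q.pr.2)
      map_smul' := fun c p => by
        apply ZT.ext
        exact Prod.ext (map_smul (TC z t) c p.pr.1) (map_smul (SL z t) c p.pr.2) } (max (CK E z) 1) (fun p => by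
      rw [ZT.norm_eq]
      apply max_le
      · refine (TC_norm_le hz t p.pr.1).trans ?_
        have := p.norm_fst_le
        have := CK_nonneg (E := E) z
        gcongr
        exact le_max_left _ _
      · refine (SL_norm_le hz.le t p.pr.2).trans (p.norm_snd_le.trans ?_)
        exact le_mul_of_one_le_left (norm_nonneg p) (le_max_right _ _))

lemma SZ_pr {z : ℂ} (hz : 0 < z.re) (t : ℝ) (p : ZT E) :
    (SZ hz t p).pr = (TC z t p.pr.1, SL z t p.pr.2) := rfl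

lemma isSG_TC {z : ℂ} (hz : 0 < z.re) :
    IsSG (fun t => (TC z t : C₀(E, ℂ) →L[ℂ] C₀(E, ℂ))) (CK E z) :=
  ⟨TC_norm_le hz, TC_continuous hz⟩

lemma isSG_SL {z : ℂ} (hz : 0 < z.re) : IsSG (fun t => (SL z t : L2 E →L[ℂ] L2 E)) 1 :=
  ⟨fun t x => by rw [one_mul]; exact SL_norm_le hz.le t x, SL_continuous hz.le⟩

lemma isSG_SZ {z : ℂ} (hz : 0 < z.re) :
    IsSG (Z := ZT E) (fun t => SZ hz t) (max (CK E z) 1) := by
  constructor
  · intro t p
    have h := (SZ hz t).le_opNorm p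
    refine h.trans ?_
    gcongr
    exact LinearMap.mkContinuous_norm_le _ (le_max_of_le_right zero_le_one) _
  · intro p
    have h1 := (TC_continuous hz p.pr.1).prodMk (SL_continuous hz.le p.pr.2)
    exact Continuous.subtype_mk h1 _

variable {α R : ℝ}

/-- The truncated nonlinearity on `C₀`. -/
noncomputable def gC (hα : 0 < α) (hR : 0 < R) (f : C₀(E, ℂ)) : C₀(E, ℂ) where
  toFun x := gs α R (f x)
  continuous_toFun := (continuous_gs hα hR).comp (map_continuous f)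
  zero_at_infty' := by
    have h1 := ((continuous_gs hα hR).tendsto 0).comp f.zero_at_infty'
    rwa [gs_zero] at h1

lemma gC_lip (hα : 0 < α) (hR : 0 < R) (f g : C₀(E, ℂ)) :
    ‖gC hα hR f - gC hα hR g‖ ≤ Lg α R * ‖f - g‖ := by
  have h0 := Lg_nonneg hα hR
  rw [c0_norm_le (by positivity)]
  intro x
  change ‖gs α R (f x) - gs α R (g x)‖ ≤ _
  refine (gs_lip hα hR _ _).trans ?_
  gcongr
  exact c0_apply_le (f - g) x

/-- The full truncated nonlinearity on a normed space. -/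
noncomputable def NN {Y : Type*} [NormedAddCommGroup Y] [NormedSpace ℂ Y] (z : ℂ) (γ : ℝ)
    (g : Y → Y) (f : Y) : Y := z • g f + (γ : ℂ) • f

lemma NN_lip {Y : Type*} [NormedAddCommGroup Y] [NormedSpace ℂ Y] (z : ℂ) (γ : ℝ)
    {g : Y → Y} {L : ℝ} (hg : ∀ x y, ‖g x - g y‖ ≤ L * ‖x - y‖) (x y : Y) :
    ‖NN z γ g x - NN z γ g y‖ ≤ (‖z‖ * L + |γ|) * ‖x - y‖ := by
  have h1 : NN z γ g x - NN z γ g y = z • (g x - g y) + (γ : ℂ) • (x - y) := by
    unfold NN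
    rw [smul_sub, smul_sub]; abel
  rw [h1]
  refine (norm_add_le _ _).trans ?_
  rw [norm_smul, norm_smul, Complex.norm_real, Real.norm_eq_abs]
  calc _ ≤ ‖z‖ * (L * ‖x - y‖) + |γ| * ‖x - y‖ := by gcongr; exact hg x y
    _ = _ := by ring

lemma NN_mem {z : ℂ} {γ : ℝ} (hα : 0 < α) (hR : 0 < R) {f : C₀(E, ℂ)} {g : L2 E}
    (hfg : (f : E → ℂ) =ᵐ[volume] g) :
    ((NN z γ (gC hα hR) f : C₀(E, ℂ)) : E → ℂ) =ᵐ[volume]
      ((NN z γ (gL hα hR) g : L2 E) : E → ℂ) := by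
  unfold NN
  filter_upwards [hfg, coeFn_gL hα hR g, Lp.coeFn_smul z (gL hα hR g),
    Lp.coeFn_smul (γ : ℂ) g, Lp.coeFn_add (z • gL hα hR g) ((γ : ℂ) • g)] with x h1 h2 h3 h4 h5
  rw [h5, Pi.add_apply, h3, h4, Pi.smul_apply, Pi.smul_apply, h2, ← h1]
  rfl

/-- The nonlinearity on pairs. -/
noncomputable def NZ (z : ℂ) (γ : ℝ) (hα : 0 < α) (hR : 0 < R) (p : ZT E) : ZT E :=
  ZT.mk (NN z γ (gC hα hR) p.pr.1) (NN z γ (gL hα hR) p.pr.2) (NN_mem hα hR p.ae)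

lemma NZ_lip (z : ℂ) (γ : ℝ) (hα : 0 < α) (hR : 0 < R) (p q : ZT E) :
    ‖NZ z γ hα hR p - NZ z γ hα hR q‖ ≤ (‖z‖ * Lg α R + |γ|) * ‖p - q‖ := by
  have h0 := Lg_nonneg hα hR
  have h1 := NN_lip z γ (gC_lip hα hR) p.pr.1 q.pr.1
  have h2 := NN_lip z γ (gL_lip hα hR) p.pr.2 q.pr.2
  have h3 : ‖p.pr.1 - q.pr.1‖ ≤ ‖p - q‖ := (p - q).norm_fst_le
  have h4 : ‖p.pr.2 - q.pr.2‖ ≤ ‖p - q‖ := (p - q).norm_snd_le
  rw [ZT.norm_eq (NZ z γ hα hR p - NZ z γ hα hR q), ZT.pr_sub]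
  apply max_le
  · exact h1.trans (by gcongr)
  · exact h2.trans (by gcongr)

/-- A `C₀` mild solution (for the truncated nonlinearity) issued from an `L²` datum is a
mild solution in `L²`. -/
theorem pair_solution {z : ℂ} (hz : 0 < z.re) (γ : ℝ) (hα : 0 < α) (hR : 0 < R) {u₀ : C₀(E, ℂ)}
    {U : L2 E} (hU : (u₀ : E → ℂ) =ᵐ[volume] U) {T : ℝ} (hT : 0 ≤ T) {u : ℝ → C₀(E, ℂ)}
    (hu : ContinuousOn u (Icc 0 T))
    (hmild : ∀ t ∈ Icc 0 T, u t = TC z t u₀ +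
      ∫ s in (0 : ℝ)..t, TC z (t - s) (NN z γ (gC hα hR) (u s))) :
    ∃ w : ℝ → L2 E, Continuous w ∧ (∀ t ∈ Icc 0 T, (u t : E → ℂ) =ᵐ[volume] w t) ∧
      ∀ t ∈ Icc 0 T, w t = SL z t U +
        ∫ s in (0 : ℝ)..t, SL z (t - s) (NN z γ (gL hα hR) (w s)) := by
  have hL0 : 0 ≤ ‖z‖ * Lg α R + |γ| := by
    have := Lg_nonneg hα hR
    positivity
  have hS := isSG_SZ (E := E) hz
  obtain ⟨y, hyc, hy⟩ := mild_exists hS (NZ_lip z γ hα hR) (ZT.mk u₀ U hU) hT
    (le_max_of_le_right zero_le_one) hL0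
  have hint : ∀ t, IntervalIntegrable (fun s => SZ hz (t - s) (NZ z γ hα hR (y s))) volume 0 t :=
    fun t => (hS.continuous_apply (by fun_prop)
      ((continuous_of_lip (NZ_lip z γ hα hR)).comp hyc)).intervalIntegrable _ _
  have e1 : ∀ t ∈ Icc 0 T, ZT.p1 E (y t) = TC z t u₀ +
      ∫ s in (0 : ℝ)..t, TC z (t - s) (NN z γ (gC hα hR) (ZT.p1 E (y s))) := by
    intro t ht
    conv_lhs => rw [hy t ht]
    rw [map_add, ← ContinuousLinearMap.intervalIntegral_comp_comm _ (hint t)]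
    rfl
  have e2 : ∀ t ∈ Icc 0 T, ZT.p2 E (y t) = SL z t U +
      ∫ s in (0 : ℝ)..t, SL z (t - s) (NN z γ (gL hα hR) (ZT.p2 E (y s))) := by
    intro t ht
    conv_lhs => rw [hy t ht]
    rw [map_add, ← ContinuousLinearMap.intervalIntegral_comp_comm _ (hint t)]
    rfl
  have huniq := mild_unique (isSG_TC (E := E) hz) (NN_lip z γ (gC_lip hα hR)) u₀ (CK_nonneg z)
    hL0 hu ((ZT.p1 E).continuous.comp hyc).continuousOn hmild e1
  refine ⟨fun t => ZT.p2 E (y t), (ZT.p2 E).continuous.comp hyc, fun t ht => ?_, e2⟩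
  rw [huniq t ht]
  exact (y t).ae

end Pool.Agent.Lib.MP_b98ad5_an
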