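import Pool.Agent.Lib.MP_b98ad5_an.InitData

set_option autoImplicit false
set_option linter.unusedSectionVars false

open scoped InnerProductSpace Topology ContDiff ZeroAtInfty
open Set Filter MeasureTheory

namespace Pool.Agent.Lib.MP_b98ad5_an

variable {E : Type*} [NormedAddCommGroup E] [InnerProductSpace ℝ E] [FiniteDimensional ℝ E]
  [MeasurableSpace E] [BorelSpace E]

lemma levelEq (n : ℕ) : LevelEq (AA E n) (PP E n) where
  P_symm := fm_symm (isSymb_cut n) (fun _ => Complex.conj_ofReal _)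
  P_idem := PP_idem n
  A_symm := fm_symm (isSymb_sigcut n) (fun _ => Complex.conj_ofReal _)
  A_nonneg x := by
    rw [AA_inner_self]
    refine integral_nonneg fun ξ => ?_
    have := cut_sig_nonneg n ξ
    simp only [Pi.zero_apply]
    positivity
  comm x := by rw [AA_PP, PP_AA]

/-- Rescaling of the truncated nonlinearity. -/
lemma gL_rescale {α R : ℝ} (hα : 0 < α) (hR : 0 < R) {k : ℝ} (hk0 : 0 < k) (hk1 : k ≤ 1)
    {w : L2 E} (hw : ∀ᵐ x, ‖w x‖ ≤ R) :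
    gL hα hR w = (((k ^ (α + 1))⁻¹ : ℝ) : ℂ) • gL hα hR ((k : ℂ) • w) := by
  apply Lp.ext
  filter_upwards [hw, coeFn_gL hα hR w, coeFn_gL hα hR ((k : ℂ) • w), Lp.coeFn_smul (k : ℂ) w,
    Lp.coeFn_smul (((k ^ (α + 1))⁻¹ : ℝ) : ℂ) (gL hα hR ((k : ℂ) • w))] with x h1 h2 h3 h4 h5
  rw [h5, Pi.smul_apply, h2, h3, h4, Pi.smul_apply, smul_eq_mul, smul_eq_mul]
  have hn : ‖(k : ℂ) * w x‖ = k * ‖w x‖ := by
    rw [norm_mul, Complex.norm_real, Real.norm_of_nonneg hk0.le]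
  have h6 : ‖(k : ℂ) * w x‖ ≤ R := by
    rw [hn]
    exact (mul_le_of_le_one_left (norm_nonneg _) hk1).trans h1
  rw [gs_eq h1, gs_eq h6, hn, Real.mul_rpow hk0.le (norm_nonneg _)]
  have h7 : k ^ (α + 1) = k ^ α * k := by rw [Real.rpow_add hk0, Real.rpow_one]
  rw [h7]
  have hka : ((k ^ α : ℝ) : ℂ) ≠ 0 := by
    have : k ^ α ≠ 0 := by positivity
    exact_mod_cast this
  have hkc : (k : ℂ) ≠ 0 := by exact_mod_cast hk0.ne'
  push_cast
  field_simp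

/-- Construction of the blow-up path. -/
theorem isBlowupPath_of_solution {z : ℂ} (hz : 0 < z.re) {α R γ : ℝ} (hα : 0 < α)
    (hR : 0 < R) (hγ : 0 ≤ γ) {U ψ : L2 E} {D K₁ K₂ C₁ : ℝ}
    (hD : ∀ n, (⟪AA E n (PP E n U), PP E n U⟫_ℂ).re ≤ D)
    (hK₁ : 0 < K₁) (hK₂ : 0 < K₂) (hp : 0 < ‖⟪ψ, U⟫_ℂ‖)
    (hψ : Integrable (fun x => ‖ψ x‖) volume) (hψ1 : ∫ x, ‖ψ x‖ ≤ K₁)
    (hψ2 : ∀ᵐ x, ‖ψ x‖ ≤ K₂) (hψA : ∀ n, ‖AA E n (PP E n ψ)‖ ≤ C₁)
    {T : ℝ} (hT : 0 ≤ T) {w : ℝ → L2 E} (hwc : Continuous w)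
    (hwR : ∀ t ∈ Icc 0 T, ∀ᵐ x, ‖w t x‖ ≤ R)
    (hw : ∀ t ∈ Icc 0 T, w t = SL z t U +
        ∫ s in (0 : ℝ)..t, SL z (t - s) (NN z γ (gL hα hR) (w s))) :
    IsBlowupPath z α (α * γ) T D (‖U‖ ^ 2) ‖⟪ψ, U⟫_ℂ‖ C₁ (K₁ + K₂ * (α + 2))
      (‖⟪ψ, U⟫_ℂ‖ * (‖⟪ψ, U⟫_ℂ‖ / (4 * K₁)) ^ (α + 1) / (4 * K₂ * (α + 2))) (Lg α R) ψ
      (PP E) (AA E) (PhiL α R) (gL hα hR)
      (fun t => ((Real.exp (-(γ * t)) : ℝ) : ℂ) • w t) := by
  have hw0 : w 0 = U := by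
    rw [hw 0 (left_mem_Icc.mpr hT), SL_zero]; simp
  have hv0 : ((Real.exp (-(γ * 0)) : ℝ) : ℂ) • w 0 = U := by
    rw [hw0]; simp
  have hek : ∀ t ∈ Icc 0 T, Real.exp (-(γ * t)) ≤ 1 := fun t ht => by
    rw [Real.exp_le_one_iff]
    have : 0 ≤ γ * t := mul_nonneg hγ ht.1
    linarith
  have hvR : ∀ t ∈ Icc 0 T, ∀ᵐ x, ‖(((Real.exp (-(γ * t)) : ℝ) : ℂ) • w t : L2 E) x‖ ≤ R := by
    intro t ht
    filter_upwards [hwR t ht, Lp.coeFn_smul ((Real.exp (-(γ * t)) : ℝ) : ℂ) (w t)] with x h1 h2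
    rw [h2, Pi.smul_apply, norm_smul, Complex.norm_real, Real.norm_of_nonneg (Real.exp_pos _).le]
    exact (mul_le_of_le_one_left (norm_nonneg _) (hek t ht)).trans h1
  refine
    { level := levelEq
      P_norm := PP_norm
      P_tendsto := PP_tendsto
      v_cont := by
        apply Continuous.continuousOn
        have h1 : Continuous fun t : ℝ => ((Real.exp (-(γ * t)) : ℝ) : ℂ) := by fun_prop
        exact h1.smul hwc
      deriv := ?_
      L_nonneg := Lg_nonneg hα hR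
      g_lip := gL_lip hα hR
      Φ_nonneg := PhiL_nonneg
      taylor := PhiL_taylor hα hR
      init_D := fun n => by rw [hv0]; exact hD n
      init_F := by rw [hv0]
      init_p := by rw [hv0]
      psi_A := hψA
      euler := fun t ht => euler_L2 hα hR (hvR t ht)
      psi_g := fun t ht => psi_g_L2 hα hR (hvR t ht) hψ hψ1 hψ2 hK₁.le hK₂.le
      low := fun t ht hlow => low_L2 hα hR (hvR t ht) hψ hψ1 hψ2 hK₁ hK₂ hp hlow }
  intro n t ht
  have ht' : t ∈ Icc 0 T := Ioo_subset_Icc_self ht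
  have hNc : Continuous (NN z γ (gL (μ := (volume : Measure E)) hα hR)) :=
    continuous_of_lip (NN_lip z γ (gL_lip hα hR))
  have h1 := duhamel_deriv hz.le n (F := fun s => NN z γ (gL hα hR) (w s))
    (hNc.comp hwc).continuousOn hw ht
  set k := Real.exp (-(γ * t)) with hk
  have h2 : HasDerivAt (fun s : ℝ => ((Real.exp (-(γ * s)) : ℝ) : ℂ)) ((-γ * k : ℝ) : ℂ) t := by
    have h3 : HasDerivAt (fun s : ℝ => Real.exp (-(γ * s))) (Real.exp (-(γ * t)) * (-(γ * 1))) t :=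
      (((hasDerivAt_id t).const_mul γ).neg).exp
    have h4 := h3.ofReal_comp
    refine h4.congr_deriv ?_
    rw [hk]; push_cast; ring
  have h5 := h2.smul h1
  have h6 : (fun s => PP E n (((Real.exp (-(γ * s)) : ℝ) : ℂ) • w s)) =
      fun s : ℝ => ((Real.exp (-(γ * s)) : ℝ) : ℂ) • PP E n (w s) := by
    ext1 s; rw [map_smul]
  rw [h6]
  refine h5.congr_deriv ?_
  have hkpos : 0 < k := Real.exp_pos _
  have h7 := gL_rescale hα hR hkpos (hek t ht') (hwR t ht')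
  have h8 : (k : ℝ) * (k ^ (α + 1))⁻¹ = Real.exp (α * γ * t) := by
    have h9 : k ^ (α + 1) = Real.exp (-(γ * t) * (α + 1)) := by
      rw [hk, ← Real.exp_mul]
    rw [h9, ← Real.exp_neg, hk, ← Real.exp_add]
    congr 1; ring
  unfold NN
  rw [h7, ← h8, ← hk]
  simp only [map_smul, map_add, smul_add, smul_smul, smul_neg, neg_smul]
  push_cast
  module

end Pool.Agent.Lib.MP_b98ad5_an
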