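import Mathlib

set_option autoImplicit false

open scoped InnerProductSpace Topology
open Set Filter MeasureTheory

namespace Pool.Agent.Lib.MP_b98ad5_an

/-- The truncated power `q ↦ min (q⁺, R²) ^ (α / 2)`. -/
noncomputable def wt (α R q : ℝ) : ℝ := (min (max q 0) (R ^ 2)) ^ (α / 2)

/-- The truncated nonlinearity `w ↦ min (|w|, R) ^ α w`. -/
noncomputable def gs (α R : ℝ) (w : ℂ) : ℂ := (((min ‖w‖ R) ^ α : ℝ) : ℂ) * w

/-- The potential of the truncated nonlinearity. -/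
noncomputable def phis (α R : ℝ) (w : ℂ) : ℝ := 1 / 2 * ∫ q in (0 : ℝ)..‖w‖ ^ 2, wt α R q

variable {α R : ℝ}

lemma wt_nonneg (q : ℝ) : 0 ≤ wt α R q := by
  unfold wt
  positivity

lemma continuous_wt (hα : 0 < α) : Continuous (wt α R) := by
  unfold wt
  exact ((continuous_id.max continuous_const).min continuous_const).rpow_const
    (fun _ => Or.inr (by positivity))

lemma wt_sq (hR : 0 ≤ R) (w : ℂ) : wt α R (‖w‖ ^ 2) = (min ‖w‖ R) ^ α := by
  have h1 : max (‖w‖ ^ 2) 0 = ‖w‖ ^ 2 := max_eq_left (by positivity)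
  have h2 : min (‖w‖ ^ 2) (R ^ 2) = (min ‖w‖ R) ^ 2 := by
    rcases le_total ‖w‖ R with h | h
    · rw [min_eq_left h, min_eq_left (by gcongr)]
    · rw [min_eq_right h, min_eq_right (by gcongr)]
  unfold wt
  rw [h1, h2, ← Real.rpow_natCast, ← Real.rpow_mul (le_min (norm_nonneg _) hR)]
  congr 1
  push_cast; ring

lemma gs_zero : gs α R 0 = 0 := by simp [gs]

lemma phis_zero : phis α R 0 = 0 := by simp [phis]

lemma phis_nonneg (w : ℂ) : 0 ≤ phis α R w := by
  unfold phis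
  have : 0 ≤ ∫ q in (0 : ℝ)..‖w‖ ^ 2, wt α R q :=
    intervalIntegral.integral_nonneg (by positivity) fun q _ => wt_nonneg q
  positivity

lemma rpow_sub_le {m a : ℝ} (hα : 0 < α) (ha : 0 ≤ a) (hm : 0 < m) :
    m ^ (α + 1) - a ^ (α + 1) ≤ (α + 1) * m ^ α * (m - a) := by
  have h1 : 1 + (α + 1) * (a / m - 1) ≤ (1 + (a / m - 1)) ^ (α + 1) :=
    one_add_mul_self_le_rpow_one_add (by
      have : 0 ≤ a / m := by positivity
      linarith) (by linarith)
  rw [add_sub_cancel, Real.div_rpow ha hm.le, le_div_iff₀ (by positivity)] at h1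
  have h2 : m ^ (α + 1) = m ^ α * m := by rw [Real.rpow_add hm, Real.rpow_one]
  rw [h2] at h1 ⊢
  have h3 : (1 + (α + 1) * (a / m - 1)) * (m ^ α * m) =
      m ^ α * m - (α + 1) * m ^ α * (m - a) := by
    field_simp; ring
  linarith

lemma gs_lip_aux (hα : 0 < α) (hR : 0 < R) {a b : ℂ} (hab : ‖b‖ ≤ ‖a‖) :
    ‖gs α R a - gs α R b‖ ≤ (α + 2) * R ^ α * ‖a - b‖ := by
  set m := min ‖a‖ R with hm
  have hm0 : 0 ≤ m := le_min (norm_nonneg _) hR.le
  have hmR : m ^ α ≤ R ^ α := Real.rpow_le_rpow hm0 (min_le_right _ _) hα.le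
  have h1 : gs α R a - gs α R b = ((m ^ α : ℝ) : ℂ) * (a - b) +
      (((m ^ α - (min ‖b‖ R) ^ α : ℝ)) : ℂ) * b := by
    unfold gs
    push_cast; ring
  have h2 : ‖((m ^ α : ℝ) : ℂ) * (a - b)‖ ≤ R ^ α * ‖a - b‖ := by
    rw [norm_mul, Complex.norm_real, Real.norm_of_nonneg (by positivity)]
    gcongr
  have h3 : ‖(((m ^ α - (min ‖b‖ R) ^ α : ℝ)) : ℂ) * b‖ ≤ (α + 1) * R ^ α * ‖a - b‖ := by
    rcases le_or_gt R ‖b‖ with hb | hb
    · have h4 : m = R := min_eq_right (hb.trans hab)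
      rw [h4, min_eq_right hb, sub_self]
      simp only [Complex.ofReal_zero, zero_mul, norm_zero]
      positivity
    · rw [min_eq_left hb.le, norm_mul, Complex.norm_real]
      have hbm : ‖b‖ ≤ m := le_min hab hb.le
      have h5 : ‖b‖ ^ α ≤ m ^ α := Real.rpow_le_rpow (norm_nonneg _) hbm hα.le
      rw [Real.norm_of_nonneg (sub_nonneg.mpr h5)]
      rcases hm0.eq_or_lt with h0 | hmpos
      · have : ‖b‖ = 0 := le_antisymm (by rw [h0]; exact hbm) (norm_nonneg _)
        rw [this, mul_zero]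
        positivity
      · have h6 : (m ^ α - ‖b‖ ^ α) * ‖b‖ ≤ m ^ (α + 1) - ‖b‖ ^ (α + 1) := by
          have h7 : m ^ (α + 1) = m ^ α * m := by rw [Real.rpow_add hmpos, Real.rpow_one]
          have h8 : ‖b‖ ^ (α + 1) = ‖b‖ ^ α * ‖b‖ := by
            rw [Real.rpow_add_of_nonneg (norm_nonneg _) hα.le zero_le_one, Real.rpow_one]
          rw [h7, h8, sub_mul]
          have : m ^ α * ‖b‖ ≤ m ^ α * m := by gcongr
          linarith
        have h9 := rpow_sub_le hα (norm_nonneg b) hmpos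
        have h10 : m - ‖b‖ ≤ ‖a - b‖ := by
          have h11 : m ≤ ‖a‖ := min_le_left _ _
          have h12 := norm_sub_norm_le a b
          linarith
        calc (m ^ α - ‖b‖ ^ α) * ‖b‖ ≤ (α + 1) * m ^ α * (m - ‖b‖) := h6.trans h9
          _ ≤ (α + 1) * R ^ α * ‖a - b‖ := by
            have : 0 ≤ m - ‖b‖ := sub_nonneg.mpr hbm
            gcongr
  rw [h1]
  calc _ ≤ R ^ α * ‖a - b‖ + (α + 1) * R ^ α * ‖a - b‖ := (norm_add_le _ _).trans (add_le_add h2 h3)
    _ = _ := by ring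

/-- The Lipschitz constant of the truncated nonlinearity. -/
noncomputable def Lg (α R : ℝ) : ℝ := (α + 2) * R ^ α

lemma Lg_nonneg (hα : 0 < α) (hR : 0 < R) : 0 ≤ Lg α R := by unfold Lg; positivity

lemma gs_lip (hα : 0 < α) (hR : 0 < R) (a b : ℂ) :
    ‖gs α R a - gs α R b‖ ≤ Lg α R * ‖a - b‖ := by
  rcases le_total ‖b‖ ‖a‖ with h | h
  · exact gs_lip_aux hα hR h
  · rw [norm_sub_rev, norm_sub_rev a b]
    exact gs_lip_aux hα hR h

lemma gs_lipschitzWith (hα : 0 < α) (hR : 0 < R) :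
    LipschitzWith (Real.toNNReal (Lg α R)) (gs α R) := by
  refine LipschitzWith.of_dist_le_mul fun a b => ?_
  rw [dist_eq_norm, dist_eq_norm, Real.coe_toNNReal _ (Lg_nonneg hα hR)]
  exact gs_lip hα hR a b

lemma continuous_gs (hα : 0 < α) (hR : 0 < R) : Continuous (gs α R) :=
  (gs_lipschitzWith hα hR).continuous

lemma hasDerivAt_phis (hα : 0 < α) (hR : 0 ≤ R) (x y : ℂ) (s : ℝ) :
    HasDerivAt (fun s : ℝ => phis α R (x + (s : ℂ) * y))
      ((starRingEnd ℂ (gs α R (x + (s : ℂ) * y)) * y).re) s := by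
  have h1 : ∀ q, HasDerivAt (fun q => ∫ r in (0 : ℝ)..q, wt α R r) (wt α R q) q := fun q =>
    intervalIntegral.integral_hasDerivAt_right
      ((continuous_wt hα).intervalIntegrable _ _)
      ((continuous_wt hα).stronglyMeasurableAtFilter _ _) (continuous_wt hα).continuousAt
  have hline : HasDerivAt (fun s : ℝ => x + (s : ℂ) * y) y s := by
    have h2 : HasDerivAt (fun s : ℝ => (s : ℂ)) 1 s := Complex.ofRealCLM.hasDerivAt
    simpa using (h2.mul_const y).const_add x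
  have hsq : HasDerivAt (fun s : ℝ => ‖x + (s : ℂ) * y‖ ^ 2)
      (2 * (starRingEnd ℂ (x + (s : ℂ) * y) * y).re) s := by
    have h3 := hline.norm_sq
    have h4 : (2 : ℝ) * inner ℝ (x + (s : ℂ) * y) y = 2 * (starRingEnd ℂ (x + (s : ℂ) * y) * y).re := by
      rw [Complex.inner, mul_comm y]
    rw [← h4]
    exact h3
  have h5 := ((h1 (‖x + (s : ℂ) * y‖ ^ 2)).comp s hsq).const_mul (1 / 2 : ℝ)
  refine h5.congr_deriv ?_
  rw [wt_sq hR]
  unfold gs
  rw [map_mul, Complex.conj_ofReal, mul_assoc ((_ : ℝ) : ℂ), Complex.re_ofReal_mul]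
  ring

lemma phis_taylor (hα : 0 < α) (hR : 0 < R) (x y : ℂ) :
    |phis α R (x + y) - phis α R x - (starRingEnd ℂ (gs α R x) * y).re| ≤ Lg α R * ‖y‖ ^ 2 := by
  set c := (starRingEnd ℂ (gs α R x) * y).re with hc
  have hder : ∀ s ∈ Icc (0 : ℝ) 1, HasDerivWithinAt
      (fun s : ℝ => phis α R (x + (s : ℂ) * y) - s * c)
      ((starRingEnd ℂ (gs α R (x + (s : ℂ) * y)) * y).re - c) (Icc 0 1) s := by
    intro s _
    have h1 := (hasDerivAt_phis hα hR.le x y s).sub ((hasDerivAt_id s).mul_const c)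
    simp only [one_mul, id] at h1
    exact h1.hasDerivWithinAt
  have hbound : ∀ s ∈ Ico (0 : ℝ) 1,
      ‖(starRingEnd ℂ (gs α R (x + (s : ℂ) * y)) * y).re - c‖ ≤ Lg α R * ‖y‖ ^ 2 := by
    intro s hs
    rw [hc, ← Complex.sub_re, ← sub_mul, ← map_sub, Real.norm_eq_abs]
    refine (Complex.abs_re_le_norm _).trans ?_
    rw [norm_mul, RCLike.norm_conj]
    have h2 := gs_lip hα hR (x + (s : ℂ) * y) x
    rw [add_sub_cancel_left, norm_mul, Complex.norm_real, Real.norm_of_nonneg hs.1] at h2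
    have h3 : s * ‖y‖ ≤ 1 * ‖y‖ := by gcongr; exact hs.2.le
    calc _ ≤ Lg α R * (s * ‖y‖) * ‖y‖ := by gcongr
      _ ≤ Lg α R * (1 * ‖y‖) * ‖y‖ := by
        have := Lg_nonneg hα hR
        gcongr
      _ = _ := by ring
  have h4 := norm_image_sub_le_of_norm_deriv_le_segment_01' hder hbound
  simp only [Complex.ofReal_one, one_mul, Complex.ofReal_zero, zero_mul, add_zero, sub_zero,
    Real.norm_eq_abs] at h4
  rw [show phis α R (x + y) - phis α R x - c = phis α R (x + y) - c - phis α R x by ring]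
  exact h4

lemma phis_le (hα : 0 < α) (hR : 0 < R) (y : ℂ) : phis α R y ≤ Lg α R * ‖y‖ ^ 2 := by
  have h := phis_taylor hα hR 0 y
  rw [zero_add, phis_zero, gs_zero] at h
  simp only [map_zero, zero_mul, Complex.zero_re, sub_zero] at h
  exact (le_abs_self _).trans h

lemma continuous_phis (hα : 0 < α) : Continuous (phis α R) := by
  unfold phis
  have h1 : Continuous fun q : ℝ => ∫ r in (0 : ℝ)..q, wt α R r :=
    intervalIntegral.continuous_primitive
      (fun a b => (continuous_wt hα).intervalIntegrable a b) 0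
  exact continuous_const.mul (h1.comp (continuous_norm.pow 2))

lemma gs_eq {w : ℂ} (hw : ‖w‖ ≤ R) : gs α R w = ((‖w‖ ^ α : ℝ) : ℂ) * w := by
  unfold gs; rw [min_eq_left hw]

lemma phis_eq (hα : 0 < α) {w : ℂ} (hw : ‖w‖ ≤ R) : (α + 2) * phis α R w = ‖w‖ ^ (α + 2) := by
  have h1 : ∫ q in (0 : ℝ)..‖w‖ ^ 2, wt α R q = ∫ q in (0 : ℝ)..‖w‖ ^ 2, q ^ (α / 2) := by
    apply intervalIntegral.integral_congr
    intro q hq
    rw [uIcc_of_le (by positivity)] at hq
    simp only [wt]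
    rw [max_eq_left hq.1, min_eq_left (hq.2.trans (by gcongr))]
  unfold phis
  rw [h1, integral_rpow (Or.inl (by linarith))]
  have h2 : (‖w‖ ^ 2) ^ (α / 2 + 1) = ‖w‖ ^ (α + 2) := by
    rw [← Real.rpow_natCast, ← Real.rpow_mul (norm_nonneg _)]
    congr 1; push_cast; ring
  rw [h2, Real.zero_rpow (by linarith)]
  field_simp
  ring

end Pool.Agent.Lib.MP_b98ad5_an
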