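import Pool.Agent.Lib.MP_b98ad5_an.Multiplier

set_option autoImplicit false
set_option linter.unusedSectionVars false

open scoped InnerProductSpace Topology
open Set Filter MeasureTheory

namespace Pool.Agent.Lib.MP_b98ad5_an

variable {E : Type*} [NormedAddCommGroup E] [InnerProductSpace ℝ E] [FiniteDimensional ℝ E]
  [MeasurableSpace E] [BorelSpace E]

lemma fm_const_mul {m : E → ℂ} (hm : IsSymb m) (c : ℂ) (v : L2 E) :
    fm (fun x => c * m x) v = c • fm m v := by
  have hc : IsSymb (fun x => c * m x) := by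
    obtain ⟨h1, C, hC⟩ := hm
    refine ⟨h1.const_mul c, ‖c‖ * C, fun x => ?_⟩
    rw [norm_mul]
    gcongr
    exact hC x
  rw [fm_apply, fm_apply, ← map_smul]
  congr 1
  apply Lp.ext
  filter_upwards [coeFn_mop hc (FT E v), coeFn_mop hm (FT E v),
    Lp.coeFn_smul c (mop volume m (FT E v))] with x h1 h2 h3
  rw [h1, h3, Pi.smul_apply, h2, smul_eq_mul]
  ring

lemma fm_comb_norm_le {m₁ m₂ m₃ : E → ℂ} (h₁ : IsSymb m₁) (h₂ : IsSymb m₂) (h₃ : IsSymb m₃)
    (c : ℂ) {C : ℝ} (hC : ∀ x, ‖m₁ x - m₂ x - c * m₃ x‖ ≤ C) (v : L2 E) :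
    ‖fm m₁ v - fm m₂ v - c • fm m₃ v‖ ≤ C * ‖v‖ := by
  have h4 : ‖fm m₁ v - fm m₂ v - c • fm m₃ v‖ =
      ‖mop volume m₁ (FT E v) - mop volume m₂ (FT E v) - c • mop volume m₃ (FT E v)‖ := by
    rw [fm_apply, fm_apply, fm_apply, ← map_smul, ← map_sub, ← map_sub,
      LinearIsometryEquiv.norm_map]
  rw [h4, ← LinearIsometryEquiv.norm_map (FT E) v]
  apply Lp.norm_le_mul_norm_of_ae_le_mul
  filter_upwards [coeFn_mop h₁ (FT E v), coeFn_mop h₂ (FT E v), coeFn_mop h₃ (FT E v),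
    Lp.coeFn_smul c (mop volume m₃ (FT E v)),
    Lp.coeFn_sub (mop volume m₁ (FT E v)) (mop volume m₂ (FT E v)),
    Lp.coeFn_sub (mop volume m₁ (FT E v) - mop volume m₂ (FT E v))
      (c • mop volume m₃ (FT E v))] with x e1 e2 e3 e4 e5 e6
  rw [e6, Pi.sub_apply, e5, Pi.sub_apply, e4, Pi.smul_apply, e1, e2, e3, smul_eq_mul]
  have : m₁ x * (FT E v) x - m₂ x * (FT E v) x - c * (m₃ x * (FT E v) x) =
      (m₁ x - m₂ x - c * m₃ x) * (FT E v) x := by ring
  rw [this, norm_mul]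
  gcongr
  exact hC x

/-- The heat-type symbol. -/
noncomputable def hs (z : ℂ) (t : ℝ) (ξ : E) : ℂ := Complex.exp (-((t : ℂ) * z * (sig ξ : ℂ)))

lemma continuous_hs (z : ℂ) (t : ℝ) : Continuous (hs z t : E → ℂ) := by
  unfold hs
  have := continuous_sig (E := E)
  fun_prop

lemma hs_norm_le_one {z : ℂ} (hz : 0 ≤ z.re) {t : ℝ} (ht : 0 ≤ t) (ξ : E) : ‖hs z t ξ‖ ≤ 1 := by
  unfold hs
  rw [Complex.norm_exp]
  have h1 : (-((t : ℂ) * z * (sig ξ : ℂ))).re = -(t * z.re * sig ξ) := by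
    rw [Complex.neg_re, Complex.re_mul_ofReal, Complex.re_ofReal_mul]
  rw [h1, Real.exp_le_one_iff]
  have := sig_nonneg ξ
  have : 0 ≤ t * z.re * sig ξ := by positivity
  linarith

lemma hs_add (z : ℂ) (t s : ℝ) (ξ : E) : hs z t ξ * hs z s ξ = hs z (t + s) ξ := by
  unfold hs
  rw [← Complex.exp_add]
  congr 1
  push_cast; ring

lemma hs_zero (z : ℂ) (ξ : E) : hs z 0 ξ = 1 := by simp [hs]

/-- The semigroup on `L²`. -/
noncomputable def SL (z : ℂ) (t : ℝ) : L2 E →L[ℂ] L2 E := fm (hs z (max t 0))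

/-- The truncated group. -/
noncomputable def MM (z : ℂ) (n : ℕ) (t : ℝ) : L2 E →L[ℂ] L2 E :=
  fm (fun ξ => hs z t ξ * (cut n ξ : ℂ))

lemma isSymb_hs {z : ℂ} (hz : 0 ≤ z.re) {t : ℝ} (ht : 0 ≤ t) : IsSymb (hs z t : E → ℂ) :=
  ⟨(continuous_hs z t).measurable, 1, hs_norm_le_one hz ht⟩

lemma SL_norm_le {z : ℂ} (hz : 0 ≤ z.re) (t : ℝ) (v : L2 E) : ‖SL z t v‖ ≤ ‖v‖ := by
  have := fm_norm_le (isSymb_hs hz (le_max_right t 0)) (hs_norm_le_one hz (le_max_right t 0)) v
  rwa [one_mul] at this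

lemma SL_zero (z : ℂ) (v : L2 E) : SL z 0 v = v := by
  unfold SL
  rw [max_self]
  have : (hs z 0 : E → ℂ) = fun _ => 1 := by ext ξ; exact hs_zero z ξ
  rw [this, fm_one]

lemma SL_continuous {z : ℂ} (hz : 0 ≤ z.re) (v : L2 E) : Continuous fun t : ℝ => SL z t v := by
  rw [continuous_iff_continuousAt]
  intro t
  apply fm_tendsto (C := 1)
  · exact fun s => (continuous_hs z _).measurable
  · exact fun s ξ => hs_norm_le_one hz (le_max_right s 0) ξ
  · exact (continuous_hs z _).measurable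
  · exact fun ξ => hs_norm_le_one hz (le_max_right t 0) ξ
  · intro ξ
    have : Continuous fun s : ℝ => hs z (max s 0) ξ := by
      unfold hs
      fun_prop
    exact this.tendsto t

/-- Joint continuity of a strongly continuous bounded family. -/
lemma continuousOn_apply_of_strong {F G : Type*} [NormedAddCommGroup F] [NormedSpace ℂ F]
    [NormedAddCommGroup G] [NormedSpace ℂ G] {S : ℝ → F →L[ℂ] G} {C : ℝ}
    (hC : ∀ t x, ‖S t x‖ ≤ C * ‖x‖) (hS : ∀ x, Continuous fun t => S t x)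
    {a : ℝ → ℝ} {f : ℝ → F} {s : Set ℝ} (ha : ContinuousOn a s) (hf : ContinuousOn f s) :
    ContinuousOn (fun t => S (a t) (f t)) s := by
  intro t ht
  have h1 : Tendsto (fun r => S (a r) (f t)) (𝓝[s] t) (𝓝 (S (a t) (f t))) :=
    ((hS (f t)).tendsto _).comp (ha t ht)
  have h2 : Tendsto (fun r => S (a r) (f r - f t)) (𝓝[s] t) (𝓝 0) := by
    have h3 : Tendsto (fun r => C * ‖f r - f t‖) (𝓝[s] t) (𝓝 0) := by
      have h4 : Tendsto (fun r => f r - f t) (𝓝[s] t) (𝓝 (f t - f t)) := (hf t ht).sub_const _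
      rw [sub_self] at h4
      have := (h4.norm).const_mul C
      simpa using this
    exact squeeze_zero_norm (fun r => hC _ _) h3
  have h5 := h1.add h2
  rw [add_zero] at h5
  refine h5.congr fun r => ?_
  rw [map_sub]; abel

section trunc

variable (z : ℂ) (n : ℕ)

lemma norm_trunc_le (t : ℝ) (ξ : E) :
    ‖hs z t ξ * (cut n ξ : ℂ)‖ ≤ Real.exp (|t| * ‖z‖ * n) := by
  by_cases h : sig ξ ≤ n
  · have h1 : (cut n ξ : ℂ) = 1 := by simp [cut, h]
    rw [h1, mul_one]
    unfold hs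
    refine (Complex.norm_exp_le_exp_norm _).trans ?_
    rw [norm_neg, norm_mul, norm_mul, Complex.norm_real, Complex.norm_real, Real.norm_eq_abs,
      Real.norm_of_nonneg (sig_nonneg ξ)]
    gcongr
  · have h1 : (cut n ξ : ℂ) = 0 := by simp [cut, h]
    rw [h1, mul_zero, norm_zero]
    positivity

lemma isSymb_trunc (t : ℝ) : IsSymb (fun ξ : E => hs z t ξ * (cut n ξ : ℂ)) :=
  ⟨(continuous_hs z t).measurable.mul (Complex.measurable_ofReal.comp (measurable_cut n)),
    _, norm_trunc_le z n t⟩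

lemma MM_add (t s : ℝ) (v : L2 E) : MM z n t (MM z n s v) = MM z n (t + s) v := by
  unfold MM
  rw [fm_fm (isSymb_trunc z n t) (isSymb_trunc z n s)]
  congr 2
  ext ξ
  rw [← hs_add]
  have : (cut n ξ : ℂ) * (cut n ξ : ℂ) = cut n ξ := by
    rw [← Complex.ofReal_mul, cut_mul_self]
  linear_combination (hs z t ξ * hs z s ξ) * this

lemma MM_zero (v : L2 E) : MM z n 0 v = PP E n v := by
  unfold MM PP
  congr 2
  ext ξ
  rw [hs_zero, one_mul]

lemma PP_SL {z : ℂ} (hz : 0 ≤ z.re) (n : ℕ) {t : ℝ} (ht : 0 ≤ t) (v : L2 E) :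
    PP E n (SL z t v) = MM z n t v := by
  unfold PP SL MM
  rw [fm_fm (isSymb_cut n) (isSymb_hs hz (le_max_right _ _)), max_eq_left ht]
  congr 2
  ext ξ
  ring

lemma AA_MM (t : ℝ) (v : L2 E) :
    (-z) • AA E n (MM z n t v) = fm (fun ξ => -z * (sig ξ * (hs z t ξ * (cut n ξ : ℂ)))) v := by
  unfold AA MM
  rw [fm_fm (isSymb_sigcut n) (isSymb_trunc z n t),
    ← fm_const_mul ((isSymb_sigcut n).mul (isSymb_trunc z n t))]
  congr 2
  ext ξ
  have : (cut n ξ : ℂ) * (cut n ξ : ℂ) = cut n ξ := by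
    rw [← Complex.ofReal_mul, cut_mul_self]
  push_cast
  linear_combination (-z * sig ξ * hs z t ξ) * this

lemma MM_hasDerivAt (t : ℝ) :
    HasDerivAt (fun t => (MM z n t : L2 E →L[ℂ] L2 E)) ((-z) • (AA E n ∘L MM z n t)) t := by
  rw [hasDerivAt_iff_isLittleO_nhds_zero]
  set B := ‖z‖ * n with hB
  have hB0 : 0 ≤ B := by positivity
  have hS3 : IsSymb (fun ξ : E => -z * (sig ξ * (hs z t ξ * (cut n ξ : ℂ)))) := by
    have h1 := (isSymb_sigcut (E := E) n).mul (isSymb_trunc z n t)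
    obtain ⟨h2, C, hC⟩ := h1
    have h3 : (fun ξ : E => -z * (sig ξ * (hs z t ξ * (cut n ξ : ℂ)))) =
        fun ξ : E => -z * (((sig ξ * cut n ξ : ℝ) : ℂ) * (hs z t ξ * (cut n ξ : ℂ))) := by
      ext ξ
      have : (cut n ξ : ℂ) * (cut n ξ : ℂ) = cut n ξ := by
        rw [← Complex.ofReal_mul, cut_mul_self]
      push_cast
      linear_combination (z * sig ξ * hs z t ξ) * this
    rw [h3]
    refine ⟨h2.const_mul _, ‖-z‖ * C, fun x => ?_⟩
    rw [norm_mul]
    gcongr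
    exact hC x
  have hO : (fun h : ℝ => (MM z n (t + h) : L2 E →L[ℂ] L2 E) - MM z n t -
      h • ((-z) • (AA E n ∘L MM z n t))) =O[𝓝 0] fun h => ‖h‖ ^ 2 := by
    refine Asymptotics.IsBigO.of_bound (Real.exp (|t| * ‖z‖ * n) * B ^ 2) ?_
    have hsmall : ∀ᶠ h : ℝ in 𝓝 0, |h| * B ≤ 1 := by
      have h1 : Tendsto (fun h : ℝ => |h| * B) (𝓝 0) (𝓝 (|0| * B)) :=
        (continuous_abs.mul continuous_const).tendsto 0
      rw [abs_zero, zero_mul] at h1
      exact h1.eventually (ge_mem_nhds zero_lt_one)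
    filter_upwards [hsmall] with h hh
    refine ContinuousLinearMap.opNorm_le_bound _ (by positivity) fun v => ?_
    set Df : L2 E →L[ℂ] L2 E := (MM z n (t + h) : L2 E →L[ℂ] L2 E) - MM z n t -
      h • ((-z) • (AA E n ∘L MM z n t)) with hDf
    have h4 : Df v =
        fm (fun ξ => hs z (t + h) ξ * (cut n ξ : ℂ)) v - fm (fun ξ => hs z t ξ * (cut n ξ : ℂ)) v -
        (h : ℂ) • fm (fun ξ => -z * (sig ξ * (hs z t ξ * (cut n ξ : ℂ)))) v := by
      rw [← AA_MM]
      rfl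
    rw [h4]
    refine fm_comb_norm_le (isSymb_trunc z n _) (isSymb_trunc z n _) hS3 _ (fun ξ => ?_) v
    by_cases hξ : sig ξ ≤ n
    · have h5 : hs z (t + h) ξ * (cut n ξ : ℂ) - hs z t ξ * (cut n ξ : ℂ) -
          (h : ℂ) * (-z * (sig ξ * (hs z t ξ * (cut n ξ : ℂ)))) =
          (hs z t ξ * (cut n ξ : ℂ)) * (Complex.exp (-((h : ℂ) * z * sig ξ)) - 1 -
            (-((h : ℂ) * z * sig ξ))) := by
        have h6 : hs z (t + h) ξ = hs z t ξ * Complex.exp (-((h : ℂ) * z * sig ξ)) := by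
          rw [← hs_add]; rfl
        rw [h6]; ring
      have h7 : ‖-((h : ℂ) * z * sig ξ)‖ ≤ |h| * B := by
        rw [norm_neg, norm_mul, norm_mul, Complex.norm_real, Complex.norm_real, Real.norm_eq_abs,
          Real.norm_of_nonneg (sig_nonneg ξ), hB, mul_assoc]
        gcongr
      rw [h5, norm_mul]
      have h8 := Complex.norm_exp_sub_one_sub_id_le (h7.trans hh)
      calc _ ≤ Real.exp (|t| * ‖z‖ * n) * (|h| * B) ^ 2 := by
            gcongr
            · exact norm_trunc_le z n t ξ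
            · exact h8.trans (by gcongr)
        _ = _ := by rw [Real.norm_of_nonneg (by positivity), Real.norm_eq_abs]; ring
    · have h1 : (cut n ξ : ℂ) = 0 := by simp [cut, hξ]
      rw [h1]
      simp only [mul_zero, sub_zero, norm_zero]
      positivity
  refine hO.trans_isLittleO ?_
  exact Asymptotics.isLittleO_norm_pow_id one_lt_two

/-- Differentiation of the truncated Duhamel formula. -/
lemma duhamel_deriv {z : ℂ} (hz : 0 ≤ z.re) (n : ℕ) {T : ℝ} {w F : ℝ → L2 E} {U : L2 E}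
    (hF : ContinuousOn F (Icc 0 T))
    (hw : ∀ t ∈ Icc 0 T, w t = SL z t U + ∫ s in (0 : ℝ)..t, SL z (t - s) (F s)) {t : ℝ}
    (ht : t ∈ Ioo 0 T) :
    HasDerivAt (fun s => PP E n (w s)) ((-z) • AA E n (PP E n (w t)) + PP E n (F t)) t := by
  have hMc : Continuous fun s => (MM z n s : L2 E →L[ℂ] L2 E) :=
    continuous_iff_continuousAt.mpr fun s => (MM_hasDerivAt z n s).continuousAt
  have hint : ContinuousOn (fun s => MM z n (-s) (F s)) (Icc 0 T) :=
    (hMc.comp continuous_neg).continuousOn.clm_apply hF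
  -- the formula
  have hform : ∀ r ∈ Icc 0 T, PP E n (w r) =
      MM z n r (U + ∫ s in (0 : ℝ)..r, MM z n (-s) (F s)) := by
    intro r hr
    have hsub : Icc 0 r ⊆ Icc 0 T := Icc_subset_Icc_right hr.2
    have hc1 : ContinuousOn (fun s => SL z (r - s) (F s)) (Icc 0 r) :=
      continuousOn_apply_of_strong (C := 1) (fun t x => by rw [one_mul]; exact SL_norm_le hz t x)
        (SL_continuous hz) (by fun_prop) (hF.mono hsub)
    have hi1 : IntervalIntegrable (fun s => SL z (r - s) (F s)) volume 0 r :=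
      ContinuousOn.intervalIntegrable_of_Icc hr.1 hc1
    have hi2 : IntervalIntegrable (fun s => MM z n (-s) (F s)) volume 0 r :=
      ContinuousOn.intervalIntegrable_of_Icc hr.1 (hint.mono hsub)
    rw [hw r hr, map_add, PP_SL hz n hr.1, map_add,
      ← ContinuousLinearMap.intervalIntegral_comp_comm _ hi1,
      ← ContinuousLinearMap.intervalIntegral_comp_comm _ hi2]
    congr 1
    apply intervalIntegral.integral_congr
    intro s hs
    rw [uIcc_of_le hr.1] at hs
    simp only []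
    rw [PP_SL hz n (by linarith [hs.2]), MM_add, sub_eq_add_neg]
  have hG : HasDerivAt (fun r => U + ∫ s in (0 : ℝ)..r, MM z n (-s) (F s))
      (MM z n (-t) (F t)) t := by
    have h1 : IntervalIntegrable (fun s => MM z n (-s) (F s)) volume 0 t :=
      ContinuousOn.intervalIntegrable_of_Icc ht.1.le
        (hint.mono (Icc_subset_Icc_right ht.2.le))
    have h2 : ContinuousAt (fun s => MM z n (-s) (F s)) t :=
      hint.continuousAt (Icc_mem_nhds ht.1 ht.2)
    have h3 : StronglyMeasurableAtFilter (fun s => MM z n (-s) (F s)) (𝓝 t) volume :=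
      ContinuousOn.stronglyMeasurableAtFilter isOpen_Ioo (hint.mono Ioo_subset_Icc_self) t ht
    exact (intervalIntegral.integral_hasDerivAt_right h1 h3 h2).const_add U
  have hM := (ContinuousLinearMap.restrictScalarsL ℂ (L2 E) (L2 E) ℝ ℝ).hasFDerivAt.comp_hasDerivAt t
    (MM_hasDerivAt (E := E) z n t)
  have hprod := hM.clm_apply hG
  have heq : (fun s => PP E n (w s)) =ᶠ[𝓝 t]
      fun r => MM z n r (U + ∫ s in (0 : ℝ)..r, MM z n (-s) (F s)) := by
    filter_upwards [Icc_mem_nhds ht.1 ht.2] with r hr using hform r hr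
  refine (hprod.congr_of_eventuallyEq heq).congr_deriv ?_
  rw [hform t (Ioo_subset_Icc_self ht)]
  congr 1
  change MM z n t (MM z n (-t) (F t)) = _
  rw [MM_add, add_neg_cancel, MM_zero]

end trunc

end Pool.Agent.Lib.MP_b98ad5_an
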