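import Pool.Agent.Lib.MP_b98ad5_an.Semigroup

set_option autoImplicit false
set_option linter.unusedSectionVars false

open scoped InnerProductSpace Topology ContDiff
open Set Filter MeasureTheory

namespace Pool.Agent.Lib.MP_b98ad5_an

variable {E : Type*} [NormedAddCommGroup E] [InnerProductSpace ℝ E] [FiniteDimensional ℝ E]
  [MeasurableSpace E] [BorelSpace E]

lemma iteratedDeriv_cexp_real (c : ℂ) (n : ℕ) :
    iteratedDeriv n (fun s : ℝ => Complex.exp (c * s)) = fun s : ℝ => c ^ n * Complex.exp (c * s) := by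
  induction n with
  | zero => ext s; simp
  | succ n ih =>
    ext s
    rw [iteratedDeriv_succ, ih]
    have h1 : HasDerivAt (fun s : ℝ => c * (s : ℂ)) c s := by
      have h2 : HasDerivAt (fun s : ℝ => (s : ℂ)) 1 s := Complex.ofRealCLM.hasDerivAt
      simpa using h2.const_mul c
    have h3 := (h1.cexp).const_mul (c ^ n)
    rw [h3.deriv]
    ring

lemma hasTemperateGrowth_sig : (sig : E → ℝ).HasTemperateGrowth := by
  unfold sig
  have h := Function.hasTemperateGrowth_norm_sq E
  fun_prop

lemma hasTemperateGrowth_hs {z : ℂ} (hz : 0 ≤ z.re) {t : ℝ} (ht : 0 ≤ t) :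
    (hs z t : E → ℂ).HasTemperateGrowth := by
  set c : ℂ := -((t : ℂ) * z) with hc
  have hcre : c.re ≤ 0 := by
    rw [hc, Complex.neg_re, Complex.re_ofReal_mul]
    have : 0 ≤ t * z.re := by positivity
    linarith
  set g : ℝ → ℂ := fun s => Complex.exp (c * s) with hg
  have hsg : (hs z t : E → ℂ) = g ∘ sig := by
    ext ξ
    simp only [hs, hg, Function.comp, hc]
    congr 1
    ring
  rw [hsg]
  have hgsmooth : ContDiff ℝ ∞ g := by
    rw [hg]
    have h1 : ContDiff ℝ ∞ fun s : ℝ => c * (s : ℂ) :=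
      contDiff_const.mul Complex.ofRealCLM.contDiff
    exact h1.cexp
  set S := {y : ℝ | -1 < y} with hS
  have hunique : UniqueDiffOn ℝ S := (isOpen_lt' (-1)).uniqueDiffOn
  apply Function.HasTemperateGrowth.comp' (t := S) _ hunique hgsmooth.contDiffOn _
    hasTemperateGrowth_sig
  · rintro - ⟨ξ, rfl⟩
    have := sig_nonneg ξ
    simp only [hS, Set.mem_ofPred_eq]
    linarith
  · intro N
    refine ⟨0, (∑ k ∈ Finset.range (N + 1), ‖c‖ ^ k) * Real.exp (-c.re), by positivity, ?_⟩
    intro n hn x hx
    rw [norm_iteratedFDerivWithin_eq_norm_iteratedDerivWithin,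
      iteratedDerivWithin_eq_iteratedDeriv hunique (hgsmooth.contDiffAt.of_le (mod_cast le_top)) hx,
      hg, iteratedDeriv_cexp_real, pow_zero, mul_one, norm_mul, norm_pow, Complex.norm_exp,
      Complex.re_mul_ofReal]
    have hx' : -1 < x := hx
    gcongr
    · have hmem : n ∈ Finset.range (N + 1) := by grind
      exact Finset.single_le_sum (f := fun k => ‖c‖ ^ k) (fun _ _ => by positivity) hmem
    · nlinarith

end Pool.Agent.Lib.MP_b98ad5_an
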